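import Pool.Agent.KS6_4.CL.Defs

/-!
# Extensions of expansive homeomorphisms with holonomies
-/

set_option autoImplicit false

open Filter Set Metric Topology

universe u v

namespace Pool.Agent.KS6_4.CL

/-- `b'` is in the local stable set of size `ε` of `b` (for `h`; in the local unstable set, for the
inverse of `h`). -/
def Near {B : Type v} [MetricSpace B] (h : B → B) (ε : ℝ) (b b' : B) : Prop :=
  ∀ n : ℕ, dist (h^[n] b) (h^[n] b') ≤ ε

/-- Topological transitivity. -/
def TopTrans {B : Type v} [TopologicalSpace B] (h : B → B) : Prop :=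
  ∀ U V : Set B, IsOpen U → IsOpen V → U.Nonempty → V.Nonempty → ∃ n : ℕ, ∃ x ∈ U, h^[n] x ∈ V

/-- Stable holonomies between the fibres `π⁻¹(b) ∩ Λ` of `π : Λ → B`, for `F` on `Λ` and `h` on `B`:
for `b` in the local stable set of `π x`, `H x b` is a point of the fibre over `b`; these maps are
compatible with the dynamics, continuous, and Lipschitz (with a uniform constant) on the fibres.
(Unstable holonomies are the stable holonomies of the inverses.) -/
structure Holonomy {N : Type u} {B : Type v} [MetricSpace N] [MetricSpace B] (F : N → N) (h : B → B)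
    (Λ : Set N) (π : N → B) (ε C : ℝ) (H : N → B → N) : Prop where
  fib : ∀ x ∈ Λ, ∀ b, Near h ε (π x) b → H x b ∈ Λ ∧ π (H x b) = b
  refl : ∀ x ∈ Λ, H x (π x) = x
  symm : ∀ x ∈ Λ, ∀ b, Near h ε (π x) b → H (H x b) (π x) = x
  equiv : ∀ x ∈ Λ, ∀ b, Near h ε (π x) b → F (H x b) = H (F x) (h b)
  cont : ContinuousOn (fun a : N × B => H a.1 a.2) {a | a.1 ∈ Λ ∧ Near h ε (π a.1) a.2}
  lip : ∀ x ∈ Λ, ∀ y ∈ Λ, π x = π y → ∀ b, Near h ε (π x) b →
    dist (H x b) (H y b) ≤ C * dist x y

/-- `Λ` is a compact invariant set of `F`, fibred by `π` over the infinite transitive expansive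
homeomorphism `h` with the shadowing property, with Lipschitz stable and unstable holonomies between
the fibres, and the return maps of the fibres over the periodic points of `h` are nonwandering. -/
structure Bunched {N : Type u} {B : Type v} [MetricSpace N] [MetricSpace B] (F : N ≃ₜ N)
    (h : B ≃ₜ B) (Λ : Set N) (π : N → B) : Prop where
  closed : IsClosed Λ
  inv : ∀ x, x ∈ Λ ↔ F x ∈ Λ
  cont : ContinuousOn π Λ
  onto : ∀ b, ∃ x ∈ Λ, π x = b
  semi : ∀ x ∈ Λ, π (F x) = h (π x)
  infinite : Infinite B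
  trans : TopTrans h
  exp : Expansive h
  shadow : Shadowing h
  stable : ∃ (ε C : ℝ) (H : N → B → N), 0 < ε ∧ Holonomy F h Λ π ε C H
  unstable : ∃ (ε C : ℝ) (H : N → B → N), 0 < ε ∧ Holonomy F.symm h.symm Λ π ε C H
  nonwand : ∀ (b : B) (m : ℕ), 1 ≤ m → h^[m] b = b → ∀ x ∈ Λ, π x = b → ∀ W ∈ 𝓝 x,
    ∃ k : ℕ, 1 ≤ k ∧ ∃ y ∈ Λ, π y = b ∧ y ∈ W ∧ F^[m * k] y ∈ W

theorem chain_of_trans {B : Type v} [MetricSpace B] {h : B ≃ₜ B} (hT : TopTrans h) :
    ChainTrans h := by
  intro δ hδ x y
  have hc : ContinuousAt h x := h.continuous.continuousAt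
  obtain ⟨r, hr, hr2⟩ := Metric.continuousAt_iff.1 hc (δ / 2) (half_pos hδ)
  obtain ⟨n, u, hu, hun⟩ := hT (h.symm ⁻¹' ball x r) (ball y (δ / 2))
    (isOpen_ball.preimage h.symm.continuous) isOpen_ball
    ⟨h x, by
      show h.symm (h x) ∈ ball x r
      rw [h.symm_apply_apply]; exact mem_ball_self hr⟩ ⟨y, mem_ball_self (half_pos hδ)⟩
  have hu1 : dist u (h x) < δ / 2 := by
    have := hr2 (mem_ball.1 hu)
    rwa [h.apply_symm_apply] at this
  refine ⟨n + 1, fun i => if i = 0 then x else if i ≤ n then h^[i - 1] u else y, by omega, by simp,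
    by simp, ?_⟩
  intro i hi
  have hun' := mem_ball.1 hun
  rcases Nat.eq_zero_or_pos i with h0 | h0
  · subst h0
    simp only [if_true, zero_add, Nat.one_ne_zero, if_false]
    split_ifs with h1
    · simp only [Nat.sub_self, Function.iterate_zero, id]
      rw [dist_comm]
      linarith
    · have hn : n = 0 := by omega
      subst hn
      simp only [Function.iterate_zero, id] at hun'
      have := dist_triangle_left (h x) y u
      linarith
  · simp only [if_neg (show i ≠ 0 by omega), if_neg (show i + 1 ≠ 0 by omega),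
      if_pos (show i ≤ n by omega)]
    split_ifs with h1
    · rw [← Function.iterate_succ_apply' h, show (i - 1).succ = i + 1 - 1 by omega, dist_self]
      exact hδ
    · rw [← Function.iterate_succ_apply' h, show (i - 1).succ = n by omega]
      linarith

/-- bracket -/
theorem bracket {B : Type v} [MetricSpace B] {h : B ≃ₜ B} (hS : Shadowing h) {ε : ℝ} (hε : 0 < ε) :
    ∃ δ : ℝ, 0 < δ ∧ ∀ b₀ b₁ : B, dist b₀ b₁ < δ → ∃ c, Near h.symm ε b₀ c ∧ Near h ε c b₁ ∧
      dist c b₀ < ε := by
  have it_succ : ∀ (i : ℤ) (x : B), h ((h ^ i) x) = (h ^ (i + 1)) x := by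
    intro i x
    rw [add_comm, zpow_add, zpow_one]
    rfl
  have it_nat : ∀ (n : ℕ) (x : B), (h ^ (n : ℤ)) x = h^[n] x := by
    intro n x
    induction n with
    | zero => rw [Nat.cast_zero, zpow_zero]; rfl
    | succ n ih =>
      rw [Function.iterate_succ_apply', ← ih, it_succ]
      push_cast
      rfl
  have it_neg : ∀ (n : ℕ) (x : B), (h ^ (-(n : ℤ))) x = h.symm^[n] x := by
    intro n x
    induction n with
    | zero => rw [Nat.cast_zero, neg_zero, zpow_zero]; rfl
    | succ n ih =>
      rw [Function.iterate_succ_apply', ← ih]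
      apply h.injective
      rw [it_succ, h.apply_symm_apply]
      congr 2
      push_cast
      ring
  obtain ⟨δ, hδ, hsh⟩ := hS (ε / 2) (half_pos hε)
  refine ⟨min δ (ε / 2), lt_min hδ (half_pos hε), fun b₀ b₁ hb => ?_⟩
  obtain ⟨c, hc⟩ := hsh (fun i => if i < 0 then (h ^ i) b₀ else (h ^ i) b₁) (by
    intro i
    rcases lt_trichotomy (i + 1) 0 with h1 | h1 | h1
    · simp only [if_pos (show i < 0 by omega), if_pos h1]
      rw [it_succ, dist_self]
      exact hδ
    · simp only [if_pos (show i < 0 by omega), if_neg (show ¬ i + 1 < 0 by omega)]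
      rw [it_succ, h1, zpow_zero]
      exact hb.trans_le (min_le_left _ _)
    · simp only [if_neg (show ¬ i < 0 by omega), if_neg (show ¬ i + 1 < 0 by omega)]
      rw [it_succ, dist_self]
      exact hδ)
  have h0 : dist c b₁ < ε / 2 := by
    have := hc 0
    simp only [lt_irrefl, if_false, zpow_zero] at this
    exact this
  have hcb : dist c b₀ < ε := by
    have h2 := hb.trans_le (min_le_right _ _)
    have := dist_triangle_right c b₀ b₁
    linarith
  refine ⟨c, fun n => ?_, fun n => ?_, hcb⟩
  · rcases Nat.eq_zero_or_pos n with hn | hn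
    · subst hn
      rw [dist_comm]
      exact hcb.le
    · have := hc (-n)
      simp only [if_pos (show -(n : ℤ) < 0 by omega)] at this
      rw [it_neg, it_neg, dist_comm] at this
      linarith
  · have := hc n
    simp only [if_neg (show ¬ (n : ℤ) < 0 by omega)] at this
    rw [it_nat, it_nat] at this
    linarith

end Pool.Agent.KS6_4.CL
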