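import Pool.Agent.KS6_4.CL.Loop

/-!
# Closing orbits from holonomy loops
-/

set_option autoImplicit false

open Filter Set Metric Topology

universe u v

namespace Pool.Agent.KS6_4.CL

variable {E : Type u} {N : Type v} [MetricSpace E] [MetricSpace N] [CompactSpace E]

/-- metric closing at order `k` with constant `κ`, after a time `≥ M` -/
def MC (F : N → N) (z₀ : N) (κ : ℝ) (k M : ℕ) : Prop :=
  ∃ (z' : N) (ρ : ℝ) (m : ℕ), dist z' z₀ < κ ∧ 0 < ρ ∧ ρ < κ ∧ (1 ≤ m ∧ M ≤ m) ∧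
    dist (F^[m] z') z' < κ * ρ ^ k ∧ ∀ i, 0 < i → i < m → 2 * ρ ≤ dist (F^[i] z') z'

namespace Ext

variable {X : Ext E N} {n : ℕ} {v : ℤ → Fin 3} {F : N → N} {P : ℕ} {Λ c₀ : ℝ}

/-- the neighbourhood of `Hu w (p3 n v)` over `𝒦` -/
def Ub (X : Ext E N) (n : ℕ) (v : ℤ → Fin 3) (w : E) (m : ℕ) (δ : ℝ) : Set E :=
  {x | agr m (p3 n v) (X.p x)} ∩ {x | dist (X.q x) (X.q (X.Hu w (p3 n v))) < δ}

omit [CompactSpace E] in
theorem isOpen_agr (m : ℕ) (σ : Seq) : IsOpen {τ | agr m σ τ} := by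
  rw [isOpen_iff_mem_nhds]
  intro τ hτ
  filter_upwards [agr_mem_nhds m τ] with ρ hρ
  exact agr.trans hτ hρ

omit [CompactSpace E] in
theorem isOpen_Ub (w : E) (m : ℕ) (δ : ℝ) : IsOpen (X.Ub n v w m δ) :=
  ((isOpen_agr m (p3 n v)).preimage X.hp).inter
    (isOpen_lt (X.hq.dist continuous_const) continuous_const)

theorem unif_q (X : Ext E N) {η : ℝ} (hη : 0 < η) :
    ∃ δ : ℝ, 0 < δ ∧ ∀ x y, dist x y < δ → dist (X.q x) (X.q y) < η := by
  obtain ⟨δ, hδ, h⟩ := Metric.uniformContinuous_iff.1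
    (CompactSpace.uniformContinuous_of_continuous X.hq) η hη
  exact ⟨δ, hδ, fun x y hxy => h hxy⟩

set_option maxHeartbeats 1000000 in
/-- the construction of the closing orbits -/
theorem orbits (hX : Cov X F P Λ c₀) (hNW : X.NW) {w : E}
    (hw : X.p w = A0) {η δ : ℝ} (hη : 0 < η) (M : ℕ) :
    ∃ m : ℕ, X.T n v w ∈ X.Orb (Kset n v) (X.Ub n v w m δ) →
      ∃ (z : E) (j : ℕ), dist (X.q z) (X.q (X.R n v w)) < Λ * (X.C * (δ + η) + 2 * η) ∧
        dist (X.q (X.Φ^[j + 1] z)) (X.q (X.R n v w)) < η ∧ M ≤ j ∧ X.p z 0 = 2 ∧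
        ∀ t : ℕ, 0 < t → t ≤ j → X.p z t = 2 → t + n < j ∧
          ∃ i : ℕ, i ≤ n ∧ X.p z (t + i) ≠ X.p z i := by
  set e := X.R n v w with he
  set qp := X.Hu w (p3 n v) with hqp
  have hpe : X.p e = bb n v := p_R hw
  have hpqp : X.p qp = p3 n v := p_Hu_p3 hw
  have hC : 0 ≤ X.C := by linarith [X.C1]
  have hΛ : 0 < Λ := by linarith [hX.Λ1]
  -- moduli
  obtain ⟨d0, hd0, hq0⟩ := X.unif_q hη
  obtain ⟨m1, d1, hd1, hs1⟩ := X.unif_s hd0
  obtain ⟨m2, d2, hd2, hu2⟩ := X.unif_u hd0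
  obtain ⟨d3, hd3, ha3⟩ := agr_of_close X.hp (max m2 (n + 1))
  -- the target neighbourhood
  set d4 := min d2 d3 with hd4
  have hd4' : 0 < d4 := lt_min hd2 hd3
  obtain ⟨M5, hM5⟩ := X.contr_s (half_pos hd4')
  obtain ⟨M6, hM6⟩ := X.contr_u hd0
  obtain ⟨m7, hm7⟩ := X.fib_near (lt_min hd0 hd1)
  refine ⟨max (max m1 m7) (n + 1), fun hT => ?_⟩
  have hpT : X.p (X.T n v w) = A0 := p_T hw
  obtain ⟨x, hxU, hxK, j, hj, hjx⟩ := Orb_reach (Kset_adm n v) hNW (isOpen_Ub w _ δ) hT isOpen_ball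
    (mem_ball_self (half_pos hd4')) (max (max (max M5 M6) (n + 1)) M)
  have hjM : M ≤ j := (le_max_right _ _).trans hj
  replace hj := (le_max_left _ _).trans hj
  have hjM5 : M5 ≤ j := (le_max_left _ _).trans ((le_max_left _ _).trans hj)
  have hjM6 : M6 ≤ j := (le_max_right _ _).trans ((le_max_left _ _).trans hj)
  have hjn : n + 1 ≤ j := (le_max_right _ _).trans hj
  have hk : agr (max (max m1 m7) (n + 1)) (p3 n v) (X.p x) := hxU.1
  have hxq : dist (X.q x) (X.q qp) < δ := hxU.2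
  set k := X.p x with hkdef
  -- the start
  set σ1 := spl (sh 1 (bb n v)) k with hσ1
  have hSF1 : SF k σ1 := SF_spl _ _
  set x1 := X.Hs x σ1 with hx1
  have hpx1 : X.p x1 = σ1 := X.s.fib _ _ hSF1
  obtain ⟨y, hyk, hyd⟩ := hm7 qp k (by
    rw [hpqp]; exact hk.mono ((le_max_right _ _).trans (le_max_left _ _)))
  have hyq : dist (X.q y) (X.q qp) < η := hq0 _ _ (hyd.trans_le (min_le_left _ _))
  have hxy : dist (X.q x) (X.q y) < δ + η := by
    have := dist_triangle_right (X.q x) (X.q y) (X.q qp)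
    linarith
  have hx1y1 : dist (X.q x1) (X.q (X.Hs y σ1)) ≤ X.C * (δ + η) :=
    (X.s.lip x y σ1 hyk.symm hSF1).trans (mul_le_mul_of_nonneg_left hxy.le hC)
  have hagr1 : agr m1 σ1 (sh 1 (bb n v)) := by
    intro i hi
    rw [hσ1]
    unfold spl
    split_ifs with h0
    · rfl
    · rw [← hk i (hi.trans (by
        exact_mod_cast (le_max_left m1 m7).trans (le_max_left _ _)))]
      exact SF_p3 i (not_lt.1 h0)
  have hy1 : dist (X.q (X.Hs y σ1)) (X.q (X.Φ e)) < η := by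
    apply hq0
    rw [he, Φ_R]
    exact hs1 y qp σ1 _ (by rw [hyk]; exact hSF1) (by rw [hpqp]; exact SF_p3)
      (hyd.trans_le (min_le_right _ _)) hagr1
  have hx1e : dist (X.q x1) (X.q (X.Φ e)) < X.C * (δ + η) + η := by
    have := dist_triangle (X.q x1) (X.q (X.Hs y σ1)) (X.q (X.Φ e))
    linarith
  -- the end
  set y2 := X.Φ^[j] x1 with hy2
  have hy2x : dist y2 (X.Φ^[j] x) < d4 / 2 := hM5 j hjM5 x σ1 hSF1
  have hy2T : dist y2 (X.T n v w) < d4 := by
    have h1 := mem_ball.1 hjx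
    have := dist_triangle y2 (X.Φ^[j] x) (X.T n v w)
    linarith
  have hpy2 : X.p y2 = sh j σ1 := by rw [hy2, X.pΦn, hpx1]
  have ha2 : agr (max m2 (n + 1)) (X.p y2) A0 := by
    rw [← hpT]
    exact ha3 _ _ (hy2T.trans_le (min_le_right _ _))
  set σ2 := spl (X.p y2) (bb n v) with hσ2
  have hSP2 : SP (X.p y2) σ2 := SP_spl _ _
  set x2 := X.Hu y2 σ2 with hx2
  have hpx2 : X.p x2 = σ2 := X.u.fib _ _ hSP2
  have hagr2 : agr m2 σ2 (bb n v) := by
    intro i hi
    rw [hσ2]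
    unfold spl
    split_ifs with h0
    · rw [ha2 i (hi.trans (by exact_mod_cast le_max_left _ _)), bb_neg h0, A0]
    · rfl
  have hx2e : dist x2 e < d0 := by
    rw [he, ← Hu_T hw]
    exact hu2 y2 _ σ2 _ hSP2 (by rw [hpT]; exact SP_bb.symm) (hy2T.trans_le (min_le_left _ _))
      hagr2
  set x3 := X.Φ.symm^[j] x2 with hx3
  have hx3x1 : dist x3 x1 < d0 := by
    have h1 := hM6 j hjM6 y2 σ2 hSP2
    rwa [hy2, X.symm_iter, ← hy2, ← hx2, ← hx3] at h1
  set z := X.Φ.symm x3 with hz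
  have hzj : X.Φ^[j + 1] z = x2 := by
    rw [Function.iterate_succ_apply, hz, X.Φ.apply_symm_apply, hx3, X.iter_symm]
  have hpz : ∀ i, X.p z i = σ2 (i - 1 - j) := by
    intro i
    rw [hz, X.pΦs, hx3, X.pΦsn, hpx2]
    simp only [sh]
    congr 1
  have hpz1 : ∀ i : ℤ, i ≤ j → X.p z i = σ1 (i - 1) := by
    intro i hi
    rw [hpz, hσ2]
    unfold spl
    rw [if_pos (by omega), hpy2]
    simp only [sh]
    congr 1
    ring
  have hpz2 : ∀ i : ℤ, 1 ≤ i → i ≤ j → X.p z i = k (i - 1) := by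
    intro i hi hi2
    rw [hpz1 i hi2, hσ1]
    unfold spl
    rw [if_neg (by omega)]
  have hpz0 : X.p z 0 = 2 := by
    rw [hpz1 0 (by omega), hσ1]
    unfold spl
    rw [if_pos (by omega)]
    simp [sh, bb]
  refine ⟨z, j, ?_, ?_, hjM, hpz0, ?_⟩
  · have h1 : X.Φ.symm (X.Φ e) = e := X.Φ.symm_apply_apply e
    have h2 := hX.lips x3 (X.Φ e)
    rw [h1, ← hz] at h2
    have h3 := hq0 _ _ hx3x1
    have h4 := dist_triangle (X.q x3) (X.q x1) (X.q (X.Φ e))
    refine h2.trans_lt (mul_lt_mul_of_pos_left ?_ hΛ)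
    linarith
  · rw [hzj]
    exact hq0 _ _ hx2e
  · intro t ht1 ht2 ht3
    have hkt : k ((t : ℤ) - 1) = 2 := by
      rw [← hpz2 t (by omega) (by omega)]
      exact ht3
    -- far from the end
    have hfar : t + n < j := by
      by_contra hcon
      -- index `t - 1 = j + (t - 1 - j)`, `|t - 1 - j| ≤ n + 1`
      have h1 := ha2 ((t : ℤ) - 1 - j) (by
        rw [abs_le]
        have : ((max m2 (n + 1) : ℕ) : ℤ) ≥ (n + 1 : ℕ) := by exact_mod_cast le_max_right _ _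
        push_cast at this ⊢
        constructor <;> omega)
      rw [hpy2] at h1
      simp only [sh] at h1
      rw [show (t : ℤ) - 1 - j + j = t - 1 by ring, hσ1] at h1
      unfold spl at h1
      rw [if_neg (by omega), hkt] at h1
      exact absurd h1 (by simp [A0])
    refine ⟨hfar, ?_⟩
    obtain ⟨-, -, i, hi1, hi2, hi3⟩ := hxK ((t : ℤ) - 1) hkt
    obtain ⟨i', rfl⟩ := Int.eq_ofNat_of_zero_le (show 0 ≤ i by omega)
    refine ⟨i', by omega, ?_⟩
    rw [hpz2 _ (by omega) (by omega), hpz2 _ (by omega) (by omega)]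
    intro hcon
    apply hi3
    have h5 : k ((i' : ℤ) - 1) = v i' := by
      rw [← hk _ (by
        rw [abs_le]
        have : ((max (max m1 m7) (n + 1) : ℕ) : ℤ) ≥ (n + 1 : ℕ) := by
          exact_mod_cast le_max_right _ _
        push_cast at this ⊢
        constructor <;> omega)]
      have := SF_p3 (n := n) (v := v) ((i' : ℤ) - 1) (by omega)
      rw [this]
      simp only [sh]
      rw [sub_add_cancel, bb_mid hi1 hi2]
    rw [← h5, ← hcon]
    congr 1
    ring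

/-- closing from a holonomy loop -/
theorem closing (hX : Cov X F P Λ c₀) (hNW : X.NW) {w : E}
    (hw : X.p w = A0) {z₀ : N} {κ : ℝ} {k : ℕ} (hκ : 0 < κ)
    (hz : dist (X.q (X.R n v w)) z₀ < κ / 2) (hρ : c₀ / (2 * Λ ^ n) < κ)
    {δ : ℝ} (hδ : 0 < δ) (hδ1 : 4 * (Λ * X.C) * δ ≤ κ * (c₀ / (2 * Λ ^ n)) ^ k)
    (hδ2 : 4 * (Λ * X.C) * δ ≤ κ) (M : ℕ) :
    ∃ m : ℕ, X.T n v w ∈ X.Orb (Kset n v) (X.Ub n v w m δ) → MC F z₀ κ k M := by
  have hC1 := X.C1
  have hΛ1 := hX.Λ1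
  have hc := hX.c₀pos
  have hC : 0 < X.C := by linarith
  have hΛ : 0 < Λ := by linarith
  set ρ := c₀ / (2 * Λ ^ n) with hρdef
  have hρ0 : 0 < ρ := by positivity
  have hρk : 0 < κ * ρ ^ k := by positivity
  set η := min (κ * ρ ^ k) κ / (16 * (Λ * X.C)) with hη
  have hΛC : 1 ≤ Λ * X.C := one_le_mul_of_one_le_of_one_le hΛ1 hC1
  have hη0 : 0 < η := by positivity
  have hη1 : 16 * (Λ * X.C) * η = min (κ * ρ ^ k) κ := by
    rw [hη]
    field_simp
  obtain ⟨m, hm⟩ := orbits hX hNW hw (n := n) (v := v) (δ := δ) hη0 M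
  refine ⟨m, fun hT => ?_⟩
  obtain ⟨z, j, h1, h2, h3, h4, h5⟩ := hm hT
  have hb1 : min (κ * ρ ^ k) κ ≤ κ * ρ ^ k := min_le_left _ _
  have hb2 : min (κ * ρ ^ k) κ ≤ κ := min_le_right _ _
  have hbd : Λ * (X.C * (δ + η) + 2 * η) ≤ Λ * X.C * δ + 3 * (Λ * X.C * η) := by
    have : Λ * η ≤ Λ * X.C * η := by
      have h6 : 0 ≤ Λ * η * (X.C - 1) := mul_nonneg (by positivity) (by linarith)
      nlinarith
    nlinarith
  have hηle : η ≤ Λ * X.C * η := le_mul_of_one_le_left hη0.le hΛC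
  have hPj : 1 ≤ P * (j + 1) := Nat.mul_pos hX.P1 (Nat.succ_pos j)
  have hPM : M ≤ P * (j + 1) := (h3.trans (Nat.le_succ j)).trans
    (Nat.le_mul_of_pos_left _ hX.P1)
  refine ⟨X.q z, ρ, P * (j + 1), ?_, hρ0, hρ, ⟨hPj, hPM⟩, ?_, ?_⟩
  · have := dist_triangle (X.q z) (X.q (X.R n v w)) z₀
    nlinarith
  · rw [← qΦn hX]
    have := dist_triangle_right (X.q (X.Φ^[j + 1] z)) (X.q z) (X.q (X.R n v w))
    nlinarith
  · intro i hi1 hi2
    have hPpos : 0 < P := hX.P1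
    have hdm := Nat.div_add_mod i P
    set t := i / P with ht
    set s := i % P with hs
    have hsP : s < P := Nat.mod_lt _ hPpos
    have hΛn : 1 ≤ Λ ^ n := one_le_pow₀ hΛ1
    have hρc : 2 * ρ ≤ c₀ := by
      rw [hρdef]
      have : 2 * (c₀ / (2 * Λ ^ n)) = c₀ / Λ ^ n := by field_simp
      rw [this]
      exact div_le_self hc.le hΛn
    have hFi : F^[i] (X.q z) = F^[s] (X.q (X.Φ^[t] z)) := by
      rw [qΦn hX, ← Function.iterate_add_apply]
      congr 1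
      omega
    rcases Nat.eq_zero_or_pos s with hs0 | hs0
    · rw [hFi, hs0, Function.iterate_zero, id]
      have ht0 : 0 < t := by
        rcases Nat.eq_zero_or_pos t with h | h
        · rw [h, hs0] at hdm
          omega
        · exact h
      have htj : t ≤ j := by
        by_contra hcon
        have : P * (j + 1) ≤ P * t := Nat.mul_le_mul_left P (by omega)
        omega
      have hpt : ∀ a : ℕ, X.p (X.Φ^[a] (X.Φ^[t] z)) 0 = X.p z (t + a) := by
        intro a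
        rw [X.pΦn, X.pΦn]
        simp only [sh]
        congr 1
        ring
      have hpz : ∀ a : ℕ, X.p (X.Φ^[a] z) 0 = X.p z a := by
        intro a
        rw [X.pΦn]
        simp only [sh]
        congr 1
        ring
      by_cases hcase : X.p z t = 2
      · obtain ⟨-, a, ha1, ha2⟩ := h5 t ht0 htj hcase
        have h6 := hX.sep (X.Φ^[a] (X.Φ^[t] z)) (X.Φ^[a] z) (by rw [hpt, hpz]; exact ha2)
        have h7 := lip_n hX a (X.Φ^[t] z) z
        have h8 : Λ ^ a ≤ Λ ^ n := pow_le_pow_right₀ hΛ1 ha1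
        have h9 : c₀ ≤ Λ ^ n * dist (X.q (X.Φ^[t] z)) (X.q z) :=
          h6.trans (h7.trans (mul_le_mul_of_nonneg_right h8 dist_nonneg))
        have h10 : 2 * ρ = c₀ / Λ ^ n := by rw [hρdef]; field_simp
        rw [h10, div_le_iff₀ (by positivity)]
        linarith
      · have h6 := hX.sep (X.Φ^[t] z) z (by
          have := hpt 0
          simp only [Function.iterate_zero, id, Nat.cast_zero, add_zero] at this
          rw [this, h4]
          exact hcase)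
        linarith
    · rw [hFi]
      exact hρc.trans (hX.av z (X.Φ^[t] z) s h4 hs0 hsP)

end Ext

end Pool.Agent.KS6_4.CL
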