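import Pool.Agent.KS6_4.CL.Defs

/-!
# Coding by the full shift near any point of an expansive homeomorphism with shadowing
-/

set_option autoImplicit false

open Filter Set Metric Topology

universe u

namespace Pool.Agent.KS6_4.CL.Code

variable {B : Type u} [MetricSpace B]

theorem it_add (h : B ≃ₜ B) (i j : ℤ) (x : B) : (h ^ (i + j)) x = (h ^ i) ((h ^ j) x) := by
  rw [zpow_add]; rfl

theorem it_one (h : B ≃ₜ B) (x : B) : (h ^ (1 : ℤ)) x = h x := by rw [zpow_one]

theorem it_zero (h : B ≃ₜ B) (x : B) : (h ^ (0 : ℤ)) x = x := by rw [zpow_zero]; rfl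

theorem it_succ (h : B ≃ₜ B) (i : ℤ) (x : B) : h ((h ^ i) x) = (h ^ (i + 1)) x := by
  rw [add_comm, it_add, it_one]

theorem it_nat (h : B ≃ₜ B) (n : ℕ) (x : B) : (h ^ (n : ℤ)) x = h^[n] x := by
  induction n with
  | zero => rw [Nat.cast_zero, it_zero]; rfl
  | succ n ih =>
    rw [Function.iterate_succ_apply', ← ih, it_succ]
    push_cast
    rfl

theorem it_neg_nat (h : B ≃ₜ B) (n : ℕ) (x : B) : (h ^ (-(n : ℤ))) x = h.symm^[n] x := by
  induction n with
  | zero => rw [Nat.cast_zero, neg_zero, it_zero]; rfl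
  | succ n ih =>
    rw [Function.iterate_succ_apply', ← ih]
    apply h.injective
    rw [it_succ, h.apply_symm_apply]
    congr 2
    push_cast
    ring

theorem it_cont (h : B ≃ₜ B) (i : ℤ) : Continuous fun x => (h ^ i) x := (h ^ i).continuous

theorem it_mul_per {h : B ≃ₜ B} {m : ℤ} {p : B} (hp : (h ^ m) p = p) (k : ℤ) :
    (h ^ (m * k)) p = p := by
  have hinv : (h ^ (-m)) p = p := by
    conv_lhs => rw [← hp]
    rw [← it_add, neg_add_cancel, it_zero]
  induction k using Int.induction_on with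
  | zero => rw [mul_zero, it_zero]
  | succ k ih => rw [mul_add, mul_one, it_add, hp, ih]
  | pred k ih => rw [mul_sub, mul_one, sub_eq_add_neg, it_add, hinv, ih]

theorem it_mod {h : B ≃ₜ B} {m : ℤ} {p : B} (hp : (h ^ m) p = p) (i : ℤ) :
    (h ^ i) p = (h ^ (i % m)) p := by
  conv_lhs => rw [← Int.emod_add_mul_ediv i m, it_add, it_mul_per hp]

/-- uniform expansivity -/
theorem exp_unif [CompactSpace B] {h : B ≃ₜ B} {e : ℝ}
    (he : ∀ x y : B, (∀ k : ℤ, dist ((h ^ k) x) ((h ^ k) y) ≤ e) → x = y) {η : ℝ} (hη : 0 < η) :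
    ∃ I : ℕ, ∀ x y : B, (∀ i : ℤ, |i| ≤ I → dist ((h ^ i) x) ((h ^ i) y) ≤ e) → dist x y < η := by
  let K : ℕ → Set (B × B) := fun I => ⋂ i : ℤ, ⋂ _ : |i| ≤ I,
    {a | dist ((h ^ i) a.1) ((h ^ i) a.2) ≤ e}
  have hK : ∀ I, IsClosed (K I) := fun I => isClosed_iInter fun i => isClosed_iInter fun _ =>
    isClosed_le (((it_cont h i).comp continuous_fst).dist ((it_cont h i).comp continuous_snd))
      continuous_const
  have hdir : Directed (· ⊇ ·) K := by
    apply directed_of_isDirected_le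
    intro m n hmn a ha
    simp only [K, mem_iInter] at ha ⊢
    exact fun i hi => ha i (hi.trans (by exact_mod_cast hmn))
  obtain ⟨I, hI⟩ := exists_subset_nhds_of_compactSpace hdir hK
    (U := {a : B × B | dist a.1 a.2 < η}) (by
      intro a ha
      rw [mem_iInter] at ha
      have h1 : a.1 = a.2 := by
        refine he _ _ fun k => ?_
        have h2 := ha k.natAbs
        simp only [K, mem_iInter] at h2
        exact h2 k (by simp)
      refine (isOpen_lt (continuous_fst.dist continuous_snd) continuous_const).mem_nhds ?_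
      show dist a.1 a.2 < η
      rw [h1, dist_self]
      exact hη)
  refine ⟨I, fun x y hxy => hI (show (x, y) ∈ K I from ?_)⟩
  simp only [K, mem_iInter]
  exact hxy

/-- `x` is asymptotic to `p` in both directions. -/
def Asy (h : B ≃ₜ B) (p x : B) : Prop :=
  ∀ ε : ℝ, 0 < ε → ∃ I : ℕ, ∀ i : ℤ, (I : ℤ) ≤ |i| → dist ((h ^ i) x) ((h ^ i) p) < ε

section
variable [CompactSpace B] {h : B ≃ₜ B} {e : ℝ}
  (he : ∀ x y : B, (∀ k : ℤ, dist ((h ^ k) x) ((h ^ k) y) ≤ e) → x = y)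
include he

theorem asy_fwd {x y : B} {a : ℤ} (hxy : ∀ i, a ≤ i → dist ((h ^ i) x) ((h ^ i) y) ≤ e) {η : ℝ}
    (hη : 0 < η) : ∃ J : ℤ, ∀ i, J ≤ i → dist ((h ^ i) x) ((h ^ i) y) < η := by
  obtain ⟨I, hI⟩ := exp_unif he hη
  refine ⟨a + I, fun i hi => hI _ _ fun j hj => ?_⟩
  rw [← it_add, ← it_add]
  exact hxy _ (by have := (abs_le.1 hj).1; omega)

theorem asy_bwd {x y : B} {a : ℤ} (hxy : ∀ i, i ≤ a → dist ((h ^ i) x) ((h ^ i) y) ≤ e) {η : ℝ}
    (hη : 0 < η) : ∃ J : ℤ, ∀ i, i ≤ J → dist ((h ^ i) x) ((h ^ i) y) < η := by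
  obtain ⟨I, hI⟩ := exp_unif he hη
  refine ⟨a - I, fun i hi => hI _ _ fun j hj => ?_⟩
  rw [← it_add, ← it_add]
  exact hxy _ (by have := (abs_le.1 hj).2; omega)

/-- asymptotic points from closeness -/
theorem asy_of {p x : B} {a b : ℤ} (h1 : ∀ i, a ≤ i → dist ((h ^ i) x) ((h ^ i) p) ≤ e)
    (h2 : ∀ i, i ≤ b → dist ((h ^ i) x) ((h ^ i) p) ≤ e) : Asy h p x := by
  intro ε hε
  obtain ⟨J1, hJ1⟩ := asy_fwd he h1 hε
  obtain ⟨J2, hJ2⟩ := asy_bwd he h2 hε
  refine ⟨max J1.natAbs J2.natAbs, fun i hi => ?_⟩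
  push_cast at hi
  rcases le_total 0 i with h0 | h0
  · apply hJ1
    rw [abs_of_nonneg h0] at hi
    have := le_max_left (|J1|) (|J2|)
    have := le_abs_self J1
    omega
  · apply hJ2
    rw [abs_of_nonpos h0] at hi
    have := le_max_right (|J1|) (|J2|)
    have := neg_abs_le J2
    omega

end

/-- gap between a point and a homoclinic orbit -/
theorem gap {h : B ≃ₜ B} {m : ℕ} (hm : 1 ≤ m) {p x y : B} (hp : (h ^ (m : ℤ)) p = p)
    (hy : Asy h p y) (hx : ∀ i : ℤ, (h ^ i) p ≠ x) {S : Set ℤ}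
    (hS : ∀ i ∈ S, (h ^ i) y ≠ x) : ∃ η : ℝ, 0 < η ∧ ∀ i ∈ S, η ≤ dist x ((h ^ i) y) := by
  have hfin : ∀ (s : Set B), s.Finite → x ∉ s → ∃ η : ℝ, 0 < η ∧ ∀ z ∈ s, η ≤ dist x z := by
    intro s hs hxs
    obtain ⟨η, hη, h1⟩ := Metric.isOpen_iff.1 hs.isClosed.isOpen_compl x hxs
    refine ⟨η, hη, fun z hz => ?_⟩
    by_contra hcon
    rw [not_le, dist_comm] at hcon
    exact h1 (mem_ball.2 hcon) hz
  obtain ⟨η1, hη1, h1⟩ := hfin ((fun i : ℤ => (h ^ i) p) '' (Set.Ico 0 (m : ℤ)))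
    ((Set.finite_Ico _ _).image _) (by rintro ⟨i, -, hi⟩; exact hx i hi)
  have h1' : ∀ i : ℤ, η1 ≤ dist x ((h ^ i) p) := by
    intro i
    rw [it_mod hp i]
    refine h1 _ ⟨i % m, ⟨Int.emod_nonneg _ (by omega), Int.emod_lt_of_pos _ (by omega)⟩, rfl⟩
  obtain ⟨I, hI⟩ := hy (η1 / 2) (half_pos hη1)
  obtain ⟨η2, hη2, h2⟩ := hfin ((fun i : ℤ => (h ^ i) y) '' (Set.Ioo (-(I : ℤ)) I ∩ S))
    (((Set.finite_Ioo _ _).subset inter_subset_left).image _)
    (by rintro ⟨i, hi, hi2⟩; exact hS i hi.2 hi2)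
  refine ⟨min (η1 / 2) η2, lt_min (half_pos hη1) hη2, fun i hi => ?_⟩
  rcases le_or_gt (I : ℤ) |i| with h3 | h3
  · have h4 := hI i h3
    have h5 := dist_triangle x ((h ^ i) y) ((h ^ i) p)
    have h6 := h1' i
    have := min_le_left (η1 / 2) η2
    linarith
  · rw [abs_lt] at h3
    exact (min_le_right _ _).trans (h2 _ ⟨i, ⟨⟨h3.1, h3.2⟩, hi⟩, rfl⟩)

/-- a homoclinic point which is not periodic does not come back -/
theorem hom_ne {h : B ≃ₜ B} {m : ℕ} (hm : 1 ≤ m) {p x : B} (hp : (h ^ (m : ℤ)) p = p)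
    (hxA : Asy h p x) (hx : ∀ i : ℤ, (h ^ i) p ≠ x) {i : ℤ} (hi : i ≠ 0) : (h ^ i) x ≠ x := by
  intro hcon
  apply hx 0
  rw [it_zero]
  symm
  rw [← dist_le_zero]
  refine le_of_forall_pos_lt_add fun ε hε => ?_
  obtain ⟨I, hI⟩ := hxA ε hε
  have h1 := hI (i * (m * (I + 1))) (by
    rw [abs_mul]
    have h2 : 1 ≤ |i| := Int.one_le_abs hi
    have h3 : |((m : ℤ) * (I + 1))| = m * (I + 1) := abs_of_nonneg (by positivity)
    rw [h3]
    have h4 : (1 : ℤ) ≤ m := by exact_mod_cast hm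
    calc (I : ℤ) ≤ 1 * (1 * ((I : ℤ) + 1)) := by omega
      _ ≤ |i| * (m * ((I : ℤ) + 1)) := by gcongr)
  rw [it_mul_per hcon, show i * ((m : ℤ) * (I + 1)) = m * (i * (I + 1)) by ring,
    it_mul_per hp] at h1
  rw [zero_add]
  exact h1

/-- the shadowing point of a pseudo-orbit is unique -/
theorem uniq {h : B ≃ₜ B} {e : ℝ}
    (he : ∀ x y : B, (∀ k : ℤ, dist ((h ^ k) x) ((h ^ k) y) ≤ e) → x = y) {ψ : ℤ → B} {ε : ℝ}
    (hε : 2 * ε ≤ e) {x y : B} (hx : ∀ i, dist ((h ^ i) x) (ψ i) ≤ ε)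
    (hy : ∀ i, dist ((h ^ i) y) (ψ i) ≤ ε) : x = y := by
  refine he x y fun k => ?_
  have h1 := hx k
  have h2 := hy k
  have := dist_triangle_right ((h ^ k) x) ((h ^ k) y) (ψ k)
  linarith

theorem mod_succ {m : ℤ} (hm : 0 < m) (i : ℤ) :
    (i % m + 1 = m ∧ (i + 1) % m = 0) ∨ (i % m + 1 < m ∧ (i + 1) % m = i % m + 1) := by
  have h1 := Int.emod_nonneg i hm.ne'
  have h2 := Int.emod_lt_of_pos i hm
  have h3 := Int.emod_add_mul_ediv i m
  have h4 : (i + 1) % m = (i % m + 1) % m := by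
    conv_lhs => rw [show i + 1 = i % m + 1 + m * (i / m) by omega]
    rw [Int.add_mul_emod_self_left]
  rcases eq_or_lt_of_le (show i % m + 1 ≤ m by omega) with h5 | h5
  · left
    refine ⟨h5, ?_⟩
    rw [h4, h5, Int.emod_self]
  · right
    refine ⟨h5, ?_⟩
    rw [h4, Int.emod_eq_of_lt (by omega) h5]

theorem loop_chain {h : B ≃ₜ B} {δ : ℝ} {m : ℕ} (hm : 1 ≤ m) {w : ℕ → B} (hwm : w m = w 0)
    (hw : ∀ i < m, dist (h (w i)) (w (i + 1)) < δ) (i : ℤ) :
    dist (h (w (i % m).toNat)) (w ((i + 1) % m).toNat) < δ := by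
  have hm0 : (0 : ℤ) < m := by omega
  have h1 := Int.emod_nonneg i hm0.ne'
  have h2 := Int.emod_lt_of_pos i hm0
  have h3 := hw (i % m).toNat (by omega)
  rcases mod_succ hm0 i with ⟨h4, h5⟩ | ⟨h4, h5⟩
  · rw [h5]
    have h6 : (i % m).toNat + 1 = m := by omega
    rw [h6, hwm] at h3
    rw [Int.toNat_zero]
    exact h3
  · rw [h5, show (i % m + 1).toNat = (i % m).toNat + 1 by omega]
    exact h3

/-- Step A1: periodic points near `b₀` -/
theorem per_near {h : B ≃ₜ B} {e : ℝ} (he0 : 0 < e)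
    (he : ∀ x y : B, (∀ k : ℤ, dist ((h ^ k) x) ((h ^ k) y) ≤ e) → x = y) (hS : Shadowing h)
    (hC : ChainTrans h) (b₀ : B) {ε : ℝ} (hε : 0 < ε) :
    ∃ (p : B) (m : ℕ), 1 ≤ m ∧ (h ^ (m : ℤ)) p = p ∧ dist p b₀ < ε := by
  obtain ⟨δ, hδ, hsh⟩ := hS (min ε (e / 2)) (lt_min hε (half_pos he0))
  obtain ⟨m, w, hm, hw0, hwm, hw⟩ := hC δ hδ b₀ b₀
  let ψ : ℤ → B := fun i => w (i % m).toNat
  have hm0 : (0 : ℤ) < m := by omega
  have hψ : ∀ i, dist (h (ψ i)) (ψ (i + 1)) < δ := fun i =>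
    loop_chain hm (hwm.trans hw0.symm) hw i
  obtain ⟨p, hp⟩ := hsh ψ hψ
  refine ⟨p, m, hm, ?_, ?_⟩
  · refine uniq he (ψ := ψ) (ε := e / 2) (by linarith) (fun i => ?_) fun i =>
      ((hp i).le.trans (min_le_right _ _))
    rw [← it_add]
    have h1 : ψ i = ψ (i + m) := by simp only [ψ, Int.add_emod_right]
    rw [h1]
    exact (hp (i + m)).le.trans (min_le_right _ _)
  · have h1 := hp 0
    rw [it_zero] at h1
    have h2 : ψ 0 = b₀ := by simp only [ψ, Int.zero_emod, Int.toNat_zero, hw0]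
    rw [h2] at h1
    exact h1.trans_le (min_le_left _ _)

/-- Step A2: homoclinic points -/
theorem hom_exists [CompactSpace B] [Infinite B] {h : B ≃ₜ B} {e : ℝ} (he0 : 0 < e)
    (he : ∀ x y : B, (∀ k : ℤ, dist ((h ^ k) x) ((h ^ k) y) ≤ e) → x = y) (hS : Shadowing h)
    (hC : ChainTrans h) {p : B} {m : ℕ} (hm : 1 ≤ m) (hp : (h ^ (m : ℤ)) p = p) {ε : ℝ}
    (hε : 0 < ε) : ∃ x : B, Asy h p x ∧ (∀ i : ℤ, (h ^ i) p ≠ x) ∧ dist x p < ε := by
  classical
  have hm0 : (0 : ℤ) < m := by omega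
  -- a point outside of the orbit of `p`
  obtain ⟨y₀, hy₀⟩ := Infinite.exists_notMem_finset
    ((Finset.Ico 0 (m : ℤ)).image fun i : ℤ => (h ^ i) p)
  have hy : ∀ i : ℤ, (h ^ i) p ≠ y₀ := by
    intro i hi
    apply hy₀
    rw [Finset.mem_image]
    refine ⟨i % m, ?_, by rw [← it_mod hp i]; exact hi⟩
    rw [Finset.mem_Ico]
    exact ⟨Int.emod_nonneg _ hm0.ne', Int.emod_lt_of_pos _ hm0⟩
  have hpp : Asy h p p := fun ε hε => ⟨0, fun i _ => by rwa [dist_self]⟩
  obtain ⟨η, hη, hgap⟩ := gap hm hp hpp hy (S := univ) (fun i _ => hy i)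
  obtain ⟨δ, hδ, hsh⟩ := hS (min η e) (lt_min hη he0)
  obtain ⟨m1, w1, hm1, hw10, hw1m, hw1⟩ := hC δ hδ p y₀
  obtain ⟨m2, w2, hm2, hw20, hw2m, hw2⟩ := hC δ hδ y₀ p
  -- the loop
  let w : ℕ → B := fun i => if i < m1 then w1 i else w2 (i - m1)
  set m' := m1 + m2 with hm'
  have hw0 : w 0 = p := by simp only [w]; rw [if_pos (by omega), hw10]
  have hwm' : w m' = w 0 := by
    rw [hw0]
    simp only [w]
    rw [if_neg (by omega), show m' - m1 = m2 by omega, hw2m]
  have hwm1 : w m1 = y₀ := by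
    simp only [w]
    rw [if_neg (by omega), Nat.sub_self, hw20]
  have hw : ∀ i < m', dist (h (w i)) (w (i + 1)) < δ := by
    intro i hi
    rcases lt_trichotomy (i + 1) m1 with h1 | h1 | h1
    · simp only [w]
      rw [if_pos (by omega), if_pos h1]
      exact hw1 i (by omega)
    · rw [h1, hwm1]
      simp only [w]
      rw [if_pos (by omega), ← hw1m, ← h1]
      exact hw1 i (by omega)
    · simp only [w]
      rw [if_neg (by omega), if_neg (by omega), show i + 1 - m1 = (i - m1) + 1 by omega]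
      exact hw2 _ (by omega)
  have hm'1 : 1 ≤ m' := by omega
  -- the pseudo-orbit
  let ψ : ℤ → B := fun i => if 0 ≤ i ∧ i < m * m' then w (i % m').toNat else (h ^ i) p
  have hLp : (h ^ ((m : ℤ) * m')) p = p := it_mul_per hp _
  have hLpos : (0 : ℤ) < m * m' := by positivity
  have hψ : ∀ i, dist (h (ψ i)) (ψ (i + 1)) < δ := by
    intro i
    rcases lt_trichotomy i (-1) with h1 | h1 | h1
    · simp only [ψ]
      rw [if_neg (by omega), if_neg (by omega), it_succ, dist_self]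
      exact hδ
    · subst h1
      simp only [ψ]
      rw [if_neg (by omega), if_pos (by constructor <;> omega), it_succ]
      norm_num
      rw [hw0, dist_self]
      exact hδ
    · rcases lt_trichotomy (i + 1) (m * m') with h2 | h2 | h2
      · simp only [ψ]
        rw [if_pos ⟨by omega, by omega⟩, if_pos ⟨by omega, h2⟩]
        exact loop_chain hm'1 hwm' hw i
      · simp only [ψ]
        rw [if_pos ⟨by omega, by omega⟩, if_neg (by omega)]
        have h3 := loop_chain hm'1 hwm' hw i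
        rw [h2, Int.mul_emod_left, Int.toNat_zero, hw0] at h3
        rw [h2, hLp]
        exact h3
      · simp only [ψ]
        rw [if_neg (by omega), if_neg (by omega), it_succ, dist_self]
        exact hδ
  obtain ⟨x₀, hx₀⟩ := hsh ψ hψ
  have hxe : ∀ i, dist ((h ^ i) x₀) (ψ i) ≤ e := fun i => (hx₀ i).le.trans (min_le_right _ _)
  have hasy : Asy h p x₀ := by
    refine asy_of he (a := m * m') (b := -1) (fun i hi => ?_) fun i hi => ?_
    · have := hxe i
      simp only [ψ] at this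
      rwa [if_neg (by omega)] at this
    · have := hxe i
      simp only [ψ] at this
      rwa [if_neg (by omega)] at this
  have hne : ∀ i : ℤ, (h ^ i) p ≠ x₀ := by
    intro i hi
    have h1 := (hx₀ m1).trans_le (min_le_left _ _)
    have h2 : ψ m1 = y₀ := by
      simp only [ψ]
      rw [if_pos]
      · rw [Int.emod_eq_of_lt (by omega) (by omega), Int.toNat_natCast, hwm1]
      · refine ⟨by omega, ?_⟩
        have h3 : (1 : ℤ) ≤ m := by omega
        calc (m1 : ℤ) < m' := by omega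
          _ = 1 * m' := (one_mul _).symm
          _ ≤ m * m' := by gcongr
    rw [h2, ← hi, ← it_add, dist_comm] at h1
    have := hgap (m1 + i) (mem_univ _)
    linarith
  -- move it near `p`
  obtain ⟨I, hI⟩ := hasy ε hε
  refine ⟨(h ^ ((m : ℤ) * I)) x₀, ?_, ?_, ?_⟩
  · intro ε' hε'
    obtain ⟨I', hI'⟩ := hasy ε' hε'
    refine ⟨I' + (m * I), fun i hi => ?_⟩
    have h1 := hI' (i + m * I) (by
      have h2 := abs_sub_abs_le_abs_sub i (-(m * I : ℤ))
      rw [abs_neg, sub_neg_eq_add] at h2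
      have h3 : |(m : ℤ) * I| = m * I := abs_of_nonneg (by positivity)
      rw [h3] at h2
      push_cast at hi
      omega)
    rw [it_add, it_add, it_mul_per hp] at h1
    exact h1
  · intro i hi
    apply hne (-(m * I) + i)
    rw [it_add, hi, ← it_add, neg_add_cancel, it_zero]
  · have h1 := hI (m * I) (by
      rw [abs_of_nonneg (by positivity)]
      have h3 : (1 : ℤ) ≤ m := by omega
      calc (I : ℤ) = 1 * I := (one_mul _).symm
        _ ≤ m * I := by gcongr)
    rwa [it_mul_per hp] at h1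

/-- Step A3: a second homoclinic orbit -/
theorem hom_second [CompactSpace B] {h : B ≃ₜ B} {e : ℝ} (he0 : 0 < e)
    (he : ∀ x y : B, (∀ k : ℤ, dist ((h ^ k) x) ((h ^ k) y) ≤ e) → x = y) (hS : Shadowing h)
    {p x : B} {m : ℕ} (hm : 1 ≤ m) (hp : (h ^ (m : ℤ)) p = p) (hx : Asy h p x)
    (hxp : ∀ i : ℤ, (h ^ i) p ≠ x) :
    ∃ y : B, Asy h p y ∧ (∀ i : ℤ, (h ^ i) p ≠ y) ∧ ∀ i : ℤ, (h ^ i) y ≠ x := by
  have hm0 : (0 : ℤ) < m := by omega
  obtain ⟨η1, hη1, hg1⟩ := gap hm hp hx hxp (S := {i | i ≠ 0})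
    (fun i hi => hom_ne hm hp hx hxp hi)
  have hpp : Asy h p p := fun ε hε => ⟨0, fun i _ => by rwa [dist_self]⟩
  obtain ⟨η2, hη2, hg2⟩ := gap hm hp hpp hxp (S := univ) (fun i _ => hxp i)
  set ε := min e (min η1 η2) with hε
  have hε0 : 0 < ε := lt_min he0 (lt_min hη1 hη2)
  obtain ⟨δ, hδ, hsh⟩ := hS ε hε0
  obtain ⟨I, hI⟩ := hx (δ / 2) (half_pos hδ)
  set M : ℤ := m * (I + 1) with hM
  have hMI : (I : ℤ) + 1 ≤ M := by
    have h3 : (1 : ℤ) ≤ m := by omega
    calc (I : ℤ) + 1 = 1 * (I + 1) := (one_mul _).symm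
      _ ≤ m * (I + 1) := by gcongr
  have hMp : (h ^ M) p = p := it_mul_per hp _
  have hMp' : (h ^ (-M)) p = p := by
    rw [hM, ← mul_neg]; exact it_mul_per hp _
  have h2Mp : (h ^ (2 * M)) p = p := by
    rw [hM, show 2 * ((m : ℤ) * (I + 1)) = m * (2 * (I + 1)) by ring]; exact it_mul_per hp _
  let ψ : ℤ → B := fun i => if i < M then (h ^ i) x else (h ^ (i - 2 * M)) x
  have hψ : ∀ i, dist (h (ψ i)) (ψ (i + 1)) < δ := by
    intro i
    rcases lt_trichotomy (i + 1) M with h1 | h1 | h1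
    · simp only [ψ]
      rw [if_pos (by omega), if_pos h1, it_succ, dist_self]
      exact hδ
    · simp only [ψ]
      rw [if_pos (by omega), if_neg (by omega), it_succ, h1]
      have h2 := hI M (by rw [abs_of_nonneg (by omega)]; omega)
      have h3 := hI (-M) (by rw [abs_neg, abs_of_nonneg (by omega)]; omega)
      rw [hMp] at h2
      rw [hMp'] at h3
      rw [show M - 2 * M = -M by ring]
      have := dist_triangle_right ((h ^ M) x) ((h ^ (-M)) x) p
      linarith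
    · simp only [ψ]
      rw [if_neg (by omega), if_neg (by omega), it_succ,
        show i - 2 * M + 1 = i + 1 - 2 * M by ring, dist_self]
      exact hδ
  obtain ⟨y, hy⟩ := hsh ψ hψ
  have hye : ∀ i, dist ((h ^ i) y) (ψ i) ≤ e := fun i => (hy i).le.trans (min_le_left _ _)
  have hψ0 : ψ 0 = x := by
    simp only [ψ]
    rw [if_pos (by omega), it_zero]
  have hψ2 : ψ (2 * M) = x := by
    simp only [ψ]
    rw [if_neg (by omega), sub_self, it_zero]
  refine ⟨y, ?_, ?_, ?_⟩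
  · intro ε' hε'
    obtain ⟨J1, hJ1⟩ := asy_fwd he (x := y) (y := (h ^ (-(2 * M))) x) (a := M) (fun i hi => by
      have := hye i
      simp only [ψ] at this
      rw [if_neg (by omega)] at this
      rwa [← it_add, ← sub_eq_add_neg]) (half_pos hε')
    obtain ⟨J2, hJ2⟩ := asy_bwd he (x := y) (y := x) (a := M - 1) (fun i hi => by
      have := hye i
      simp only [ψ] at this
      rwa [if_pos (by omega)] at this) (half_pos hε')
    obtain ⟨J3, hJ3⟩ := hx (ε' / 2) (half_pos hε')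
    refine ⟨max (max J1.natAbs J2.natAbs) (J3 + (2 * M).natAbs), fun i hi => ?_⟩
    push_cast at hi
    have g1 := le_max_left (max |J1| |J2|) ((J3 : ℤ) + |2 * M|)
    have g2 := le_max_right (max |J1| |J2|) ((J3 : ℤ) + |2 * M|)
    have g3 := le_max_left |J1| |J2|
    have g4 := le_max_right |J1| |J2|
    have g5 : |2 * M| = 2 * M := abs_of_nonneg (by omega)
    rcases le_total 0 i with h0 | h0
    · rw [abs_of_nonneg h0] at hi
      have k1 := hJ1 i (by have := le_abs_self J1; omega)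
      have k2 := hJ3 (i + -(2 * M)) (by rw [abs_of_nonneg (by omega)]; omega)
      rw [← it_add] at k1
      have k3 : (h ^ (i + -(2 * M))) p = (h ^ i) p := by
        conv_rhs => rw [show i = i + -(2 * M) + 2 * M by ring, it_add, h2Mp]
      rw [k3] at k2
      have := dist_triangle ((h ^ i) y) ((h ^ (i + -(2 * M))) x) ((h ^ i) p)
      linarith
    · rw [abs_of_nonpos h0] at hi
      have k1 := hJ2 i (by have := neg_abs_le J2; omega)
      have k2 := hJ3 i (by rw [abs_of_nonpos h0]; omega)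
      have := dist_triangle ((h ^ i) y) ((h ^ i) x) ((h ^ i) p)
      linarith
  · intro i hi
    have h1 := (hy 0).trans_le ((min_le_right _ _).trans (min_le_right _ _))
    rw [it_zero, hψ0, ← hi, dist_comm] at h1
    have := hg2 i (mem_univ _)
    linarith
  · intro i hi
    -- `y = h^(-i) x`
    have hyx : y = (h ^ (-i)) x := by rw [← hi, ← it_add, neg_add_cancel, it_zero]
    have h1 := (hy 0).trans_le ((min_le_right _ _).trans (min_le_left _ _))
    have h2 := (hy (2 * M)).trans_le ((min_le_right _ _).trans (min_le_left _ _))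
    rw [it_zero, hψ0, hyx, dist_comm] at h1
    rw [hψ2, hyx, ← it_add, dist_comm] at h2
    by_cases hi0 : -i = 0
    · have := hg1 (2 * M + -i) (show 2 * M + -i ≠ 0 by omega)
      linarith
    · have := hg1 (-i) hi0
      linarith

end Pool.Agent.KS6_4.CL.Code
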