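import Pool.Agent.KS6_4.CL.Sat2

/-!
# The subshift in which the symbol `2` occurs only in given contexts
-/

set_option autoImplicit false

open Filter Set Metric Topology

universe u v

namespace Pool.Agent.KS6_4.CL

theorem agr_mem_nhds (m : ℕ) (σ : Seq) : {τ | agr m σ τ} ∈ 𝓝 σ := by
  have h1 : ∀ i : ℤ, {τ : Seq | σ i = τ i} ∈ 𝓝 σ := by
    intro i
    have hc : Continuous fun τ : Seq => τ i := continuous_apply i
    have : {τ : Seq | σ i = τ i} = (fun τ : Seq => τ i) ⁻¹' {σ i} := by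
      ext τ; simp [eq_comm]
    rw [this]
    exact ((isOpen_discrete _).preimage hc).mem_nhds rfl
  have h2 : (⋂ i ∈ Set.Icc (-(m : ℤ)) m, {τ : Seq | σ i = τ i}) ∈ 𝓝 σ :=
    (biInter_mem (Set.finite_Icc _ _)).2 fun i _ => h1 i
  filter_upwards [h2] with τ hτ i hi
  rw [abs_le] at hi
  have h3 := mem_iInter₂.1 hτ i ⟨hi.1, hi.2⟩
  exact h3

theorem isClosed_of_local {S : Set Seq} (h : ∀ σ, σ ∉ S → ∃ m, ∀ τ, agr m σ τ → τ ∉ S) :
    IsClosed S := by
  rw [← isOpen_compl_iff, isOpen_iff_mem_nhds]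
  intro σ hσ
  obtain ⟨m, hm⟩ := h σ hσ
  filter_upwards [agr_mem_nhds m σ] with τ hτ
  exact hm τ hτ

/-- the condition on the context of a symbol `2` at the place `i` -/
def Good (n : ℕ) (v : ℤ → Fin 3) (σ : Seq) (i : ℤ) : Prop :=
  σ i = 2 → (∀ j : ℤ, 1 ≤ j → j ≤ n → σ (i - j) = 0) ∧ (∀ j : ℤ, 1 ≤ j → j ≤ n → σ (i + j) ≠ 2) ∧
    ∃ j : ℤ, 1 ≤ j ∧ j ≤ n ∧ σ (i + j) ≠ v j

/-- the symbols `2` occur in the contexts `0ⁿ 2 w`, `w ∈ {0, 1}ⁿ` different from `v` -/
def Kset (n : ℕ) (v : ℤ → Fin 3) : Set Seq := {σ | ∀ i, Good n v σ i}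

variable {n : ℕ} {v : ℤ → Fin 3}

theorem Good.congr {σ τ : Seq} {i i' : ℤ} (h : ∀ j : ℤ, -n ≤ j → j ≤ n → σ (i + j) = τ (i' + j))
    (hg : Good n v σ i) : Good n v τ i' := by
  intro h2
  have h0 : σ i = τ i' := by simpa using h 0 (by omega) (by omega)
  obtain ⟨h3, h4, j, hj1, hj2, hj3⟩ := hg (h0.trans h2)
  refine ⟨fun j hj1 hj2 => ?_, fun j hj1 hj2 => ?_, j, hj1, hj2, ?_⟩
  · have := h (-j) (by omega) (by omega)
    rw [← sub_eq_add_neg, ← sub_eq_add_neg] at this
    rw [← this]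
    exact h3 j hj1 hj2
  · rw [← h j (by omega) hj2]
    exact h4 j hj1 hj2
  · rw [← h j (by omega) hj2]
    exact hj3

theorem Kset_closed : IsClosed (Kset n v) := by
  apply isClosed_of_local
  intro σ hσ
  simp only [Kset, Set.mem_ofPred_eq, not_forall] at hσ
  obtain ⟨i, hi⟩ := hσ
  refine ⟨i.natAbs + n, fun τ hτ hτK => hi ?_⟩
  refine Good.congr (fun j hj1 hj2 => ?_) (hτK i)
  refine (hτ (i + j) ?_).symm
  push_cast
  exact (abs_add_le i j).trans (by
    have : |j| ≤ n := abs_le.2 ⟨hj1, hj2⟩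
    omega)

theorem Kset_inv (σ : Seq) : σ ∈ Kset n v ↔ sh 1 σ ∈ Kset n v := by
  constructor
  · intro h i
    refine Good.congr (fun j _ _ => ?_) (h (i + 1))
    simp only [sh]
    congr 1
    ring
  · intro h i
    refine Good.congr (fun j _ _ => ?_) (h (i - 1))
    simp only [sh]
    congr 1
    ring

theorem Kset_splF {σ τ : Seq} (hσ : σ ∈ Kset n v) (hτ : τ ∈ Kset n v)
    (h : ∀ i : ℤ, 0 ≤ i → i ≤ (2 * n : ℕ) → σ i = τ i) : spl σ τ ∈ Kset n v := by
  intro i
  rcases le_total i n with hi | hi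
  · refine Good.congr (fun j hj1 hj2 => ?_) (hσ i)
    unfold spl
    split_ifs with h0
    · rfl
    · exact h _ (by omega) (by push_cast; omega)
  · refine Good.congr (fun j hj1 hj2 => ?_) (hτ i)
    unfold spl
    rw [if_neg (by omega)]

theorem Kset_splP {σ τ : Seq} (hσ : σ ∈ Kset n v) (hτ : τ ∈ Kset n v)
    (h : ∀ i : ℤ, -(2 * n : ℕ) ≤ i → i < 0 → σ i = τ i) : spl σ τ ∈ Kset n v := by
  intro i
  rcases le_or_gt (-n : ℤ) i with hi | hi
  · refine Good.congr (fun j hj1 hj2 => ?_) (hτ i)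
    unfold spl
    split_ifs with h0
    · exact (h _ (by push_cast; omega) h0).symm
    · rfl
  · refine Good.congr (fun j hj1 hj2 => ?_) (hσ i)
    unfold spl
    rw [if_pos (by omega)]

theorem Kset_per {σ : Seq} (hσ : σ ∈ Kset n v) (m : ℕ) :
    ∃ τ ∈ Kset n v, ∃ k : ℕ, 1 ≤ k ∧ sh k τ = τ ∧ agr m σ τ := by
  classical
  let W : ℤ → Fin 3 := fun i => if |i| ≤ m then σ i else if |i| ≤ m + n ∧ σ i ≠ 2 then σ i else 0
  let M : ℤ := m + 2 * n
  let L : ℕ := 2 * (m + 2 * n) + 1
  have hL : (L : ℤ) = 2 * M + 1 := by simp only [L, M]; push_cast; ring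
  have hLpos : (0 : ℤ) < L := by simp only [L]; positivity
  let r : ℤ → ℤ := fun i => (i + M) % L - M
  have hr1 : ∀ i, -M ≤ r i ∧ r i ≤ M := by
    intro i
    have h1 := Int.emod_nonneg (i + M) hLpos.ne'
    have h2 := Int.emod_lt_of_pos (i + M) hLpos
    simp only [r]
    constructor <;> omega
  have hr2 : ∀ i j : ℤ, -M ≤ r i + j → r i + j ≤ M → r (i + j) = r i + j := by
    intro i j h1 h2
    simp only [r] at h1 h2 ⊢
    have h3 : (i + j + M) % L = ((i + M) % L + j) % L := by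
      rw [show i + j + M = (i + M) + j by ring, Int.add_emod, Int.add_emod ((i + M) % L) j,
        Int.emod_emod]
    rw [h3, Int.emod_eq_of_lt (a := (i + M) % L + j) (by omega) (by omega)]
    ring
  have hr3 : ∀ i, -M ≤ i → i ≤ M → r i = i := by
    intro i h1 h2
    simp only [r]
    rw [Int.emod_eq_of_lt (by omega) (by omega)]
    ring
  refine ⟨fun i => W (r i), ?_, L, by omega, ?_, ?_⟩
  · intro i h2
    have h3 : |r i| ≤ m ∧ σ (r i) = 2 := by
      by_cases h : |r i| ≤ m
      · refine ⟨h, ?_⟩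
        simpa only [W, if_pos h] using h2
      · exfalso
        simp only [W, if_neg h] at h2
        split_ifs at h2 with h4
        · exact h4.2 h2
        · exact absurd h2 (by decide)
    obtain ⟨g1, g2, -⟩ := hσ (r i) h3.2
    have hwin : ∀ j : ℤ, -n ≤ j → j ≤ n → σ (r i + j) = W (r (i + j)) := by
      intro j hj1 hj2
      have h4 := abs_le.1 h3.1
      rw [hr2 i j (by simp only [M]; omega) (by simp only [M]; omega)]
      simp only [W]
      split_ifs with h5 h6
      · rfl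
      · rfl
      · exfalso
        apply h6
        refine ⟨?_, ?_⟩
        · rw [abs_le]
          constructor <;> omega
        · rcases lt_trichotomy j 0 with hj | hj | hj
          · have := g1 (-j) (by omega) (by omega)
            rw [sub_neg_eq_add] at this
            rw [this]
            decide
          · subst hj
            exfalso
            apply h5
            rw [add_zero]
            exact h3.1
          · exact g2 j (by omega) hj2
    exact Good.congr (τ := fun i => W (r i)) (i' := i) hwin (hσ (r i)) h2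
  · funext i
    simp only [sh, r]
    rw [show i + (L : ℤ) + M = i + M + L by ring, Int.add_emod_right]
  · intro i hi
    have h4 := abs_le.1 hi
    show σ i = W (r i)
    rw [hr3 i (by simp only [M]; omega) (by simp only [M]; omega)]
    simp only [W, if_pos hi]

theorem Kset_adm (n : ℕ) (v : ℤ → Fin 3) : Adm (Kset n v) where
  closed := Kset_closed
  inv := Kset_inv
  splF := ⟨2 * n, fun _ hσ _ hτ h => Kset_splF hσ hτ h⟩
  splP := ⟨2 * n, fun _ hσ _ hτ h => Kset_splP hσ hτ h⟩
  per := fun _ hσ m => Kset_per hσ m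

end Pool.Agent.KS6_4.CL
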