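import Pool.Agent.KS6_4.CL.Code
import Pool.Agent.KS6_4.CL.Kset

/-!
# Coding by the full shift: the coding map
-/

set_option autoImplicit false

open Filter Set Metric Topology

universe u

namespace Pool.Agent.KS6_4.CL.Code

theorem code : S_CODE.{u} := by
  classical
  intro B _ _ _ h ⟨e, he0, he⟩ hS hC b₀ ε hε
  -- the points
  obtain ⟨p, m, hm, hp, hpb⟩ := per_near he0 he hS hC b₀ (show 0 < ε / 3 by positivity)
  obtain ⟨x, hx, hxp, hxp2⟩ := hom_exists he0 he hS hC hm hp (show 0 < ε / 3 by positivity)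
  obtain ⟨y, hy, hyp, hyx⟩ := hom_second he0 he hS hm hp hx hxp
  have hpp : Asy h p p := fun ε hε => ⟨0, fun i _ => by rwa [dist_self]⟩
  obtain ⟨g1, hg1, hgap1⟩ := gap hm hp hx hxp (S := {i | i ≠ 0})
    (fun i hi => hom_ne hm hp hx hxp hi)
  obtain ⟨g2, hg2, hgap2⟩ := gap hm hp hpp hxp (S := univ) (fun i _ => hxp i)
  obtain ⟨g3, hg3, hgap3⟩ := gap hm hp hy hxp (S := univ) (fun i _ => hyx i)
  obtain ⟨g4, hg4, hgap4⟩ := gap hm hp hpp hyp (S := univ) (fun i _ => hyp i)
  -- the scale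
  obtain ⟨ε4, hε4, q1, q2, q3, q4, q5, q6⟩ : ∃ ε4 : ℝ, 0 < ε4 ∧ 3 * ε4 ≤ g1 ∧ 3 * ε4 ≤ g2 ∧
      3 * ε4 ≤ g3 ∧ 3 * ε4 ≤ g4 ∧ 3 * ε4 ≤ e ∧ 3 * ε4 ≤ ε := by
    refine ⟨min (min (min g1 g2) (min g3 g4)) (min e ε) / 3, by positivity, ?_, ?_, ?_, ?_, ?_, ?_⟩
    all_goals rw [mul_div_cancel₀ _ (by norm_num : (3 : ℝ) ≠ 0)]
    · exact (min_le_left _ _).trans ((min_le_left _ _).trans (min_le_left _ _))
    · exact (min_le_left _ _).trans ((min_le_left _ _).trans (min_le_right _ _))
    · exact (min_le_left _ _).trans ((min_le_right _ _).trans (min_le_left _ _))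
    · exact (min_le_left _ _).trans ((min_le_right _ _).trans (min_le_right _ _))
    · exact (min_le_right _ _).trans (min_le_left _ _)
    · exact (min_le_right _ _).trans (min_le_right _ _)
  obtain ⟨δ', hδ', hsh'⟩ := hS ε4 hε4
  obtain ⟨δ, hδ, hδε, hsh⟩ : ∃ δ : ℝ, 0 < δ ∧ δ ≤ ε4 ∧ ∀ ψ : ℤ → B,
      (∀ i, dist (h (ψ i)) (ψ (i + 1)) < δ) → ∃ x : B, ∀ i : ℤ, dist ((h ^ i) x) (ψ i) < ε4 :=
    ⟨min δ' ε4, lt_min hδ' hε4, min_le_right _ _, fun ψ hψ =>
      hsh' ψ fun i => (hψ i).trans_le (min_le_left _ _)⟩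
  obtain ⟨I1, hI1⟩ := hx (δ / 2) (half_pos hδ)
  obtain ⟨I2, hI2⟩ := hy (δ / 2) (half_pos hδ)
  set M : ℕ := m * (I1 + I2 + 1) with hM
  have hMI : I1 + I2 + 1 ≤ M := Nat.le_mul_of_pos_left _ hm
  have hMp : (h ^ (M : ℤ)) p = p := by
    rw [hM]; push_cast; exact it_mul_per hp _
  have hMp' : (h ^ (-(M : ℤ))) p = p := by
    rw [hM]; push_cast; rw [← mul_neg]; exact it_mul_per hp _
  -- the blocks
  let a : Fin 3 → B := ![p, y, x]
  have ha0 : a 0 = p := rfl
  have ha1 : a 1 = y := rfl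
  have ha2 : a 2 = x := rfl
  have haM : ∀ s, dist ((h ^ (M : ℤ)) (a s)) p < δ / 2 := by
    intro s
    fin_cases s
    · show dist ((h ^ (M : ℤ)) p) p < δ / 2
      rw [hMp, dist_self]; exact half_pos hδ
    · have h1 := hI2 M (by rw [abs_of_nonneg (by omega)]; omega)
      rw [hMp] at h1
      exact h1
    · have h1 := hI1 M (by rw [abs_of_nonneg (by omega)]; omega)
      rw [hMp] at h1
      exact h1
  have haM' : ∀ s, dist ((h ^ (-(M : ℤ))) (a s)) p < δ / 2 := by
    intro s
    fin_cases s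
    · show dist ((h ^ (-(M : ℤ))) p) p < δ / 2
      rw [hMp', dist_self]; exact half_pos hδ
    · have h1 := hI2 (-M) (by rw [abs_neg, abs_of_nonneg (by omega)]; omega)
      rw [hMp'] at h1
      exact h1
    · have h1 := hI1 (-M) (by rw [abs_neg, abs_of_nonneg (by omega)]; omega)
      rw [hMp'] at h1
      exact h1
  -- separation of the blocks
  have hax : ∀ (s : Fin 3) (j : ℤ), (s ≠ 2 ∨ j ≠ 0) → 3 * ε4 ≤ dist x ((h ^ j) (a s)) := by
    intro s j hsj
    fin_cases s
    · exact q2.trans (hgap2 j (mem_univ _))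
    · exact q3.trans (hgap3 j (mem_univ _))
    · exact q1.trans (hgap1 j (hsj.resolve_left (by simp)))
  have haa : ∀ s t : Fin 3, s ≠ t → 3 * ε4 ≤ dist (a s) (a t) := by
    have k1 : 3 * ε4 ≤ dist x p := by
      have := q2.trans (hgap2 0 (mem_univ _)); rwa [it_zero] at this
    have k2 : 3 * ε4 ≤ dist x y := by
      have := q3.trans (hgap3 0 (mem_univ _)); rwa [it_zero] at this
    have k3 : 3 * ε4 ≤ dist y p := by
      have := q4.trans (hgap4 0 (mem_univ _)); rwa [it_zero] at this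
    intro s t hst
    fin_cases s <;> fin_cases t
    · exact absurd rfl hst
    · show 3 * ε4 ≤ dist p y
      rw [dist_comm]; exact k3
    · show 3 * ε4 ≤ dist p x
      rw [dist_comm]; exact k1
    · exact k3
    · exact absurd rfl hst
    · show 3 * ε4 ≤ dist y x
      rw [dist_comm]; exact k2
    · exact k1
    · exact k2
    · exact absurd rfl hst
  set P : ℕ := 2 * M with hP
  have hP0 : (0 : ℤ) < P := by omega
  let ψ : Seq → ℤ → B := fun σ i => (h ^ (i % P - M)) (a (σ (i / P)))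
  have hψ : ∀ σ i, dist (h (ψ σ i)) (ψ σ (i + 1)) < δ := by
    intro σ i
    have h3 := Int.emod_add_mul_ediv i P
    have h4 := Int.emod_add_mul_ediv (i + 1) P
    simp only [ψ]
    rcases mod_succ hP0 i with ⟨h1, h2⟩ | ⟨h1, h2⟩
    · rw [it_succ, h2, show i % (P : ℤ) - M + 1 = M by omega, zero_sub]
      have k1 := haM (σ (i / P))
      have k2 := haM' (σ ((i + 1) / P))
      have := dist_triangle_right ((h ^ (M : ℤ)) (a (σ (i / P))))
        ((h ^ (-(M : ℤ))) (a (σ ((i + 1) / P)))) p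
      linarith
    · have h5 : (i + 1) / P = i / P := by
        rw [h2] at h4
        have h6 : (P : ℤ) * ((i + 1) / P) = P * (i / P) := by omega
        exact mul_left_cancel₀ hP0.ne' h6
      rw [it_succ, h2, h5, show i % (P : ℤ) - M + 1 = i % P + 1 - M by ring, dist_self]
      exact hδ
  choose c hc using fun σ => hsh (ψ σ) (hψ σ)
  have hdiv : ∀ i : ℤ, 0 ≤ i → 0 ≤ i / P := fun i hi => Int.ediv_nonneg hi hP0.le
  have hcc : ∀ σ τ (i : ℤ), σ (i / P) = τ (i / P) →
      dist ((h ^ i) (c σ)) ((h ^ i) (c τ)) ≤ 2 * ε4 := by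
    intro σ τ i hi
    have h1 := hc σ i
    have h2 := hc τ i
    have h3 : ψ σ i = ψ τ i := by simp only [ψ, hi]
    rw [← h3] at h2
    have := dist_triangle_right ((h ^ i) (c σ)) ((h ^ i) (c τ)) (ψ σ i)
    linarith
  have hmid : ∀ σ, dist ((h ^ (M : ℤ)) (c σ)) (a (σ 0)) < ε4 := by
    intro σ
    have h1 := hc σ M
    simp only [ψ] at h1
    rwa [Int.emod_eq_of_lt (by omega) (by omega), sub_self, it_zero,
      Int.ediv_eq_zero_of_lt (by omega) (by omega)] at h1
  refine ⟨P, M, c, by omega, ?_, ?_, ?_, ?_, ?_, ?_, ?_⟩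
  · -- continuity
    rw [continuous_iff_continuousAt]
    intro σ
    rw [ContinuousAt, Metric.tendsto_nhds]
    intro η hη
    obtain ⟨I, hI⟩ := exp_unif he hη
    filter_upwards [agr_mem_nhds I σ] with τ hτ
    refine hI _ _ fun i hi => (hcc τ σ i (hτ _ ?_).symm).trans (by linarith)
    rw [abs_le] at hi ⊢
    constructor
    · rw [Int.le_ediv_iff_mul_le hP0]
      have : (1 : ℤ) ≤ P := by omega
      nlinarith
    · have h1 : i / P ≤ (I : ℤ) := by
        rcases le_total 0 i with h0 | h0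
        · exact (Int.ediv_le_self _ h0).trans hi.2
        · exact (Int.ediv_nonpos_of_nonpos_of_neg h0 hP0).trans (by omega)
      exact h1
  · -- equivariance
    intro σ
    rw [← it_nat]
    refine uniq he (ψ := ψ (sh 1 σ)) (ε := ε4) (by linarith) (fun i => (hc _ i).le) fun i => ?_
    rw [← it_add]
    have h1 : ψ (sh 1 σ) i = ψ σ (i + P) := by
      simp only [ψ, sh, Int.add_emod_right]
      rw [Int.add_ediv_of_dvd_right (dvd_refl _), Int.ediv_self hP0.ne']
    rw [h1]
    exact (hc σ (i + P)).le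
  · -- equal futures
    intro σ τ hst n
    rw [← it_nat, ← it_nat]
    exact (hcc σ τ n (hst _ (hdiv _ (by omega)))).trans (by linarith)
  · -- equal pasts
    intro σ τ hst n
    rw [← it_neg_nat, ← it_neg_nat]
    rcases Nat.eq_zero_or_pos n with h0 | h0
    · subst h0
      rw [Nat.cast_zero, neg_zero, it_zero, it_zero]
      have k : ∀ σ, dist (c σ) p < ε4 + δ / 2 := by
        intro σ
        have h1 := hc σ 0
        simp only [ψ] at h1
        rw [it_zero, Int.zero_emod, zero_sub] at h1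
        have h2 := haM' (σ (0 / P))
        have := dist_triangle (c σ) ((h ^ (-(M : ℤ))) (a (σ (0 / P)))) p
        linarith
      have k1 := k σ
      have k2 := k τ
      have := dist_triangle_right (c σ) (c τ) p
      linarith
    · refine (hcc σ τ (-n) (hst _ ?_)).trans (by linarith)
      exact Int.ediv_neg_of_neg_of_pos (by omega) hP0
  · -- near `b₀`
    intro σ hσ
    rw [← it_nat]
    have h1 := hmid σ
    rw [hσ, ha2] at h1
    have h2 := dist_triangle ((h ^ (M : ℤ)) (c σ)) x b₀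
    have h3 := dist_triangle x p b₀
    linarith
  · -- different symbols
    intro σ τ hst heq
    have h1 := hmid σ
    have h2 := hmid τ
    rw [heq] at h1
    have h3 := haa _ _ hst
    have := dist_triangle_left (a (σ 0)) (a (τ 0)) ((h ^ (M : ℤ)) (c τ))
    linarith
  · -- the marker
    intro σ τ i hi1 hi2 hσ heq
    have h1 := hmid σ
    rw [hσ, ha2, heq, ← it_nat, ← it_add] at h1
    have h2 := hc τ (M + i)
    simp only [ψ] at h2
    have hj : ((M : ℤ) + i) % P - M ≠ 0 := by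
      intro h3
      rcases lt_or_ge ((M : ℤ) + i) P with h4 | h4
      · rw [Int.emod_eq_of_lt (by omega) h4] at h3
        omega
      · have h5 : ((M : ℤ) + i) % P = M + i - P := by
          rw [show (M : ℤ) + i = (M + i - P) + P by ring, Int.add_emod_right,
            Int.emod_eq_of_lt (by omega) (by omega)]
          ring
        omega
    have h3 := hax (τ (((M : ℤ) + i) / P)) _ (Or.inr hj)
    have := dist_triangle_left x ((h ^ (((M : ℤ) + i) % P - M)) (a (τ (((M : ℤ) + i) / P))))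
      ((h ^ ((M : ℤ) + i)) (c τ))
    linarith

end Pool.Agent.KS6_4.CL.Code
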