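import Pool.Agent.KS6_4.CL.Main
import Pool.Graph.R_seed8.W564.SC.Lib
import Pool.Graph.R_pool_sql_team_seeded_63374d34.N813.EM.BIL
import Pool.Graph.R_pool_sql_team_seeded_63374d34.N813.EM.FIN

/-!
# The metric closing criterion
-/

set_option autoImplicit false

open scoped Manifold ContDiff Topology
open Filter Set Metric

universe u

namespace Pool.Agent.KS6_4.CL

open Pool.Agent.H718R2.G Pool.Agent.W564.SC Pool.Agent.Y368.CL

theorem fam_const {n : ℕ} {N : Type u} [TopologicalSpace N] [ChartedSpace (V n) N] {r : ℕ∞}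
    (F : DiffM n N r) : IsFam n N r (fun _ : ℝ => F) := by
  intro y
  exact ContMDiffAt.comp ((0 : ℝ), y) (F.contMDiff.contMDiffAt (x := y)) contMDiffAt_snd

/-- closing from metric closing -/
theorem closable_of_MC {n : ℕ} {N : Type u} [MetricSpace N] [CompactSpace N]
    [ChartedSpace (V n) N] [IsManifold (𝓡 n) ∞ N] (hN : ChartLip n N) {r : ℕ∞} (hr : 1 ≤ r)
    (F : DiffM n N r) (z : N) (h : ∀ (κ : ℝ) (k : ℕ), 0 < κ → MC F z κ k 0) :
    Closable n N r F z := by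
  intro U hU hFU
  obtain ⟨χ, hχ⟩ := Pool.Agent.W699.SC.gc n N z
  obtain ⟨k, hkr, κ, hκ, hcl⟩ := t_CL n N r hr ℝ (fun _ => F) (fam_const F) χ z hχ U hU hFU
  obtain ⟨L₀, hL₀, hLip₀⟩ := hN χ z hχ
  -- a larger constant
  obtain ⟨L, hL1, hLip⟩ : ∃ L : ℝ, 1 ≤ L ∧ ∀ y ∈ χ.source, ∀ y' ∈ χ.source, ‖χ y‖ ≤ 1 / 2 →
      ‖χ y'‖ ≤ 1 / 2 → ‖χ y - χ y'‖ ≤ L * dist y y' ∧ dist y y' ≤ L * ‖χ y - χ y'‖ := by
    refine ⟨max L₀ 1, le_max_right _ _, fun y hy y' hy' h1 h2 => ?_⟩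
    obtain ⟨e1, e2⟩ := hLip₀ y hy y' hy' h1 h2
    exact ⟨e2.trans (mul_le_mul_of_nonneg_right (le_max_left _ _) dist_nonneg),
      e1.trans (mul_le_mul_of_nonneg_right (le_max_left _ _) (norm_nonneg _))⟩
  have hL : 0 < L := by linarith
  obtain ⟨δ, hδ, hclose⟩ := unif_close hχ
  -- neighbourhood of `z`
  have hnb : ∀ᶠ y in 𝓝 z, y ∈ χ.source ∧ ‖χ y‖ < min κ (1 / 4) := by
    have h5 : χ.source ∈ 𝓝 z := χ.open_source.mem_nhds hχ.src
    have h6 : Tendsto χ (𝓝 z) (𝓝 0) := by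
      have := (χ.continuousAt hχ.src).tendsto
      rwa [hχ.zero] at this
    have h7 : ∀ᶠ y in 𝓝 z, ‖χ y‖ < min κ (1 / 4) := by
      have h8 := h6.norm
      rw [norm_zero] at h8
      exact h8.eventually (gt_mem_nhds (lt_min hκ (by norm_num)))
    exact (show ∀ᶠ y in 𝓝 z, y ∈ χ.source from h5).and h7
  obtain ⟨ε, hε, hball⟩ := Metric.mem_nhds_iff.1 hnb
  set κ' := min (min ε δ) (min (κ / (L * L ^ k)) (min κ (1 / 8))) with hκ'
  have hκ'0 : 0 < κ' := by positivity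
  have b1 : κ' ≤ ε := (min_le_left _ _).trans (min_le_left _ _)
  have b2 : κ' ≤ δ := (min_le_left _ _).trans (min_le_right _ _)
  have b3 : κ' ≤ κ / (L * L ^ k) := (min_le_right _ _).trans (min_le_left _ _)
  have b4 : κ' ≤ κ := (min_le_right _ _).trans ((min_le_right _ _).trans (min_le_left _ _))
  have b5 : κ' ≤ 1 / 8 := (min_le_right _ _).trans ((min_le_right _ _).trans (min_le_right _ _))
  obtain ⟨z', ρ, m, h1, h2, h3, ⟨h4, -⟩, h5, h6⟩ := h κ' k hκ'0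
  obtain ⟨hz's, hz'n⟩ := hball (mem_ball.2 (h1.trans_le b1))
  have hz'4 : ‖χ z'‖ < 1 / 4 := hz'n.trans_le (min_le_right _ _)
  have hρ1 : ρ ≤ 1 := by linarith
  have hρk : ρ ^ k ≤ 1 := pow_le_one₀ h2.le hρ1
  have hd : dist (F^[m] z') z' < δ := by
    refine h5.trans_le (le_trans ?_ b2)
    nlinarith
  obtain ⟨hFs, hFn⟩ := hclose z' hz's hz'4.le (F^[m] z') (by rwa [dist_comm])
  refine hcl 0 z' (ρ / L) m (by rw [norm_zero]; exact hκ) hz's (hz'n.trans_le (min_le_left _ _))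
    (by positivity) ?_ h4 hFs ?_ ?_
  · have : ρ / L ≤ ρ := div_le_self h2.le hL1
    linarith
  · have e1 := (hLip _ hFs _ hz's hFn.le (by linarith)).1
    refine e1.trans_lt ?_
    calc L * dist (F^[m] z') z' < L * (κ' * ρ ^ k) := mul_lt_mul_of_pos_left h5 hL
      _ ≤ L * (κ / (L * L ^ k) * ρ ^ k) := by
          refine mul_le_mul_of_nonneg_left ?_ hL.le
          exact mul_le_mul_of_nonneg_right b3 (by positivity)
      _ = κ * (ρ / L) ^ k := by
          rw [div_pow]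
          field_simp
  · intro i hi1 hi2 his
    have e1 := h6 i hi1 hi2
    have e4 : ρ / L ≤ ρ := div_le_self h2.le hL1
    rcases le_or_gt ‖χ (F^[i] z')‖ (1 / 2) with h7 | h7
    · have e2 := (hLip _ his _ hz's h7 (by linarith)).2
      have e3 : 2 * ρ ≤ L * ‖χ (F^[i] z') - χ z'‖ := e1.trans e2
      rw [← mul_div_assoc, div_le_iff₀ hL]
      linarith
    · have e2 := norm_sub_norm_le (χ (F^[i] z')) (χ z')
      have : ρ / L < 1 / 8 := by linarith
      have e5 : (1 : ℝ) / 2 - 1 / 4 ≤ ‖χ (F^[i] z') - χ z'‖ := by linarith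
      linarith

/-- the closing criterion passes to limits -/
theorem MC_of_near {N : Type u} [MetricSpace N] {F : N → N} {z : N}
    (h : ∀ (κ : ℝ) (k M : ℕ), 0 < κ → ∃ z₁, dist z₁ z < κ ∧ MC F z₁ κ k M) (κ : ℝ) (k M : ℕ)
    (hκ : 0 < κ) : MC F z κ k M := by
  obtain ⟨z₁, h1, z', ρ, m, h2, h3, h4, h5, h6, h7⟩ := h (κ / 2) k M (half_pos hκ)
  refine ⟨z', ρ, m, ?_, h3, by linarith, h5, h6.trans_le ?_, h7⟩
  · have := dist_triangle z' z₁ z
    linarith
  · exact mul_le_mul_of_nonneg_right (by linarith) (by positivity)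

end Pool.Agent.KS6_4.CL
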