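import Mathlib

/-!
# Extensions of expansive homeomorphisms with the shadowing property: definitions
-/

set_option autoImplicit false

open Filter Set Metric Topology

universe u

namespace Pool.Agent.KS6_4.CL

/-- `h` is expansive. -/
def Expansive {B : Type u} [MetricSpace B] (h : B ≃ₜ B) : Prop :=
  ∃ e : ℝ, 0 < e ∧ ∀ x y : B, (∀ k : ℤ, dist ((h ^ k) x) ((h ^ k) y) ≤ e) → x = y

/-- The shadowing property: every two-sided `δ`-pseudo-orbit is `ε`-shadowed by an orbit. -/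
def Shadowing {B : Type u} [MetricSpace B] (h : B ≃ₜ B) : Prop :=
  ∀ ε : ℝ, 0 < ε → ∃ δ : ℝ, 0 < δ ∧ ∀ ψ : ℤ → B, (∀ i, dist (h (ψ i)) (ψ (i + 1)) < δ) →
    ∃ x : B, ∀ i : ℤ, dist ((h ^ i) x) (ψ i) < ε

/-- Chain transitivity: any two points are joined by `δ`-pseudo-orbits, for every `δ`. -/
def ChainTrans {B : Type u} [MetricSpace B] (h : B ≃ₜ B) : Prop :=
  ∀ δ : ℝ, 0 < δ → ∀ x y : B, ∃ (m : ℕ) (w : ℕ → B), 1 ≤ m ∧ w 0 = x ∧ w m = y ∧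
    ∀ i < m, dist (h (w i)) (w (i + 1)) < δ

/-- Two-sided sequences of three symbols. -/
abbrev Seq := ℤ → Fin 3

/-- The shift (by `k` places). -/
def sh (k : ℤ) (σ : Seq) : Seq := fun i => σ (i + k)

/-- CODE: near every point `b₀` there is the image of the full shift on three symbols. -/
def S_CODE : Prop :=
  ∀ (B : Type u) [MetricSpace B] [CompactSpace B] [Infinite B] (h : B ≃ₜ B),
    Expansive h → Shadowing h → ChainTrans h → ∀ (b₀ : B) (ε : ℝ), 0 < ε →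
    ∃ (P T : ℕ) (c : Seq → B), T < P ∧ Continuous c ∧ (∀ σ, c (sh 1 σ) = h^[P] (c σ)) ∧
      (∀ σ τ : Seq, (∀ i : ℤ, 0 ≤ i → σ i = τ i) →
        ∀ n : ℕ, dist (h^[n] (c σ)) (h^[n] (c τ)) ≤ ε) ∧
      (∀ σ τ : Seq, (∀ i : ℤ, i < 0 → σ i = τ i) →
        ∀ n : ℕ, dist (h.symm^[n] (c σ)) (h.symm^[n] (c τ)) ≤ ε) ∧
      (∀ σ : Seq, σ 0 = 2 → dist (h^[T] (c σ)) b₀ < ε) ∧
      (∀ σ τ : Seq, σ 0 ≠ τ 0 → c σ ≠ c τ) ∧
      (∀ (σ τ : Seq) (i : ℕ), 0 < i → i < P → σ 0 = 2 → c σ ≠ h^[i] (c τ))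

end Pool.Agent.KS6_4.CL
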