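import Pool.Agent.KS6_4.CL.Defs

/-!
# Extensions of the full shift with holonomies: definitions and uniform continuity
-/

set_option autoImplicit false

open Filter Set Metric Topology

universe u v

namespace Pool.Agent.KS6_4.CL

/-- same future -/
def SF (σ τ : Seq) : Prop := ∀ i : ℤ, 0 ≤ i → σ i = τ i

/-- same past -/
def SP (σ τ : Seq) : Prop := ∀ i : ℤ, i < 0 → σ i = τ i

/-- `σ` and `τ` agree on `[-m, m]`. -/
def agr (m : ℕ) (σ τ : Seq) : Prop := ∀ i : ℤ, |i| ≤ m → σ i = τ i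

/-- the past of `σ` and the future of `τ` -/
def spl (σ τ : Seq) : Seq := fun i => if i < 0 then σ i else τ i

theorem SF.symm {σ τ : Seq} (h : SF σ τ) : SF τ σ := fun i hi => (h i hi).symm
theorem SP.symm {σ τ : Seq} (h : SP σ τ) : SP τ σ := fun i hi => (h i hi).symm
theorem SF.trans {σ τ ρ : Seq} (h : SF σ τ) (h' : SF τ ρ) : SF σ ρ :=
  fun i hi => (h i hi).trans (h' i hi)
theorem SP.trans {σ τ ρ : Seq} (h : SP σ τ) (h' : SP τ ρ) : SP σ ρ :=
  fun i hi => (h i hi).trans (h' i hi)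
theorem SF.refl (σ : Seq) : SF σ σ := fun _ _ => rfl
theorem SP.refl (σ : Seq) : SP σ σ := fun _ _ => rfl

theorem agr.symm {m : ℕ} {σ τ : Seq} (h : agr m σ τ) : agr m τ σ := fun i hi => (h i hi).symm
theorem agr.trans {m : ℕ} {σ τ ρ : Seq} (h : agr m σ τ) (h' : agr m τ ρ) : agr m σ ρ :=
  fun i hi => (h i hi).trans (h' i hi)
theorem agr.refl (m : ℕ) (σ : Seq) : agr m σ σ := fun _ _ => rfl
theorem agr.mono {m n : ℕ} {σ τ : Seq} (h : agr n σ τ) (hmn : m ≤ n) : agr m σ τ :=
  fun i hi => h i (hi.trans (by exact_mod_cast hmn))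

theorem SP_spl (σ τ : Seq) : SP σ (spl σ τ) := fun i hi => by simp [spl, hi]
theorem SF_spl (σ τ : Seq) : SF τ (spl σ τ) := fun i hi => by simp [spl, not_lt.2 hi]

theorem isClosed_eqAt (i : ℤ) : IsClosed {a : Seq × Seq | a.1 i = a.2 i} :=
  isClosed_eq ((continuous_apply i).comp continuous_fst) ((continuous_apply i).comp continuous_snd)

theorem isClosed_SF : IsClosed {a : Seq × Seq | SF a.1 a.2} := by
  have : {a : Seq × Seq | SF a.1 a.2} = ⋂ i : ℤ, ⋂ _ : 0 ≤ i, {a : Seq × Seq | a.1 i = a.2 i} := by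
    ext a; simp [SF]
  rw [this]
  exact isClosed_iInter fun i => isClosed_iInter fun _ => isClosed_eqAt i

theorem isClosed_SP : IsClosed {a : Seq × Seq | SP a.1 a.2} := by
  have : {a : Seq × Seq | SP a.1 a.2} = ⋂ i : ℤ, ⋂ _ : i < 0, {a : Seq × Seq | a.1 i = a.2 i} := by
    ext a; simp [SP]
  rw [this]
  exact isClosed_iInter fun i => isClosed_iInter fun _ => isClosed_eqAt i

theorem isClosed_agr (m : ℕ) : IsClosed {a : Seq × Seq | agr m a.1 a.2} := by
  have : {a : Seq × Seq | agr m a.1 a.2} =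
      ⋂ i : ℤ, ⋂ _ : |i| ≤ m, {a : Seq × Seq | a.1 i = a.2 i} := by
    ext a; simp [agr]
  rw [this]
  exact isClosed_iInter fun i => isClosed_iInter fun _ => isClosed_eqAt i

theorem eq_of_agr {σ τ : Seq} (h : ∀ m, agr m σ τ) : σ = τ := by
  funext i
  exact h i.natAbs i (by simp)

/-- Holonomies along the relation `R`. -/
structure Hol {E : Type u} {N : Type v} [MetricSpace E] [MetricSpace N] (p : E → Seq) (q : E → N)
    (R : Seq → Seq → Prop) (H : E → Seq → E) (C : ℝ) : Prop where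
  fib : ∀ x τ, R (p x) τ → p (H x τ) = τ
  id' : ∀ x, H x (p x) = x
  symm' : ∀ x τ, R (p x) τ → H (H x τ) (p x) = x
  cont : ContinuousOn (fun a : E × Seq => H a.1 a.2) {a | R (p a.1) a.2}
  lip : ∀ x y τ, p x = p y → R (p x) τ → dist (q (H x τ)) (q (H y τ)) ≤ C * dist (q x) (q y)

/-- An extension of the full shift with holonomies, with a map `q` to `N` which is injective on the
fibres. -/
structure Ext (E : Type u) [MetricSpace E] (N : Type v) [MetricSpace N] where
  Φ : E ≃ₜ E
  p : E → Seq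
  q : E → N
  Hs : E → Seq → E
  Hu : E → Seq → E
  C : ℝ
  C1 : 1 ≤ C
  hp : Continuous p
  hq : Continuous q
  inj : ∀ x y, p x = p y → q x = q y → x = y
  pΦ : ∀ x, p (Φ x) = sh 1 (p x)
  s : Hol p q SF Hs C
  u : Hol p q SP Hu C
  s_eq : ∀ x τ, SF (p x) τ → Φ (Hs x τ) = Hs (Φ x) (sh 1 τ)
  u_eq : ∀ x τ, SP (p x) τ → Φ.symm (Hu x τ) = Hu (Φ.symm x) (sh (-1) τ)

section
variable {E : Type u} {N : Type v} [MetricSpace E] [CompactSpace E] [MetricSpace N]

/-- points which are close in `E` have sequences which agree on a long interval -/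
theorem agr_of_close {p : E → Seq} (hp : Continuous p) (m : ℕ) :
    ∃ η : ℝ, 0 < η ∧ ∀ x y, dist x y < η → agr m (p x) (p y) := by
  have h1 : ∀ i : ℤ, ∃ η : ℝ, 0 < η ∧ ∀ x y, dist x y < η → p x i = p y i := by
    intro i
    have hc : Continuous fun x => ((p x i : Fin 3) : ℕ) := by
      have h2 : Continuous fun x => p x i := (continuous_apply i).comp hp
      exact (continuous_of_discreteTopology (f := fun a : Fin 3 => (a : ℕ))).comp h2
    have hu : UniformContinuous fun x => (((p x i : Fin 3) : ℕ) : ℝ) :=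
      CompactSpace.uniformContinuous_of_continuous (continuous_of_discreteTopology.comp hc)
    obtain ⟨η, hη, h⟩ := Metric.uniformContinuous_iff.1 hu 1 one_pos
    refine ⟨η, hη, fun x y hxy => ?_⟩
    have h3 := h hxy
    rw [Real.dist_eq] at h3
    have h4 : |(((p x i : Fin 3) : ℕ) : ℤ) - (((p y i : Fin 3) : ℕ) : ℤ)| < 1 := by
      exact_mod_cast h3
    rw [Int.abs_lt_one_iff, sub_eq_zero] at h4
    exact Fin.ext (by exact_mod_cast h4)
  choose η hη h using h1
  have hfin : (Set.Icc (-(m : ℤ)) m).Finite := Set.finite_Icc _ _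
  obtain ⟨δ, hδ, hδ2⟩ : ∃ δ : ℝ, 0 < δ ∧ ∀ i ∈ Set.Icc (-(m : ℤ)) m, δ ≤ η i := by
    have hne : (Set.Icc (-(m : ℤ)) m).Nonempty := ⟨0, by simp⟩
    obtain ⟨i, -, hi⟩ := hfin.exists_minimalFor η _ hne
    obtain ⟨j, hj, hj2⟩ := Set.exists_min_image _ η hfin hne
    exact ⟨η j, hη j, fun i hi => hj2 i hi⟩
  refine ⟨δ, hδ, fun x y hxy i hi => h i x y (hxy.trans_le (hδ2 i ?_))⟩
  rw [abs_le] at hi
  exact ⟨hi.1, hi.2⟩

/-- points whose sequences agree on a long interval and which are close in `N` are close -/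
theorem close_of_agr {p : E → Seq} {q : E → N} (hp : Continuous p) (hq : Continuous q)
    (inj : ∀ x y, p x = p y → q x = q y → x = y) {η : ℝ} (hη : 0 < η) :
    ∃ (m : ℕ) (δ : ℝ), 0 < δ ∧ ∀ x y, agr m (p x) (p y) → dist (q x) (q y) < δ → dist x y < η := by
  let K : ℕ → Set (E × E) := fun m =>
    {a | agr m (p a.1) (p a.2)} ∩ {a | dist (q a.1) (q a.2) ≤ 1 / (m + 1)}
  have hK : ∀ m, IsClosed (K m) := fun m =>
    ((isClosed_agr m).preimage ((hp.comp continuous_fst).prodMk (hp.comp continuous_snd))).inter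
      (isClosed_le ((hq.comp continuous_fst).dist (hq.comp continuous_snd)) continuous_const)
  have hdir : Directed (· ⊇ ·) K := by
    apply directed_of_isDirected_le
    intro m n hmn a ha
    have h1 : dist (q a.1) (q a.2) ≤ 1 / (n + 1) := ha.2
    have h2 : (1 : ℝ) / (n + 1) ≤ 1 / (m + 1) := by
      have : (m : ℝ) ≤ n := by exact_mod_cast hmn
      apply one_div_le_one_div_of_le (by positivity)
      linarith
    exact ⟨ha.1.mono hmn, h1.trans h2⟩
  obtain ⟨m, hm⟩ := exists_subset_nhds_of_compactSpace hdir hK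
    (U := {a : E × E | dist a.1 a.2 < η}) (by
      intro a ha
      rw [mem_iInter] at ha
      have h1 : p a.1 = p a.2 := eq_of_agr fun m => (ha m).1
      have h2 : q a.1 = q a.2 := by
        rw [← dist_le_zero]
        refine le_of_forall_pos_lt_add fun ε hε => ?_
        obtain ⟨k, hk⟩ := exists_nat_one_div_lt hε
        rw [zero_add]
        exact (ha k).2.trans_lt hk
      have h3 : a.1 = a.2 := inj _ _ h1 h2
      refine (isOpen_lt (continuous_fst.dist continuous_snd) continuous_const).mem_nhds ?_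
      show dist a.1 a.2 < η
      rw [h3, dist_self]
      exact hη)
  refine ⟨m, 1 / (m + 1), by positivity, fun x y h1 h2 => hm (show (x, y) ∈ K m from ⟨h1, h2.le⟩)⟩

/-- uniform continuity of the holonomies -/
theorem hol_unif {p : E → Seq} {q : E → N} (hp : Continuous p) {R : Seq → Seq → Prop}
    (hR : IsClosed {a : Seq × Seq | R a.1 a.2}) {H : E → Seq → E} {C : ℝ} (hH : Hol p q R H C)
    {η : ℝ} (hη : 0 < η) :
    ∃ (m : ℕ) (δ : ℝ), 0 < δ ∧ ∀ x y τ τ', R (p x) τ → R (p y) τ' → dist x y < δ → agr m τ τ' →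
      dist (H x τ) (H y τ') < η := by
  let D : Set (E × Seq) := {a | R (p a.1) a.2}
  have hD : IsClosed D := hR.preimage ((hp.comp continuous_fst).prodMk continuous_snd)
  let K : ℕ → Set ((E × Seq) × (E × Seq)) := fun m =>
    ({a | a.1 ∈ D} ∩ {a | a.2 ∈ D}) ∩ ({a | agr m a.1.2 a.2.2} ∩
      {a | dist a.1.1 a.2.1 ≤ 1 / (m + 1)})
  have hK : ∀ m, IsClosed (K m) := fun m =>
    ((hD.preimage continuous_fst).inter (hD.preimage continuous_snd)).inter
      (((isClosed_agr m).preimage ((continuous_snd.comp continuous_fst).prodMk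
        (continuous_snd.comp continuous_snd))).inter
      (isClosed_le ((continuous_fst.comp continuous_fst).dist
        (continuous_fst.comp continuous_snd)) continuous_const))
  have hdir : Directed (· ⊇ ·) K := by
    apply directed_of_isDirected_le
    intro m n hmn a ha
    have h1 : dist a.1.1 a.2.1 ≤ 1 / (n + 1) := ha.2.2
    have h2 : (1 : ℝ) / (n + 1) ≤ 1 / (m + 1) := by
      have : (m : ℝ) ≤ n := by exact_mod_cast hmn
      apply one_div_le_one_div_of_le (by positivity)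
      linarith
    exact ⟨ha.1, ha.2.1.mono hmn, h1.trans h2⟩
  obtain ⟨m, hm⟩ := exists_subset_nhds_of_compactSpace hdir hK
    (U := {a : (E × Seq) × (E × Seq) | a.1 ∈ D → a.2 ∈ D →
      dist (H a.1.1 a.1.2) (H a.2.1 a.2.2) < η}) (by
      rintro ⟨⟨x, τ⟩, ⟨y, τ'⟩⟩ ha
      rw [mem_iInter] at ha
      have h1 : τ = τ' := eq_of_agr fun m => (ha m).2.1
      have h2 : x = y := by
        rw [← dist_le_zero]
        refine le_of_forall_pos_lt_add fun ε hε => ?_
        obtain ⟨k, hk⟩ := exists_nat_one_div_lt hε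
        rw [zero_add]
        exact (ha k).2.2.trans_lt hk
      subst h1 h2
      have hd : (x, τ) ∈ D := (ha 0).1.1
      have hc := hH.cont (x, τ) hd
      have h3 : ∀ᶠ b in 𝓝 (x, τ), b ∈ D → dist (H b.1 b.2) (H x τ) < η / 2 := by
        have := (Metric.tendsto_nhds.1 hc) (η / 2) (half_pos hη)
        exact eventually_nhdsWithin_iff.1 this
      rw [nhds_prod_eq]
      filter_upwards [h3.prod_mk h3] with b hb hb1 hb2
      have e1 := hb.1 hb1
      have e2 := hb.2 hb2
      have e3 := dist_triangle_right (H b.1.1 b.1.2) (H b.2.1 b.2.2) (H x τ)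
      linarith)
  exact ⟨m, 1 / (m + 1), by positivity, fun x y τ τ' h1 h2 h3 h4 =>
    hm (show ((x, τ), (y, τ')) ∈ K m from ⟨⟨h1, h2⟩, h4, h3.le⟩) h1 h2⟩

end

end Pool.Agent.KS6_4.CL
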