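import Pool.Agent.KS6_4.CL.Pull
import Pool.Agent.KS6_4.CL.Crit

/-!
# Closing at all points of extensions with Lipschitz holonomies
-/

set_option autoImplicit false

open scoped Manifold ContDiff Topology
open Filter Set Metric

universe u v

namespace Pool.Agent.KS6_4.CL

open Pool.Agent.H718R2.G Pool.Agent.W564.SC Pool.Agent.Y368.CL

theorem Near.mono {B : Type v} [MetricSpace B] {h : B → B} {ε ε' : ℝ} {b b' : B}
    (hb : Near h ε b b') (hε : ε ≤ ε') : Near h ε' b b' := fun n => (hb n).trans hε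

section
variable {N : Type u} {B : Type v} [MetricSpace N] [MetricSpace B] [CompactSpace N]
  {F : N ≃ₜ N} {h : B ≃ₜ B} {Λ : Set N} {π : N → B}

theorem Bunched.compactSpace (hB : Bunched F h Λ π) : CompactSpace B := by
  refine ⟨?_⟩
  have h1 : (univ : Set B) = π '' Λ := by
    ext b
    simp only [mem_univ, true_iff]
    obtain ⟨x, hx, hxb⟩ := hB.onto b
    exact ⟨x, hx, hxb⟩
  rw [h1]
  exact hB.closed.isCompact.image_of_continuousOn hB.cont

/-- points of nearby fibres -/
theorem near_fibre (hB : Bunched F h Λ π) {εs Cs : ℝ} {Hs : N → B → N} (hεs : 0 < εs)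
    (hs : Holonomy F h Λ π εs Cs Hs) {εu Cu : ℝ} {Hu : N → B → N} (hεu : 0 < εu)
    (hu : Holonomy F.symm h.symm Λ π εu Cu Hu) {z : N} (hz : z ∈ Λ) {η : ℝ} (hη : 0 < η) :
    ∃ δ : ℝ, 0 < δ ∧ ∀ b : B, dist b (π z) < δ → ∃ x ∈ Λ, π x = b ∧ dist x z < η := by
  have c1 := hs.cont (z, π z) ⟨hz, fun n => by rw [dist_self]; exact hεs.le⟩
  have h1 := (Metric.tendsto_nhds.1 c1) η hη
  rw [eventually_nhdsWithin_iff] at h1
  obtain ⟨r1, hr1, hr1'⟩ := Metric.mem_nhds_iff.1 h1
  have c2 := hu.cont (z, π z) ⟨hz, fun n => by rw [dist_self]; exact hεu.le⟩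
  have h2 := (Metric.tendsto_nhds.1 c2) r1 hr1
  rw [eventually_nhdsWithin_iff] at h2
  obtain ⟨r2, hr2, hr2'⟩ := Metric.mem_nhds_iff.1 h2
  obtain ⟨δ, hδ, hbr⟩ := bracket hB.shadow (lt_min (lt_min hεs hεu) hr2)
  refine ⟨min δ r1, lt_min hδ hr1, fun b hb => ?_⟩
  obtain ⟨c, hc1, hc2, hc3⟩ := hbr (π z) b (by rw [dist_comm]; exact hb.trans_le (min_le_left _ _))
  have hcu : Near h.symm εu (π z) c :=
    hc1.mono ((min_le_left _ _).trans (min_le_right _ _))
  have hcs : Near h εs c b := hc2.mono ((min_le_left _ _).trans (min_le_left _ _))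
  have hfu := hu.fib z hz c hcu
  have hfs := hs.fib (Hu z c) hfu.1 b (by rw [hfu.2]; exact hcs)
  refine ⟨Hs (Hu z c) b, hfs.1, hfs.2, ?_⟩
  have e1 : dist (Hu z c) z < r1 := by
    have : dist (Hu z c) (Hu z (π z)) < r1 := hr2' (show (z, c) ∈ ball (z, π z) r2 by
      rw [mem_ball, Prod.dist_eq, dist_self]
      exact max_lt hr2 (hc3.trans_le (min_le_right _ _))) ⟨hz, hcu⟩
    rwa [hu.refl z hz] at this
  have e2 : dist (Hs (Hu z c) b) (Hs z (π z)) < η := hr1' (show (Hu z c, b) ∈ ball (z, π z) r1 by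
      rw [mem_ball, Prod.dist_eq]
      exact max_lt e1 (hb.trans_le (min_le_right _ _))) ⟨hfu.1, by
        show Near h εs (π (Hu z c)) b
        rw [hfu.2]; exact hcs⟩
  rwa [hs.refl z hz] at e2

/-- metric closing at all points of `Λ` -/
theorem MC_bunched (hB : Bunched F h Λ π) {A : ℝ} {D : ℕ} (hD : FD N A D) {L : ℝ} (hL : 1 ≤ L)
    (hL1 : ∀ x y, dist (F x) (F y) ≤ L * dist x y)
    (hL2 : ∀ x y, dist (F.symm x) (F.symm y) ≤ L * dist x y) {z : N} (hz : z ∈ Λ) (κ : ℝ)
    (k M : ℕ) (hκ : 0 < κ) : MC F z κ k M := by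
  revert κ k M
  refine MC_of_near fun κ k M hκ => ?_
  obtain ⟨εs, Cs, Hs, hεs, hs⟩ := hB.stable
  obtain ⟨εu, Cu, Hu, hεu, hu⟩ := hB.unstable
  have : CompactSpace B := hB.compactSpace
  have : Infinite B := hB.infinite
  obtain ⟨δ, hδ, hnear⟩ := near_fibre hB hεs hs hεu hu hz hκ
  obtain ⟨P, T, c, hTP, hcc, hcP, hcs, hcu, hcb, hc01, hcav⟩ := Code.code B h hB.exp hB.shadow
    (chain_of_trans hB.trans) (π z) (min (min εs εu) δ) (lt_min (lt_min hεs hεu) hδ)
  have hcs' : ∀ σ τ : Seq, (∀ i : ℤ, 0 ≤ i → σ i = τ i) → Near h εs (c σ) (c τ) :=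
    fun σ τ hst n => (hcs σ τ hst n).trans ((min_le_left _ _).trans (min_le_left _ _))
  have hcu' : ∀ σ τ : Seq, (∀ i : ℤ, i < 0 → σ i = τ i) → Near h.symm εu (c σ) (c τ) :=
    fun σ τ hst n => (hcu σ τ hst n).trans ((min_le_left _ _).trans (min_le_right _ _))
  obtain ⟨X, hXp, hXq, hXΦ, hXΦs⟩ := pull hB hs hu (P := P) (T := T) hcc hcP hcs' hcu' hL hL1 hL2
  have hcomp : CompactSpace (EE Λ π c) := compact_EE hB.closed hB.cont hcc
  have hinv : ∀ x ∈ Λ, F x ∈ Λ := fun x hx => (hB.inv x).1 hx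
  have hΦn : ∀ (n : ℕ) (a : EE Λ π c), (X.Φ^[n] a).1.2 = F^[P * n] a.1.2 := by
    intro n a
    induction n with
    | zero => simp
    | succ n ih =>
      rw [Function.iterate_succ_apply', hXΦ]
      show F^[P] (X.Φ^[n] a).1.2 = _
      rw [ih, ← Function.iterate_add_apply]
      congr 1
      ring_nf
  -- nonwandering fibres
  have hNW : X.NW := by
    intro τ n hn hτ x hx W hW
    have hcτ : h^[P * n] (c τ) = c τ := by
      have h1 : ∀ m : ℕ, c (sh m τ) = h^[P * m] (c τ) := by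
        intro m
        induction m with
        | zero => simp [sh_zero]
        | succ m ih =>
          have h2 := hcP (sh m τ)
          rw [sh_sh] at h2
          rw [show ((m + 1 : ℕ) : ℤ) = 1 + m by push_cast; ring, h2, ih,
            ← Function.iterate_add_apply]
          congr 1
          ring_nf
      rw [← h1 n, hτ]
    rw [hXp] at hx
    have hxπ : π x.1.2 = c τ := by rw [x.2.2, hx]
    -- the inclusion of the fibre
    let j : {y : N // y ∈ Λ ∧ π y = c τ} → EE Λ π c := fun y => ⟨(τ, y.1), y.2⟩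
    have hj : Continuous j := cont_mk (continuous_const.prodMk continuous_subtype_val)
    have hjx : j ⟨x.1.2, x.2.1, hxπ⟩ = x := by
      apply Subtype.ext
      exact Prod.ext hx.symm rfl
    have hW2 : j ⁻¹' W ∈ 𝓝 (⟨x.1.2, x.2.1, hxπ⟩ : {y : N // y ∈ Λ ∧ π y = c τ}) := by
      apply hj.continuousAt.preimage_mem_nhds
      rw [hjx]
      exact hW
    rw [nhds_subtype_eq_comap, mem_comap] at hW2
    obtain ⟨W', hW', hsub⟩ := hW2
    obtain ⟨m, hm, y, hy, hyπ, hyW, hyW2⟩ := hB.nonwand (c τ) (P * n)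
      (Nat.mul_pos (by omega) hn) hcτ x.1.2 x.2.1 hxπ W' hW'
    refine ⟨m, hm, j ⟨y, hy, hyπ⟩, hsub hyW, by rw [hXp], ?_⟩
    have e1 : F^[P * n * m] y ∈ Λ := iter_mem hinv hy _
    have e2 : π (F^[P * n * m] y) = c τ := by
      rw [iter_pi hinv hB.semi hy, hyπ]
      have : ∀ m : ℕ, h^[P * n * m] (c τ) = c τ := by
        intro m
        induction m with
        | zero => simp
        | succ m ih => rw [Nat.mul_succ, Function.iterate_add_apply, hcτ, ih]
      exact this m
    have e3 : X.Φ^[n * m] (j ⟨y, hy, hyπ⟩) = j ⟨F^[P * n * m] y, e1, e2⟩ := by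
      apply Subtype.ext
      apply Prod.ext
      · have h1 := X.pΦn (n * m) (j ⟨y, hy, hyπ⟩)
        rw [hXp, hXp] at h1
        rw [h1]
        show sh ((n * m : ℕ) : ℤ) τ = τ
        have : ∀ m : ℕ, sh ((n * m : ℕ) : ℤ) τ = τ := by
          intro m
          induction m with
          | zero => simp [sh_zero]
          | succ m ih =>
            rw [show ((n * (m + 1) : ℕ) : ℤ) = n + (n * m : ℕ) by push_cast; ring, ← sh_sh, ih, hτ]
        exact this m
      · rw [hΦn]
        show F^[P * (n * m)] y = F^[P * n * m] y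
        rw [mul_assoc]
    rw [e3]
    exact hsub (show (⟨F^[P * n * m] y, e1, e2⟩ : {y : N // y ∈ Λ ∧ π y = c τ}).1 ∈ W' from hyW2)
  -- separation
  have hq0 : Continuous X.q := X.hq
  obtain ⟨c1, hc1, hsep⟩ := pos_bound (Z := EE Λ π c × EE Λ π c)
    (K := {a | X.p a.1 0 ≠ X.p a.2 0}) (f := fun a => dist (X.q a.1) (X.q a.2)) (by
      have h1 : Continuous fun a : EE Λ π c × EE Λ π c => (X.p a.1 0, X.p a.2 0) :=
        ((continuous_apply 0).comp (X.hp.comp continuous_fst)).prodMk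
          ((continuous_apply 0).comp (X.hp.comp continuous_snd))
      exact (isClosed_discrete {a : Fin 3 × Fin 3 | a.1 ≠ a.2}).preimage h1)
    ((hq0.comp continuous_fst).dist (hq0.comp continuous_snd)) (by
      rintro ⟨a, b⟩ hab
      rw [dist_pos]
      intro heq
      rw [hXq, hXq] at heq
      have h1 : a.1.2 = b.1.2 := F.injective.iterate T heq
      apply hc01 a.1.1 b.1.1 ?_ (by rw [← a.2.2, ← b.2.2, h1])
      rw [← hXp, ← hXp]
      exact hab)
  have hav : ∀ i : ℕ, ∃ ci : ℝ, 0 < ci ∧ ∀ a b : EE Λ π c, X.p a 0 = 2 → 0 < i → i < P →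
      ci ≤ dist (F^[i] (X.q b)) (X.q a) := by
    intro i
    by_cases hi : 0 < i ∧ i < P
    · obtain ⟨ci, hci, hci2⟩ := pos_bound (Z := EE Λ π c × EE Λ π c)
        (K := {a | X.p a.1 0 = 2}) (f := fun a => dist (F^[i] (X.q a.2)) (X.q a.1)) (by
          have h1 : Continuous fun a : EE Λ π c × EE Λ π c => X.p a.1 0 :=
            (continuous_apply 0).comp (X.hp.comp continuous_fst)
          exact (isClosed_discrete {a : Fin 3 | a = 2}).preimage h1)
        ((((F.continuous.iterate i).comp hq0).comp continuous_snd).dist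
          (hq0.comp continuous_fst)) (by
          rintro ⟨a, b⟩ hab
          rw [dist_pos]
          intro heq
          rw [hXq, hXq, ← Function.iterate_add_apply, add_comm, Function.iterate_add_apply] at heq
          have h1 : F^[i] b.1.2 = a.1.2 := F.injective.iterate T heq
          apply hcav a.1.1 b.1.1 i hi.1 hi.2 (by rw [← hXp]; exact hab)
          rw [← a.2.2, ← b.2.2, ← h1, iter_pi hinv hB.semi b.2.1])
      exact ⟨ci, hci, fun a b ha _ _ => hci2 (a, b) ha⟩
    · exact ⟨1, one_pos, fun a b _ h1 h2 => absurd ⟨h1, h2⟩ hi⟩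
  choose cc hcc1 hcc2 using hav
  obtain ⟨c2, hc2, hc2'⟩ : ∃ c2 : ℝ, 0 < c2 ∧ ∀ i < P, c2 ≤ cc i := by
    have hne : (Finset.range P).Nonempty := ⟨0, by simp; omega⟩
    obtain ⟨i, hi, hmin⟩ := (Finset.range P).exists_min_image cc hne
    exact ⟨cc i, hcc1 i, fun j hj => hmin j (Finset.mem_range.2 hj)⟩
  have hLP : 1 ≤ L ^ P := one_le_pow₀ hL
  have hcov : Ext.Cov X F P (max 2 (L ^ P)) (min c1 c2) :=
    { P1 := by omega
      Λ1 := le_trans one_le_two (le_max_left _ _)
      c₀pos := lt_min hc1 hc2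
      qΦ := fun x => by
        rw [hXq, hXq]
        have : (X.Φ x).1.2 = F^[P] x.1.2 := by rw [hXΦ]
        rw [this, ← Function.iterate_add_apply, ← Function.iterate_add_apply, add_comm]
      lip := fun x y => by
        rw [hXq, hXq, hXq, hXq]
        have e1 : (X.Φ x).1.2 = F^[P] x.1.2 := by rw [hXΦ]
        have e2 : (X.Φ y).1.2 = F^[P] y.1.2 := by rw [hXΦ]
        rw [e1, e2, ← Function.iterate_add_apply, ← Function.iterate_add_apply, add_comm,
          Function.iterate_add_apply, Function.iterate_add_apply]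
        exact (lip_iter hL hL1 P _ _).trans
          (mul_le_mul_of_nonneg_right (le_max_right _ _) dist_nonneg)
      lips := fun x y => by
        rw [hXq, hXq, hXq, hXq]
        have e1 : ∀ x : EE Λ π c, F^[T] (X.Φ.symm x).1.2 = F.symm^[P] (F^[T] x.1.2) := by
          intro x
          have e1 : (X.Φ.symm x).1.2 = F.symm^[P] x.1.2 := by rw [hXΦs]
          rw [e1]
          have hcomm : Function.Commute F F.symm := fun x => by
            rw [F.apply_symm_apply, F.symm_apply_apply]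
          exact (hcomm.iterate_iterate T P) _
        rw [e1, e1]
        exact (lip_iter hL hL2 P _ _).trans
          (mul_le_mul_of_nonneg_right (le_max_right _ _) dist_nonneg)
      av := fun x y i h1 h2 h3 =>
        ((min_le_right _ _).trans (hc2' i h3)).trans (hcc2 i x y h1 h2 h3)
      sep := fun x y hxy => (min_le_left _ _).trans (hsep (x, y) hxy) }
  -- the base point
  obtain ⟨x, hx, hxπ, hxz⟩ := hnear (h^[T] (c (bb 0 v0)))
    ((hcb _ bb_zero).trans_le (min_le_right _ _))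
  let x₀ : EE Λ π c := ⟨(bb 0 v0, F.symm^[T] x), iter_mem hB.inv_symm hx T, by
    show π (F.symm^[T] x) = c (bb 0 v0)
    rw [iter_pi hB.inv_symm hB.semi_symm hx, hxπ, iter_symm_left]⟩
  have hqx : X.q x₀ = x := by
    rw [hXq]
    show F^[T] (F.symm^[T] x) = x
    exact iter_symm_right F T x
  refine ⟨x, hxz, ?_⟩
  rw [← hqx]
  exact main hcov (le_max_left _ _) hNW hD (by rw [hXp]) hκ k M

end

/-- closing at all points of `Λ` -/
theorem closable_bunched {n : ℕ} {N : Type u} [MetricSpace N] [CompactSpace N]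
    [ChartedSpace (V n) N] [IsManifold (𝓡 n) ∞ N] (hN : ChartLip n N) {r : ℕ∞} (hr : 1 ≤ r)
    (F : DiffM n N r) {B : Type v} [MetricSpace B] {h : B ≃ₜ B} {Λ : Set N} {π : N → B}
    (hB : Bunched F.toHomeomorph h Λ π) {z : N} (hz : z ∈ Λ) : Closable n N r F z := by
  apply closable_of_MC hN hr F z
  obtain ⟨A, D, hD⟩ := Pool.Agent.N813.EM.FIN.t n N hN
  have hr' : (1 : WithTop ℕ∞) ≤ (r : WithTop ℕ∞) := by exact_mod_cast hr
  obtain ⟨L1, hL1⟩ := Pool.Agent.N813.EM.BIL.t n N F (F.contMDiff.of_le hr') hN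
  obtain ⟨L2, hL2⟩ := Pool.Agent.N813.EM.BIL.t n N F.symm (F.symm.contMDiff.of_le hr') hN
  intro κ k hκ
  exact MC_bunched hB (L := max 1 (max L1 L2)) hD (le_max_left _ _)
    (fun x y => (hL1 x y).trans (mul_le_mul_of_nonneg_right
      ((le_max_left _ _).trans (le_max_right _ _)) dist_nonneg))
    (fun x y => (hL2 x y).trans (mul_le_mul_of_nonneg_right
      ((le_max_right _ _).trans (le_max_right _ _)) dist_nonneg)) hz κ k 0 hκ

end Pool.Agent.KS6_4.CL
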