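import Pool.Agent.KS6_4.CL.DefsF
import Pool.Agent.KS6_4.CL.Fin
import Pool.Graph.R_pool_sql_team_seeded_63374d34.N813.EM.Lift
import Pool.Graph.R_seed8.TH382.HS.Limit
import Pool.Graph.R_seed8.Y368.GG.Main
import Pool.Graph.R_seed8.Y504.CO.KSG

/-!
# The closing lemma for extensions with Lipschitz holonomies
-/

set_option autoImplicit false

open scoped Manifold ContDiff Topology
open Filter Set Metric

universe u v

namespace Pool.Agent.KS6_4.CL

open Pool.Agent.H718R2.G Pool.Agent.W564.SC Pool.Agent.N813.CL.F Pool.Agent.Y368.CL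
  Pool.Agent.N813.EM Pool.Agent.TH80.OMS Pool.Agent.Y504.CO.KSG

theorem polyClose_of_BPt {X : Type u} [MetricSpace X] [CompactSpace X] (g : X ≃ₜ X)
    (hfin : FinDim X) (hbl : BiLip g) {x : X} (h : BPt.{u, v} g x) : PolyClose g x := by
  obtain ⟨B, _, h, Λ, π, hB, hx⟩ := h
  obtain ⟨C, D, hCD⟩ := hfin
  obtain ⟨L, hL⟩ := hbl
  intro A η hη M
  obtain ⟨z', ρ, m, h1, h2, h3, ⟨h4, h4'⟩, h5, h6⟩ := MC_bunched hB (A := C) (D := D) hCD
    (L := max 1 L) (le_max_left _ _)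
    (fun x y => ((hL x y).1).trans (mul_le_mul_of_nonneg_right (le_max_right _ _) dist_nonneg))
    (fun x y => by
      have h1 := (hL (g.symm x) (g.symm y)).2
      rw [g.apply_symm_apply, g.apply_symm_apply] at h1
      exact h1.trans (mul_le_mul_of_nonneg_right (le_max_right _ _) dist_nonneg))
    hx (min η 1) A M (lt_min hη one_pos)
  refine ⟨m, z', ρ, h4', h1.trans_le (min_le_left _ _), h2, h3.trans_le (min_le_left _ _), ?_, ?_⟩
  · refine h5.le.trans ?_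
    have : (0 : ℝ) ≤ ρ ^ A := by positivity
    nlinarith [min_le_right η 1]
  · intro i hi1 hi2
    have := h6 i hi1 hi2
    linarith

theorem closable_GPt {k n : ℕ} {N : Type u} [TopologicalSpace N] [T2Space N]
    [CompactSpace N] [ChartedSpace (V n) N] [IsManifold (𝓡 n) ∞ N] {r : ℕ∞} (hr : 1 ≤ r)
    {F : DiffM n N r} {z : N} (h : GPt.{u, v} k n N F z) : Closable n N r F z := by
  obtain ⟨R, K, X, _, _, g, π, χ, ⟨hR1, hR2, hR3⟩, ⟨hK1, hK2⟩, ⟨hq1, hq2, hq3, c, hq4⟩,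
    hF, hz, hχ, hup, hlow, hfin, hbl, hb⟩ := h
  exact lift t_CL.{u} hr ⟨hR1, hR2, hR3⟩ ⟨hK1, fun y hy => (hK2 y hy).1,
    fun X y hy => ((hK2 y hy).2 X).1, fun X y hy => ((hK2 y hy).2 X).2, hq1, hq2, hq3, ⟨c, hq4⟩,
    hF⟩ hz hχ hup hlow (polyClose_of_BPt g hfin hbl hb)

/-- Q1 -/
theorem main1 {n : ℕ} {N : Type u} [MetricSpace N] [CompactSpace N] [ChartedSpace (V n) N]
    [IsManifold (𝓡 n) ∞ N] (r : ℕ∞) (hr : 1 ≤ r) (F : DiffM n N r) (z : N)
    (h : FLim.{u, v} n N r F z) : Approx n N r F fun G => IsPer G z := by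
  refine Pool.Agent.TH382.HS.closable_of_limit F z fun U hU hFU => ?_
  obtain ⟨F', hF', hz⟩ := h U hU hFU
  refine ⟨F', hF', closure_mono ?_ hz⟩
  rintro y (⟨hN, B, _, h, Λ, π, hB, hy⟩ | ⟨k, hy⟩)
  · exact closable_bunched hN hr F' hB hy
  · exact closable_GPt hr hy

/-- Q2 -/
theorem main2 {n : ℕ} {N : Type u} [MetricSpace N] [CompactSpace N] [ChartedSpace (V n) N]
    [IsManifold (𝓡 n) ∞ N] (r : ℕ∞) (hr : 1 ≤ r) :
    BaireSet n N r {f | ∀ z, FLim.{u, v} n N r f z → z ∈ closure (Per f)} := by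
  obtain ⟨R, h1, h2, h3⟩ := Pool.Agent.Y368.GG.generic_closable (n := n) (N := N) r hr
  exact ⟨R, h1, h2, fun f hf z hz => h3 f hf z (main1 r hr f z hz)⟩

end Pool.Agent.KS6_4.CL
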