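import Pool.Agent.KS6_4.CL.Kset

/-!
# Homoclinic loops
-/

set_option autoImplicit false

open Filter Set Metric Topology

universe u v

namespace Pool.Agent.KS6_4.CL

/-- the constant sequence -/
def A0 : Seq := fun _ => 0

/-- the homoclinic sequence `0^∞ . 2 v_1 … v_n 0^∞` -/
def bb (n : ℕ) (v : ℤ → Fin 3) : Seq := fun i => if i = 0 then 2 else if 1 ≤ i ∧ i ≤ n then v i else 0

/-- the sequence `0^∞ . v_1 … v_n 0^∞` -/
def p3 (n : ℕ) (v : ℤ → Fin 3) : Seq := spl A0 (sh 1 (bb n v))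

theorem bb_neg {n : ℕ} {v : ℤ → Fin 3} {i : ℤ} (hi : i < 0) : bb n v i = 0 := by
  unfold bb
  rw [if_neg (by omega), if_neg (by omega)]

theorem bb_zero {n : ℕ} {v : ℤ → Fin 3} : bb n v 0 = 2 := by simp [bb]

theorem bb_mid {n : ℕ} {v : ℤ → Fin 3} {i : ℤ} (h1 : 1 ≤ i) (h2 : i ≤ n) : bb n v i = v i := by
  unfold bb
  rw [if_neg (by omega), if_pos ⟨h1, h2⟩]

theorem SP_bb {n : ℕ} {v : ℤ → Fin 3} : SP (bb n v) A0 := fun _ hi => bb_neg hi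

theorem SP_p3 {n : ℕ} {v : ℤ → Fin 3} : SP A0 (p3 n v) := SP_spl _ _

theorem SF_p3 {n : ℕ} {v : ℤ → Fin 3} : SF (p3 n v) (sh 1 (bb n v)) := (SF_spl _ _).symm

theorem p3_ne_two {n : ℕ} {v : ℤ → Fin 3} (hv : ∀ i, v i ≠ 2) (i : ℤ) : p3 n v i ≠ 2 := by
  unfold p3 spl
  split_ifs with h
  · simp [A0]
  · simp only [sh, bb]
    rw [if_neg (by omega)]
    split_ifs
    · exact hv _
    · simp

theorem mem_Kset_of_ne {n : ℕ} {v : ℤ → Fin 3} {σ : Seq} (h : ∀ i, σ i ≠ 2) : σ ∈ Kset n v :=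
  fun i hi => absurd hi (h i)

theorem A0_mem {n : ℕ} {v : ℤ → Fin 3} : A0 ∈ Kset n v := mem_Kset_of_ne fun i => by simp [A0]

theorem p3_mem {n : ℕ} {v v' : ℤ → Fin 3} (hv : ∀ i, v' i ≠ 2) : p3 n v' ∈ Kset n v :=
  mem_Kset_of_ne (p3_ne_two hv)

theorem bb_ne_two {n : ℕ} {v : ℤ → Fin 3} (hv : ∀ i, v i ≠ 2) {i : ℤ} (hi : i ≠ 0) :
    bb n v i ≠ 2 := by
  unfold bb
  rw [if_neg hi]
  split_ifs
  · exact hv _
  · simp

theorem bb_mem {n : ℕ} {v v' : ℤ → Fin 3} (hv : ∀ i, v' i ≠ 2)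
    (hne : ∃ j : ℤ, 1 ≤ j ∧ j ≤ n ∧ v' j ≠ v j) : bb n v' ∈ Kset n v := by
  intro i hi
  have hi0 : i = 0 := by
    by_contra h
    exact bb_ne_two hv h hi
  subst hi0
  refine ⟨fun j h1 h2 => bb_neg (by omega), fun j h1 h2 => bb_ne_two hv (by omega), ?_⟩
  obtain ⟨j, h1, h2, h3⟩ := hne
  refine ⟨j, h1, h2, ?_⟩
  rw [zero_add, bb_mid h1 h2]
  exact h3

variable {E : Type u} {N : Type v} [MetricSpace E] [MetricSpace N]

namespace Ext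

variable (X : Ext E N)

/-- the holonomy from the fibre of `A0` to the fibre of `bb n v` -/
def R (n : ℕ) (v : ℤ → Fin 3) (w : E) : E :=
  X.Φ.symm (X.Hs (X.Hu w (p3 n v)) (sh 1 (bb n v)))

/-- the holonomy from the fibre of `bb n v` to the fibre of `A0` -/
def Ri (n : ℕ) (v : ℤ → Fin 3) (e : E) : E := X.Hu (X.Hs (X.Φ e) (p3 n v)) A0

/-- the holonomy of the loop -/
def T (n : ℕ) (v : ℤ → Fin 3) (w : E) : E := X.Hu (X.R n v w) A0

/-- the inverse of the holonomy of the loop -/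
def Ti (n : ℕ) (v : ℤ → Fin 3) (w : E) : E := X.Ri n v (X.Hu w (bb n v))

variable {X} {n : ℕ} {v : ℤ → Fin 3}

theorem p_Hu_p3 {w : E} (hw : X.p w = A0) : X.p (X.Hu w (p3 n v)) = p3 n v :=
  X.u.fib _ _ (by rw [hw]; exact SP_p3)

theorem p_Hs_bb {w : E} (hw : X.p w = A0) :
    X.p (X.Hs (X.Hu w (p3 n v)) (sh 1 (bb n v))) = sh 1 (bb n v) :=
  X.s.fib _ _ (by rw [p_Hu_p3 hw]; exact SF_p3)

theorem p_R {w : E} (hw : X.p w = A0) : X.p (X.R n v w) = bb n v := by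
  rw [R, X.pΦs, p_Hs_bb hw, sh_sh]
  norm_num [sh_zero]

theorem Φ_R (w : E) : X.Φ (X.R n v w) = X.Hs (X.Hu w (p3 n v)) (sh 1 (bb n v)) := by
  rw [R, X.Φ.apply_symm_apply]

theorem p_T {w : E} (hw : X.p w = A0) : X.p (X.T n v w) = A0 :=
  X.u.fib _ _ (by rw [p_R hw]; exact SP_bb)

theorem Hu_T {w : E} (hw : X.p w = A0) : X.Hu (X.T n v w) (bb n v) = X.R n v w := by
  have h := X.u.symm' (X.R n v w) A0 (by rw [p_R hw]; exact SP_bb)
  rw [p_R hw] at h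
  exact h

theorem Ri_R {w : E} (hw : X.p w = A0) : X.Ri n v (X.R n v w) = w := by
  rw [Ri, Φ_R]
  have h1 := X.s.symm' (X.Hu w (p3 n v)) (sh 1 (bb n v)) (by rw [p_Hu_p3 hw]; exact SF_p3)
  rw [p_Hu_p3 hw] at h1
  rw [h1]
  have h2 := X.u.symm' w (p3 n v) (by rw [hw]; exact SP_p3)
  rw [hw] at h2
  exact h2

theorem p_Ri {e : E} (he : X.p e = bb n v) : X.p (X.Ri n v e) = A0 := by
  have h1 : X.p (X.Φ e) = sh 1 (bb n v) := by rw [X.pΦ, he]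
  have h2 : X.p (X.Hs (X.Φ e) (p3 n v)) = p3 n v :=
    X.s.fib _ _ (by rw [h1]; exact SF_p3.symm)
  exact X.u.fib _ _ (by rw [h2]; exact SP_p3.symm)

theorem R_Ri {e : E} (he : X.p e = bb n v) : X.R n v (X.Ri n v e) = e := by
  have h1 : X.p (X.Φ e) = sh 1 (bb n v) := by rw [X.pΦ, he]
  have h2 : X.p (X.Hs (X.Φ e) (p3 n v)) = p3 n v :=
    X.s.fib _ _ (by rw [h1]; exact SF_p3.symm)
  have h3 := X.u.symm' (X.Hs (X.Φ e) (p3 n v)) A0 (by rw [h2]; exact SP_p3.symm)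
  rw [h2] at h3
  have h4 := X.s.symm' (X.Φ e) (p3 n v) (by rw [h1]; exact SF_p3.symm)
  rw [h1] at h4
  rw [R, Ri, h3, h4, X.Φ.symm_apply_apply]

theorem Ti_T {w : E} (hw : X.p w = A0) : X.Ti n v (X.T n v w) = w := by
  rw [Ti, Hu_T hw, Ri_R hw]

theorem p_Hu_bb {w : E} (hw : X.p w = A0) : X.p (X.Hu w (bb n v)) = bb n v :=
  X.u.fib _ _ (by rw [hw]; exact SP_bb.symm)

theorem p_Ti {w : E} (hw : X.p w = A0) : X.p (X.Ti n v w) = A0 := p_Ri (p_Hu_bb hw)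

theorem T_Ti {w : E} (hw : X.p w = A0) : X.T n v (X.Ti n v w) = w := by
  rw [T, Ti, R_Ri (p_Hu_bb hw)]
  have := X.u.symm' w (bb n v) (by rw [hw]; exact SP_bb.symm)
  rw [hw] at this
  exact this

section sat
variable [CompactSpace E] (hNW : X.NW) {U : Set E} (hU : IsOpen U) {v' : ℤ → Fin 3}
  (hv : ∀ i, v' i ≠ 2) (hne : ∃ j : ℤ, 1 ≤ j ∧ j ≤ n ∧ v' j ≠ v j)
include hNW hU hv hne

theorem Orb_T {w : E} (hw : X.p w = A0) (h : w ∈ X.Orb (Kset n v) U) :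
    X.T n v' w ∈ X.Orb (Kset n v) U := by
  have hK := Kset_adm n v
  have hb : bb n v' ∈ Kset n v := bb_mem hv hne
  have h1 := Orb_u hK hNW hU h (p3_mem hv) (by rw [hw]; exact SP_p3 (n := n) (v := v'))
  have h2 := Orb_s hK hNW hU h1 ((Kset_inv _).1 hb) (by
    rw [p_Hu_p3 hw]; exact SF_p3)
  have h3 := Orb_back hK hNW hU h2
  exact Orb_u hK hNW hU h3 A0_mem (by
    have := p_R (X := X) (n := n) (v := v') hw
    rw [R] at this
    rw [this]; exact SP_bb)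

theorem Orb_Ti {w : E} (hw : X.p w = A0) (h : w ∈ X.Orb (Kset n v) U) :
    X.Ti n v' w ∈ X.Orb (Kset n v) U := by
  have hK := Kset_adm n v
  have hb : bb n v' ∈ Kset n v := bb_mem hv hne
  have h1 := Orb_u hK hNW hU h hb (by rw [hw]; exact SP_bb.symm)
  have h2 := Orb_fwd hK h1
  have e1 : X.p (X.Φ (X.Hu w (bb n v'))) = sh 1 (bb n v') := by rw [X.pΦ, p_Hu_bb hw]
  have h3 := Orb_s hK hNW hU h2 (p3_mem hv) (by rw [e1]; exact SF_p3.symm)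
  have e2 : X.p (X.Hs (X.Φ (X.Hu w (bb n v'))) (p3 n v')) = p3 n v' :=
    X.s.fib _ _ (by rw [e1]; exact SF_p3.symm)
  exact Orb_u hK hNW hU h3 A0_mem (by rw [e2]; exact SP_p3.symm)

end sat

/-- `F` on `N`, of which the `P`-th iterate is covered by `Φ`; the separation of the symbols. -/
structure Cov (X : Ext E N) (F : N → N) (P : ℕ) (Λ c₀ : ℝ) : Prop where
  P1 : 1 ≤ P
  Λ1 : 1 ≤ Λ
  c₀pos : 0 < c₀
  qΦ : ∀ x, X.q (X.Φ x) = F^[P] (X.q x)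
  lip : ∀ x y, dist (X.q (X.Φ x)) (X.q (X.Φ y)) ≤ Λ * dist (X.q x) (X.q y)
  lips : ∀ x y, dist (X.q (X.Φ.symm x)) (X.q (X.Φ.symm y)) ≤ Λ * dist (X.q x) (X.q y)
  av : ∀ (x y : E) (i : ℕ), X.p x 0 = 2 → 0 < i → i < P → c₀ ≤ dist (F^[i] (X.q y)) (X.q x)
  sep : ∀ x y : E, X.p x 0 ≠ X.p y 0 → c₀ ≤ dist (X.q x) (X.q y)

variable {F : N → N} {P : ℕ} {Λ c₀ : ℝ}

section lip
variable (hX : Cov X F P Λ c₀)
include hX

theorem lip_n (m : ℕ) (x y : E) :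
    dist (X.q (X.Φ^[m] x)) (X.q (X.Φ^[m] y)) ≤ Λ ^ m * dist (X.q x) (X.q y) := by
  induction m with
  | zero => simp
  | succ m ih =>
    rw [Function.iterate_succ_apply', Function.iterate_succ_apply', pow_succ']
    calc _ ≤ Λ * dist (X.q (X.Φ^[m] x)) (X.q (X.Φ^[m] y)) := hX.lip _ _
      _ ≤ Λ * (Λ ^ m * dist (X.q x) (X.q y)) :=
          mul_le_mul_of_nonneg_left ih (by linarith [hX.Λ1])
      _ = _ := by ring

theorem qΦn (m : ℕ) (x : E) : X.q (X.Φ^[m] x) = F^[P * m] (X.q x) := by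
  induction m with
  | zero => simp
  | succ m ih =>
    rw [Function.iterate_succ_apply', hX.qΦ, ih, ← Function.iterate_add_apply]
    congr 1
    ring_nf

theorem lip_R {w w' : E} (hw : X.p w = A0) (hw' : X.p w' = A0) :
    dist (X.q (X.R n v w)) (X.q (X.R n v w')) ≤ Λ * X.C ^ 2 * dist (X.q w) (X.q w') := by
  have hC : 0 ≤ X.C := by linarith [X.C1]
  have hΛ : 0 ≤ Λ := by linarith [hX.Λ1]
  have h1 := X.u.lip w w' (p3 n v) (by rw [hw, hw']) (by rw [hw]; exact SP_p3)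
  have h2 := X.s.lip (X.Hu w (p3 n v)) (X.Hu w' (p3 n v)) (sh 1 (bb n v))
    (by rw [p_Hu_p3 hw, p_Hu_p3 hw']) (by rw [p_Hu_p3 hw]; exact SF_p3)
  have h3 := hX.lips (X.Hs (X.Hu w (p3 n v)) (sh 1 (bb n v)))
    (X.Hs (X.Hu w' (p3 n v)) (sh 1 (bb n v)))
  calc _ ≤ _ := h3
    _ ≤ Λ * (X.C * (X.C * dist (X.q w) (X.q w'))) :=
        mul_le_mul_of_nonneg_left (h2.trans (mul_le_mul_of_nonneg_left h1 hC)) hΛ
    _ = _ := by ring

theorem lip_T {w w' : E} (hw : X.p w = A0) (hw' : X.p w' = A0) :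
    dist (X.q (X.T n v w)) (X.q (X.T n v w')) ≤ Λ * X.C ^ 3 * dist (X.q w) (X.q w') := by
  have hC : 0 ≤ X.C := by linarith [X.C1]
  have h1 := X.u.lip (X.R n v w) (X.R n v w') A0 (by rw [p_R hw, p_R hw'])
    (by rw [p_R hw]; exact SP_bb)
  have h2 := lip_R (n := n) (v := v) hX hw hw'
  calc _ ≤ _ := h1
    _ ≤ X.C * (Λ * X.C ^ 2 * dist (X.q w) (X.q w')) := mul_le_mul_of_nonneg_left h2 hC
    _ = _ := by ring

theorem lip_Ti {w w' : E} (hw : X.p w = A0) (hw' : X.p w' = A0) :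
    dist (X.q (X.Ti n v w)) (X.q (X.Ti n v w')) ≤ Λ * X.C ^ 3 * dist (X.q w) (X.q w') := by
  have hC : 0 ≤ X.C := by linarith [X.C1]
  have hΛ : 0 ≤ Λ := by linarith [hX.Λ1]
  have h1 := X.u.lip w w' (bb n v) (by rw [hw, hw']) (by rw [hw]; exact SP_bb.symm)
  have h2 := hX.lip (X.Hu w (bb n v)) (X.Hu w' (bb n v))
  have e1 : X.p (X.Φ (X.Hu w (bb n v))) = sh 1 (bb n v) := by rw [X.pΦ, p_Hu_bb hw]
  have e1' : X.p (X.Φ (X.Hu w' (bb n v))) = sh 1 (bb n v) := by rw [X.pΦ, p_Hu_bb hw']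
  have h3 := X.s.lip (X.Φ (X.Hu w (bb n v))) (X.Φ (X.Hu w' (bb n v))) (p3 n v)
    (by rw [e1, e1']) (by rw [e1]; exact SF_p3.symm)
  have e2 : X.p (X.Hs (X.Φ (X.Hu w (bb n v))) (p3 n v)) = p3 n v :=
    X.s.fib _ _ (by rw [e1]; exact SF_p3.symm)
  have e2' : X.p (X.Hs (X.Φ (X.Hu w' (bb n v))) (p3 n v)) = p3 n v :=
    X.s.fib _ _ (by rw [e1']; exact SF_p3.symm)
  have h4 := X.u.lip (X.Hs (X.Φ (X.Hu w (bb n v))) (p3 n v))
    (X.Hs (X.Φ (X.Hu w' (bb n v))) (p3 n v)) A0 (by rw [e2, e2']) (by rw [e2]; exact SP_p3.symm)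
  calc _ ≤ _ := h4
    _ ≤ X.C * (X.C * (Λ * (X.C * dist (X.q w) (X.q w')))) := by
        refine mul_le_mul_of_nonneg_left (h3.trans ?_) hC
        refine mul_le_mul_of_nonneg_left (h2.trans ?_) hC
        exact mul_le_mul_of_nonneg_left h1 hΛ
    _ = _ := by ring

end lip

end Ext

end Pool.Agent.KS6_4.CL
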