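import Pool.Agent.KS6_4.CL.Tree

/-!
# Closing at the homoclinic fibre
-/

set_option autoImplicit false

open Filter Set Metric Topology

universe u v

namespace Pool.Agent.KS6_4.CL

/-- `N` is covered by `C s^(-D)` balls of radius `s`. -/
def FD (N : Type v) [MetricSpace N] (C : ℝ) (D : ℕ) : Prop :=
  ∀ s : ℝ, 0 < s → s ≤ 1 → ∃ t : Finset N, (t.card : ℝ) ≤ C * (1 / s) ^ D ∧
    ∀ b, ∃ c ∈ t, dist b c ≤ s

theorem FD.count {N : Type v} [MetricSpace N] {C : ℝ} {D : ℕ} (h : FD N C D) {ι : Type*}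
    [Fintype ι] (f : ι → N) {s : ℝ} (hs : 0 < s) (hs1 : s ≤ 1)
    (hf : ∀ i j, i ≠ j → 3 * s ≤ dist (f i) (f j)) :
    (Fintype.card ι : ℝ) ≤ C * (1 / s) ^ D := by
  classical
  obtain ⟨t, ht, htc⟩ := h s hs hs1
  choose g hg hg2 using fun i => htc (f i)
  have hinj : Function.Injective g := by
    intro i j hij
    by_contra hne
    have h1 := hf i j hne
    have h2 := hg2 i
    have h3 := hg2 j
    rw [← hij] at h3
    have := dist_triangle_right (f i) (f j) (g i)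
    linarith
  have h2 : Fintype.card ι ≤ t.card := by
    rw [← Finset.card_univ, ← Finset.card_image_of_injective Finset.univ hinj]
    apply Finset.card_le_card
    intro x hx
    obtain ⟨i, -, rfl⟩ := Finset.mem_image.1 hx
    exact hg i
  exact le_trans (by exact_mod_cast h2) ht

/-- exponential growth beats the packing bound -/
theorem growth {Λ c κ C K A : ℝ} {k D L n₀ : ℕ} (hΛ : 2 ≤ Λ) (hc : 0 < c) (hκ : 0 < κ)
    (hκ1 : κ ≤ 1) (hC : 1 ≤ C) (hK : 1 ≤ K) (hL : Λ ^ (k * D) < 2 ^ L) :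
    ∃ t : ℕ, ∀ n : ℕ, n = n₀ + L + t → c / (2 * Λ ^ n) < κ ∧ ∃ δ : ℝ, 0 < δ ∧
      4 * (Λ * C) * δ ≤ κ * (c / (2 * Λ ^ n)) ^ k ∧ 4 * (Λ * C) * δ ≤ κ ∧
      δ / (C * K ^ L) / 3 ≤ 1 ∧ A * (1 / (δ / (C * K ^ L) / 3)) ^ D < 2 ^ (t * L) := by
  have hΛ0 : 0 < Λ := by linarith
  have hΛ1 : 1 ≤ Λ := by linarith
  have hC0 : 0 < C := by linarith
  have hK0 : 0 < K := by linarith
  set x : ℝ := Λ ^ (k * D) with hx
  set y : ℝ := 2 ^ L with hy
  have hx1 : 1 ≤ x := one_le_pow₀ hΛ1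
  have hx0 : 0 < x := by linarith
  set B : ℝ := (12 * Λ * C ^ 2 * K ^ L / κ) ^ D * (2 / c) ^ (k * D) * x ^ (n₀ + L) with hB
  have ht1 : Tendsto (fun t : ℕ => (y / x) ^ t) atTop atTop :=
    tendsto_pow_atTop_atTop_of_one_lt ((one_lt_div hx0).2 hL)
  have ht2 : Tendsto (fun t : ℕ => (2 : ℝ) ^ t) atTop atTop :=
    tendsto_pow_atTop_atTop_of_one_lt one_lt_two
  obtain ⟨t, h1, h2⟩ := ((ht1.eventually_gt_atTop (A * B)).and
    (ht2.eventually_gt_atTop (c / κ))).exists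
  refine ⟨t, fun n hn => ?_⟩
  have hΛn : (2 : ℝ) ^ t ≤ Λ ^ n := by
    calc (2 : ℝ) ^ t ≤ Λ ^ t := pow_le_pow_left₀ (by norm_num) hΛ t
      _ ≤ Λ ^ n := pow_le_pow_right₀ hΛ1 (by omega)
  have hΛn0 : 0 < Λ ^ n := by positivity
  have hρκ : c / (2 * Λ ^ n) < κ := by
    rw [div_lt_iff₀ hκ] at h2
    rw [div_lt_iff₀ (by positivity)]
    nlinarith
  set ρ := c / (2 * Λ ^ n) with hρ
  have hρ0 : 0 < ρ := by positivity
  have hρ1 : ρ ≤ 1 := by linarith
  have hρk : ρ ^ k ≤ 1 := pow_le_one₀ hρ0.le hρ1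
  refine ⟨hρκ, κ * ρ ^ k / (4 * (Λ * C)), by positivity, ?_, ?_, ?_, ?_⟩
  · rw [mul_div_cancel₀ _ (by positivity)]
  · rw [mul_div_cancel₀ _ (by positivity)]
    nlinarith
  · rw [div_le_one (by norm_num), div_le_iff₀ (by positivity), div_le_iff₀ (by positivity)]
    have hKL : 1 ≤ K ^ L := one_le_pow₀ hK
    have h3 : κ * ρ ^ k ≤ 1 := by nlinarith
    have h4 : 1 ≤ C * K ^ L := one_le_mul_of_one_le_of_one_le hC hKL
    have h5 : 1 ≤ Λ * C := one_le_mul_of_one_le_of_one_le hΛ1 hC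
    nlinarith
  · have e1 : 1 / (κ * ρ ^ k / (4 * (Λ * C)) / (C * K ^ L) / 3) =
        (12 * Λ * C ^ 2 * K ^ L / κ) * (1 / ρ) ^ k := by
      rw [one_div_pow]
      field_simp
      norm_num
    have e2 : 1 / ρ = (2 / c) * Λ ^ n := by
      rw [hρ]
      field_simp
    rw [e1, e2]
    have e3 : ((12 * Λ * C ^ 2 * K ^ L / κ) * ((2 / c) * Λ ^ n) ^ k) ^ D = B * x ^ t := by
      rw [hB, hx, mul_pow, mul_pow, mul_pow, ← pow_mul, ← pow_mul, ← pow_mul, ← pow_mul,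
        ← pow_mul, hn]
      ring
    rw [e3, ← mul_assoc]
    have e4 : (2 : ℝ) ^ (t * L) = (y / x) ^ t * x ^ t := by
      rw [← mul_pow, div_mul_cancel₀ _ hx0.ne', hy, ← pow_mul, mul_comm]
    rw [e4]
    exact mul_lt_mul_of_pos_right h1 (by positivity)

theorem MC.mono {N : Type v} [MetricSpace N] {F : N → N} {z₀ : N} {κ κ' : ℝ} {k M : ℕ}
    (h : MC F z₀ κ' k M) (hκ : κ' ≤ κ) : MC F z₀ κ k M := by
  obtain ⟨z', ρ, m, h1, h2, h3, h4, h5, h6⟩ := h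
  exact ⟨z', ρ, m, h1.trans_le hκ, h2, h3.trans_le hκ, h4,
    h5.trans_le (mul_le_mul_of_nonneg_right hκ (by positivity)), h6⟩

variable {E : Type u} {N : Type v} [MetricSpace E] [MetricSpace N] [CompactSpace E]

open Ext in
/-- Closing at the fibre over `0^∞ . 2 0^∞`. -/
theorem main {X : Ext E N} {F : N → N} {P : ℕ} {Λ c₀ : ℝ} (hX : Cov X F P Λ c₀) (hΛ : 2 ≤ Λ)
    (hNW : X.NW) {A : ℝ} {D : ℕ} (hD : FD N A D) {x₀ : E} (hx₀ : X.p x₀ = bb 0 v0) {κ : ℝ}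
    (hκ : 0 < κ) (k M : ℕ) : MC F (X.q x₀) κ k M := by
  classical
  wlog hκ1 : κ ≤ 1 with H
  · exact (H hX hΛ hNW hD hx₀ one_pos k M le_rfl).mono (by linarith)
  by_contra hno
  have hC1 := X.C1
  have hC : 0 < X.C := by linarith
  have hΛ0 : 0 < Λ := by linarith
  have hΛ1 : 1 ≤ Λ := by linarith
  set K := (Λ * X.C ^ 3) ^ 2 with hK
  have hK1 : 1 ≤ K :=
    one_le_pow₀ (one_le_mul_of_one_le_of_one_le hΛ1 (one_le_pow₀ hC1))
  obtain ⟨L, hL⟩ := pow_unbounded_of_one_lt (Λ ^ (k * D)) one_lt_two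
  -- the base point
  set w₀ := X.Ri 0 v0 x₀ with hw₀
  have hpw : X.p w₀ = A0 := p_Ri hx₀
  have hRw : X.R 0 v0 w₀ = x₀ := R_Ri hx₀
  obtain ⟨d1, hd1, hq1⟩ := X.unif_q (half_pos hκ)
  obtain ⟨n1, d2, hd2, hR⟩ := R_near X hd1
  obtain ⟨mm, r, hr, hr2⟩ := close_of_agr X.hp X.hq X.inj hd2
  have hLpos : (0 : ℝ) < L + 1 := by positivity
  have hε : 0 < r / (L + 1) / (Λ * X.C ^ 3) := by positivity
  obtain ⟨n2, hT⟩ := T_near X hε
  set n₀ := max n1 n2 + 1 with hn₀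
  obtain ⟨t, ht⟩ := growth (A := A) (n₀ := n₀) hΛ hX.c₀pos hκ hκ1 hC1 hK1 hL
  obtain ⟨hρ, δ, hδ, hδ1, hδ2, hδ3, hδ4⟩ := ht (n₀ + L + t) rfl
  set n := n₀ + L + t with hn
  have hlead : ∀ (i : ℕ) (f : ℕ → Bool) (a : ℕ), a ≤ max n1 n2 → ∀ j : ℤ, 1 ≤ j → j ≤ a + 1 →
      vv n₀ L i f j = 0 := by
    intro i f a ha j _ hj
    apply vv_zero
    rw [hn₀]
    push_cast
    have : ((a : ℕ) : ℤ) ≤ (max n1 n2 : ℕ) := by exact_mod_cast ha
    push_cast at this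
    omega
  -- the moves are small
  have hmove : ∀ (i : ℕ) (f : ℕ → Bool) (w : E), X.p w = A0 →
      dist (X.q (X.θ n (vv n₀ L i f) w)) (X.q w) < r / (L + 1) := by
    intro i f w hw
    have h1 := hT n (vv n₀ L i f) (hlead i f n2 (le_max_right _ _)) w hw
    have h2 := lip_Ti (n := n) (v := v0) hX (p_T (n := n) (v := vv n₀ L i f) hw)
      (p_T (n := n) (v := v0) hw)
    rw [Ti_T hw] at h2
    refine h2.trans_lt ?_
    have h3 : 0 < Λ * X.C ^ 3 := by positivity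
    calc _ < Λ * X.C ^ 3 * (r / (L + 1) / (Λ * X.C ^ 3)) := mul_lt_mul_of_pos_left h1 h3
      _ = _ := by field_simp
  have hW : ∀ (ω : ℕ → ℕ → Bool) (i : ℕ),
      dist (X.q (X.W n n₀ L w₀ ω i)) (X.q w₀) ≤ i * (r / (L + 1)) := by
    intro ω i
    induction i with
    | zero => simp [W]
    | succ i ih =>
      have h1 := hmove i (ω i) (X.W n n₀ L w₀ ω i) (p_W hpw ω i)
      have h2 := dist_triangle (X.q (X.W n n₀ L w₀ ω (i + 1))) (X.q (X.W n n₀ L w₀ ω i)) (X.q w₀)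
      have h3 : X.W n n₀ L w₀ ω (i + 1) = X.θ n (vv n₀ L i (ω i)) (X.W n n₀ L w₀ ω i) := rfl
      rw [h3] at h2 ⊢
      push_cast
      linarith
  have hz : ∀ (ω : ℕ → ℕ → Bool) (i : ℕ) (f : ℕ → Bool), i < L →
      dist (X.q (X.R n (vv n₀ L i f) (X.W n n₀ L w₀ ω i))) (X.q x₀) < κ / 2 := by
    intro ω i f hi
    apply hq1
    rw [← hRw]
    refine hR n _ (hlead i f n1 (le_max_left _ _)) _ _ (p_W hpw ω i) hpw ?_
    apply hr2
    · rw [p_W hpw ω i, hpw]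
      exact agr.refl _ _
    · refine (hW ω i).trans_lt ?_
      have h4 : (i : ℝ) < L := by exact_mod_cast hi
      calc (i : ℝ) * (r / (L + 1)) < (L + 1) * (r / (L + 1)) :=
            mul_lt_mul_of_pos_right (by linarith) (by positivity)
        _ = r := by field_simp
  -- the points of the tree
  let ext : (Fin L → Fin t → Bool) → ℕ → ℕ → Bool := fun g i a =>
    if h : i < L then if h' : a < t then g ⟨i, h⟩ ⟨a, h'⟩ else false else false
  have hcount := hD.count (fun g : Fin L → Fin t → Bool => X.q (X.W n n₀ L w₀ (ext g) L))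
    (s := δ / (X.C * K ^ L) / 3) (by positivity) hδ3 (by
      intro g g' hgg
      rw [show 3 * (δ / (X.C * K ^ L) / 3) = δ / (X.C * K ^ L) by ring]
      refine sep_W (n := n) (t := t) hX hNW hpw hκ hno rfl hz hρ hδ hδ1 hδ2 ?_ ?_
      · intro i a ha
        simp only [ext]
        split_ifs <;> first | rfl | omega
      · by_contra hcon
        push Not at hcon
        apply hgg
        funext i a
        have := congrFun (hcon i i.2) a
        simpa [ext] using this)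
  have hcard : (Fintype.card (Fin L → Fin t → Bool) : ℝ) = 2 ^ (t * L) := by
    rw [Fintype.card_fun, Fintype.card_fun, Fintype.card_bool, Fintype.card_fin,
      Fintype.card_fin]
    push_cast
    rw [← pow_mul]
  rw [hcard] at hcount
  linarith

end Pool.Agent.KS6_4.CL
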