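import Pool.Agent.KS6_4.CL.Bun
import Pool.Agent.KS6_4.CL.Code2
import Pool.Agent.KS6_4.CL.Main

/-!
# The extension pulled back to the full shift
-/

set_option autoImplicit false
set_option linter.unusedSectionVars false

open Filter Set Metric Topology

universe u v

namespace Pool.Agent.KS6_4.CL

theorem Near.next {B : Type v} [MetricSpace B] {h : B → B} {ε : ℝ} {b b' : B}
    (hb : Near h ε b b') : Near h ε (h b) (h b') := fun n => by
  rw [← Function.iterate_succ_apply, ← Function.iterate_succ_apply]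
  exact hb (n + 1)

section hol
variable {N : Type u} {B : Type v} [MetricSpace N] [MetricSpace B] {F : N → N} {h : B → B}
  {Λ : Set N} {π : N → B} {ε C : ℝ} {H : N → B → N}

theorem iter_mem (hinv : ∀ x ∈ Λ, F x ∈ Λ) {x : N} (hx : x ∈ Λ) (n : ℕ) : F^[n] x ∈ Λ := by
  induction n with
  | zero => exact hx
  | succ n ih => rw [Function.iterate_succ_apply']; exact hinv _ ih

theorem iter_pi (hinv : ∀ x ∈ Λ, F x ∈ Λ) (hsemi : ∀ x ∈ Λ, π (F x) = h (π x)) {x : N}
    (hx : x ∈ Λ) (n : ℕ) : π (F^[n] x) = h^[n] (π x) := by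
  induction n with
  | zero => rfl
  | succ n ih =>
    rw [Function.iterate_succ_apply', hsemi _ (iter_mem hinv hx n), ih,
      Function.iterate_succ_apply']

theorem hol_iter (hinv : ∀ x ∈ Λ, F x ∈ Λ) (hsemi : ∀ x ∈ Λ, π (F x) = h (π x))
    (hH : Holonomy F h Λ π ε C H) (n : ℕ) : ∀ x ∈ Λ, ∀ b, Near h ε (π x) b →
    F^[n] (H x b) = H (F^[n] x) (h^[n] b) := by
  induction n with
  | zero => intro x _ b _; rfl
  | succ n ih =>
    intro x hx b hb
    rw [Function.iterate_succ_apply, Function.iterate_succ_apply, Function.iterate_succ_apply,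
      hH.equiv x hx b hb]
    apply ih _ (hinv x hx)
    rw [hsemi x hx]
    exact hb.next

end hol

theorem pos_bound {Z : Type*} [TopologicalSpace Z] [CompactSpace Z] {K : Set Z} (hK : IsClosed K)
    {f : Z → ℝ} (hf : Continuous f) (h : ∀ z ∈ K, 0 < f z) : ∃ c : ℝ, 0 < c ∧ ∀ z ∈ K, c ≤ f z := by
  rcases K.eq_empty_or_nonempty with h0 | h0
  · exact ⟨1, one_pos, fun z hz => by rw [h0] at hz; exact absurd hz (notMem_empty z)⟩
  · obtain ⟨z, hz, hmin⟩ := hK.isCompact.exists_isMinOn h0 hf.continuousOn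
    exact ⟨f z, h z hz, fun y hy => hmin hy⟩

section EE
variable {N : Type u} {B : Type v} [MetricSpace N] [MetricSpace B]

/-- the pulled back space -/
def EE (Λ : Set N) (π : N → B) (c : Seq → B) : Type u := {a : Seq × N // a.2 ∈ Λ ∧ π a.2 = c a.1}

variable {Λ : Set N} {π : N → B} {c : Seq → B}

noncomputable instance : MetricSpace (EE Λ π c) :=
  @TopologicalSpace.metrizableSpaceMetric (EE Λ π c)
    (inferInstanceAs (TopologicalSpace {a : Seq × N // a.2 ∈ Λ ∧ π a.2 = c a.1}))
    (Topology.IsEmbedding.subtypeVal.metrizableSpace)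

theorem cont_val : Continuous (fun a : EE Λ π c => a.1) :=
  (continuous_subtype_val : Continuous
    (Subtype.val : {a : Seq × N // a.2 ∈ Λ ∧ π a.2 = c a.1} → Seq × N))

theorem cont_mk {Z : Type*} [TopologicalSpace Z] {f : Z → EE Λ π c}
    (h : Continuous fun z => (f z).1) : Continuous f :=
  continuous_induced_rng.2 h

theorem compact_EE [CompactSpace N] (hΛ : IsClosed Λ) (hπ : ContinuousOn π Λ) (hc : Continuous c) :
    CompactSpace (EE Λ π c) := by
  have h1 : IsClosed {a : Seq × N | a.2 ∈ Λ ∧ π a.2 = c a.1} := by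
    have h2 : ContinuousOn (fun a : Seq × N => (π a.2, c a.1)) {a : Seq × N | a.2 ∈ Λ} :=
      (hπ.comp continuousOn_snd fun a ha => ha).prodMk (hc.comp continuous_fst).continuousOn
    have h3 := h2.preimage_isClosed_of_isClosed (hΛ.preimage continuous_snd)
      (isClosed_diagonal (X := B))
    convert h3 using 1
    ext a
    simp [Set.mem_diagonal_iff]
  exact isCompact_iff_compactSpace.1 h1.isCompact

end EE

section pull
variable {N : Type u} {B : Type v} [MetricSpace N] [MetricSpace B] [CompactSpace N]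
  {F : N ≃ₜ N} {h : B ≃ₜ B} {Λ : Set N} {π : N → B}

theorem Bunched.inv_symm (hB : Bunched F h Λ π) : ∀ x ∈ Λ, F.symm x ∈ Λ := fun x hx => by
  rw [hB.inv, F.apply_symm_apply]; exact hx

theorem Bunched.semi_symm (hB : Bunched F h Λ π) : ∀ x ∈ Λ, π (F.symm x) = h.symm (π x) := by
  intro x hx
  apply h.injective
  rw [← hB.semi _ (hB.inv_symm x hx), F.apply_symm_apply, h.apply_symm_apply]

theorem lip_iter {G : N → N} {L : ℝ} (hL : 1 ≤ L) (hG : ∀ x y, dist (G x) (G y) ≤ L * dist x y)
    (n : ℕ) (x y : N) : dist (G^[n] x) (G^[n] y) ≤ L ^ n * dist x y := by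
  induction n with
  | zero => simp
  | succ n ih =>
    rw [Function.iterate_succ_apply', Function.iterate_succ_apply', pow_succ']
    calc _ ≤ L * dist (G^[n] x) (G^[n] y) := hG _ _
      _ ≤ L * (L ^ n * dist x y) := mul_le_mul_of_nonneg_left ih (by linarith)
      _ = _ := by ring

theorem iter_symm_left {Z : Type*} [TopologicalSpace Z] (G : Z ≃ₜ Z) (n : ℕ) (x : Z) :
    G.symm^[n] (G^[n] x) = x :=
  (show Function.LeftInverse G.symm G from G.symm_apply_apply).iterate n x

theorem iter_symm_right {Z : Type*} [TopologicalSpace Z] (G : Z ≃ₜ Z) (n : ℕ) (x : Z) :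
    G^[n] (G.symm^[n] x) = x :=
  (show Function.LeftInverse G G.symm from G.apply_symm_apply).iterate n x

open Classical in
/-- the extension pulled back to the full shift -/
theorem pull (hB : Bunched F h Λ π) {εs Cs : ℝ} {Hs : N → B → N}
    (hs : Holonomy F h Λ π εs Cs Hs) {εu Cu : ℝ} {Hu : N → B → N}
    (hu : Holonomy F.symm h.symm Λ π εu Cu Hu) {P T : ℕ} {c : Seq → B} (hcc : Continuous c)
    (hcP : ∀ σ, c (sh 1 σ) = h^[P] (c σ))
    (hcs : ∀ σ τ : Seq, (∀ i : ℤ, 0 ≤ i → σ i = τ i) → Near h εs (c σ) (c τ))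
    (hcu : ∀ σ τ : Seq, (∀ i : ℤ, i < 0 → σ i = τ i) → Near h.symm εu (c σ) (c τ))
    {L : ℝ} (hL : 1 ≤ L) (hL1 : ∀ x y, dist (F x) (F y) ≤ L * dist x y)
    (hL2 : ∀ x y, dist (F.symm x) (F.symm y) ≤ L * dist x y) :
    ∃ X : Ext (EE Λ π c) N, (∀ a, X.p a = a.1.1) ∧ (∀ a, X.q a = F^[T] a.1.2) ∧
      (∀ a, (X.Φ a).1 = (sh 1 a.1.1, F^[P] a.1.2)) ∧
      (∀ a, (X.Φ.symm a).1 = (sh (-1) a.1.1, F.symm^[P] a.1.2)) := by
  have hinv : ∀ x ∈ Λ, F x ∈ Λ := fun x hx => (hB.inv x).1 hx
  have hcP' : ∀ σ, c (sh (-1) σ) = h.symm^[P] (c σ) := by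
    intro σ
    have h1 := hcP (sh (-1) σ)
    rw [sh_sh, show (1 : ℤ) + -1 = 0 by norm_num, sh_zero] at h1
    rw [h1, iter_symm_left]
  have hsh : ∀ k : ℤ, Continuous (sh k) := fun k =>
    continuous_pi fun i => continuous_apply (i + k)
  let Φ : EE Λ π c ≃ₜ EE Λ π c :=
    { toFun := fun a => ⟨(sh 1 a.1.1, F^[P] a.1.2), iter_mem hinv a.2.1 P, by
        show π (F^[P] a.1.2) = c (sh 1 a.1.1)
        rw [iter_pi hinv hB.semi a.2.1, hcP, a.2.2]⟩
      invFun := fun a => ⟨(sh (-1) a.1.1, F.symm^[P] a.1.2),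
        iter_mem hB.inv_symm a.2.1 P, by
        show π (F.symm^[P] a.1.2) = c (sh (-1) a.1.1)
        rw [iter_pi hB.inv_symm hB.semi_symm a.2.1, hcP', a.2.2]⟩
      left_inv := fun a => by
        apply Subtype.ext
        apply Prod.ext
        · show sh (-1) (sh 1 a.1.1) = a.1.1
          rw [sh_sh]; norm_num [sh_zero]
        · show F.symm^[P] (F^[P] a.1.2) = a.1.2
          exact iter_symm_left F P _
      right_inv := fun a => by
        apply Subtype.ext
        apply Prod.ext
        · show sh 1 (sh (-1) a.1.1) = a.1.1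
          rw [sh_sh]; norm_num [sh_zero]
        · show F^[P] (F.symm^[P] a.1.2) = a.1.2
          exact iter_symm_right F P _
      continuous_toFun := cont_mk (((hsh 1).comp (continuous_fst.comp cont_val)).prodMk
        ((F.continuous.iterate P).comp (continuous_snd.comp cont_val)))
      continuous_invFun := cont_mk (((hsh (-1)).comp (continuous_fst.comp cont_val)).prodMk
        ((F.symm.continuous.iterate P).comp (continuous_snd.comp cont_val))) }
  have nearS : ∀ (a : EE Λ π c) (τ : Seq), SF a.1.1 τ → Near h εs (π a.1.2) (c τ) := by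
    intro a τ hτ
    rw [a.2.2]
    exact hcs _ _ hτ
  have nearU : ∀ (a : EE Λ π c) (τ : Seq), SP a.1.1 τ → Near h.symm εu (π a.1.2) (c τ) := by
    intro a τ hτ
    rw [a.2.2]
    exact hcu _ _ hτ
  let HS : EE Λ π c → Seq → EE Λ π c := fun a τ => if hτ : SF a.1.1 τ then
    ⟨(τ, Hs a.1.2 (c τ)), hs.fib _ a.2.1 _ (nearS a τ hτ)⟩ else a
  let HU : EE Λ π c → Seq → EE Λ π c := fun a τ => if hτ : SP a.1.1 τ then
    ⟨(τ, Hu a.1.2 (c τ)), hu.fib _ a.2.1 _ (nearU a τ hτ)⟩ else a
  have HSv : ∀ a τ, SF a.1.1 τ → (HS a τ).1 = (τ, Hs a.1.2 (c τ)) := fun a τ hτ => by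
    have h1 : HS a τ = ⟨(τ, Hs a.1.2 (c τ)), hs.fib _ a.2.1 _ (nearS a τ hτ)⟩ := dif_pos hτ
    rw [h1]
  have HUv : ∀ a τ, SP a.1.1 τ → (HU a τ).1 = (τ, Hu a.1.2 (c τ)) := fun a τ hτ => by
    have h1 : HU a τ = ⟨(τ, Hu a.1.2 (c τ)), hu.fib _ a.2.1 _ (nearU a τ hτ)⟩ := dif_pos hτ
    rw [h1]
  set C : ℝ := max 1 (max Cs Cu) * L ^ T * L ^ T with hC
  have hL0 : 0 < L := by linarith
  have hLT : 1 ≤ L ^ T := one_le_pow₀ hL
  have hM1 : 1 ≤ max 1 (max Cs Cu) := le_max_left _ _
  -- the comparison of the distances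
  have hcmp : ∀ {K : ℝ} (_ : K ≤ max 1 (max Cs Cu)) {x y x' y' : N},
      dist x' y' ≤ K * dist x y → dist (F^[T] x') (F^[T] y') ≤ C * dist (F^[T] x) (F^[T] y) := by
    intro K hK x y x' y' h1
    have h2 := lip_iter hL hL1 T x' y'
    have h3 := lip_iter hL hL2 T (F^[T] x) (F^[T] y)
    rw [iter_symm_left, iter_symm_left] at h3
    have hLT0 : 0 ≤ L ^ T := by positivity
    calc _ ≤ L ^ T * dist x' y' := h2
      _ ≤ L ^ T * (max 1 (max Cs Cu) * dist x y) := by
          refine mul_le_mul_of_nonneg_left (h1.trans ?_) hLT0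
          exact mul_le_mul_of_nonneg_right hK dist_nonneg
      _ ≤ L ^ T * (max 1 (max Cs Cu) * (L ^ T * dist (F^[T] x) (F^[T] y))) := by
          refine mul_le_mul_of_nonneg_left ?_ hLT0
          exact mul_le_mul_of_nonneg_left h3 (by linarith)
      _ = _ := by rw [hC]; ring
  let X : Ext (EE Λ π c) N :=
    { Φ := Φ
      p := fun a => a.1.1
      q := fun a => F^[T] a.1.2
      Hs := HS
      Hu := HU
      C := C
      C1 := by
        rw [hC]
        have := one_le_mul_of_one_le_of_one_le (one_le_mul_of_one_le_of_one_le hM1 hLT) hLT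
        exact this
      hp := continuous_fst.comp cont_val
      hq := (F.continuous.iterate T).comp (continuous_snd.comp cont_val)
      inj := by
        intro x y h1 h2
        apply Subtype.ext
        apply Prod.ext h1
        exact (F.injective.iterate T) h2
      pΦ := fun x => rfl
      s :=
        { fib := fun x τ hτ => by
            show (HS x τ).1.1 = τ
            rw [HSv x τ hτ]
          id' := fun x => by
            apply Subtype.ext
            show (HS x x.1.1).1 = x.1
            rw [HSv x _ (SF.refl _), ← x.2.2, hs.refl _ x.2.1]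
          symm' := fun x τ hτ => by
            apply Subtype.ext
            show (HS (HS x τ) x.1.1).1 = x.1
            rw [HSv _ _ (by rw [HSv x τ hτ]; exact hτ.symm), HSv x τ hτ]
            show (x.1.1, Hs (Hs x.1.2 (c τ)) (c x.1.1)) = x.1
            rw [← x.2.2, hs.symm _ x.2.1 _ (nearS x τ hτ)]
          cont := by
            rw [continuousOn_iff_continuous_domRestrict]
            apply cont_mk
            have h1 : Continuous fun a : {a : EE Λ π c × Seq | SF a.1.1.1 a.2} =>
                (a.1.2, Hs a.1.1.1.2 (c a.1.2)) := by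
              refine (continuous_snd.comp continuous_subtype_val).prodMk ?_
              have h2 := hs.cont
              rw [continuousOn_iff_continuous_domRestrict] at h2
              exact h2.comp (f := fun a : {a : EE Λ π c × Seq | SF a.1.1.1 a.2} =>
                (⟨(a.1.1.1.2, c a.1.2), a.1.1.2.1, nearS a.1.1 a.1.2 a.2⟩ :
                  {a : N × B | a.1 ∈ Λ ∧ Near h εs (π a.1) a.2}))
                (((continuous_snd.comp (cont_val.comp (continuous_fst.comp
                  continuous_subtype_val))).prodMk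
                  (hcc.comp (continuous_snd.comp continuous_subtype_val))).subtype_mk _)
            refine h1.congr fun a => ?_
            exact (HSv a.1.1 a.1.2 a.2).symm
          lip := fun x y τ hxy hτ => by
            show dist (F^[T] (HS x τ).1.2) (F^[T] (HS y τ).1.2) ≤ _
            rw [HSv x τ hτ, HSv y τ (by rw [← show x.1.1 = y.1.1 from hxy]; exact hτ)]
            refine hcmp ((le_max_left Cs Cu).trans (le_max_right _ _))
              (hs.lip _ x.2.1 _ y.2.1 ?_ _ (nearS x τ hτ))
            rw [x.2.2, y.2.2, show x.1.1 = y.1.1 from hxy] }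
      u :=
        { fib := fun x τ hτ => by
            show (HU x τ).1.1 = τ
            rw [HUv x τ hτ]
          id' := fun x => by
            apply Subtype.ext
            show (HU x x.1.1).1 = x.1
            rw [HUv x _ (SP.refl _), ← x.2.2, hu.refl _ x.2.1]
          symm' := fun x τ hτ => by
            apply Subtype.ext
            show (HU (HU x τ) x.1.1).1 = x.1
            rw [HUv _ _ (by rw [HUv x τ hτ]; exact hτ.symm), HUv x τ hτ]
            show (x.1.1, Hu (Hu x.1.2 (c τ)) (c x.1.1)) = x.1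
            rw [← x.2.2, hu.symm _ x.2.1 _ (nearU x τ hτ)]
          cont := by
            rw [continuousOn_iff_continuous_domRestrict]
            apply cont_mk
            have h1 : Continuous fun a : {a : EE Λ π c × Seq | SP a.1.1.1 a.2} =>
                (a.1.2, Hu a.1.1.1.2 (c a.1.2)) := by
              refine (continuous_snd.comp continuous_subtype_val).prodMk ?_
              have h2 := hu.cont
              rw [continuousOn_iff_continuous_domRestrict] at h2
              exact h2.comp (f := fun a : {a : EE Λ π c × Seq | SP a.1.1.1 a.2} =>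
                (⟨(a.1.1.1.2, c a.1.2), a.1.1.2.1, nearU a.1.1 a.1.2 a.2⟩ :
                  {a : N × B | a.1 ∈ Λ ∧ Near h.symm εu (π a.1) a.2}))
                (((continuous_snd.comp (cont_val.comp (continuous_fst.comp
                  continuous_subtype_val))).prodMk
                  (hcc.comp (continuous_snd.comp continuous_subtype_val))).subtype_mk _)
            refine h1.congr fun a => ?_
            exact (HUv a.1.1 a.1.2 a.2).symm
          lip := fun x y τ hxy hτ => by
            show dist (F^[T] (HU x τ).1.2) (F^[T] (HU y τ).1.2) ≤ _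
            rw [HUv x τ hτ, HUv y τ (by rw [← show x.1.1 = y.1.1 from hxy]; exact hτ)]
            refine hcmp ((le_max_right Cs Cu).trans (le_max_right _ _))
              (hu.lip _ x.2.1 _ y.2.1 ?_ _ (nearU x τ hτ))
            rw [x.2.2, y.2.2, show x.1.1 = y.1.1 from hxy] }
      s_eq := fun x τ hτ => by
        apply Subtype.ext
        show (sh 1 (HS x τ).1.1, F^[P] (HS x τ).1.2) = (HS (Φ x) (sh 1 τ)).1
        rw [HSv x τ hτ, HSv (Φ x) (sh 1 τ) (hτ.sh 1)]
        show (sh 1 τ, F^[P] (Hs x.1.2 (c τ))) = (sh 1 τ, Hs (F^[P] x.1.2) (c (sh 1 τ)))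
        rw [hol_iter hinv hB.semi hs P _ x.2.1 _ (nearS x τ hτ), hcP]
      u_eq := fun x τ hτ => by
        apply Subtype.ext
        show (sh (-1) (HU x τ).1.1, F.symm^[P] (HU x τ).1.2) = (HU (Φ.symm x) (sh (-1) τ)).1
        rw [HUv x τ hτ, HUv (Φ.symm x) (sh (-1) τ) (hτ.sh 1)]
        show (sh (-1) τ, F.symm^[P] (Hu x.1.2 (c τ))) =
          (sh (-1) τ, Hu (F.symm^[P] x.1.2) (c (sh (-1) τ)))
        rw [hol_iter hB.inv_symm hB.semi_symm hu P _ x.2.1 _ (nearU x τ hτ), hcP'] }
  exact ⟨X, fun _ => rfl, fun _ => rfl, fun _ => rfl, fun _ => rfl⟩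

end pull

end Pool.Agent.KS6_4.CL
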