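import Mathlib

/-!
# Nonwandering homeomorphisms of compact metric spaces have dense recurrent points
-/

set_option autoImplicit false

open Filter Set Metric Topology

universe u

namespace Pool.Agent.KS6_4.CL

/-- If every open set returns, it returns after arbitrarily long times. -/
theorem nw_large {Y : Type u} [TopologicalSpace Y] {T : Y → Y} (hT : Continuous T)
    (h : ∀ U : Set Y, IsOpen U → U.Nonempty → ∃ m : ℕ, 1 ≤ m ∧ ∃ y ∈ U, T^[m] y ∈ U) (M : ℕ) :
    ∀ U : Set Y, IsOpen U → U.Nonempty → ∃ m : ℕ, M ≤ m ∧ 1 ≤ m ∧ ∃ y ∈ U, T^[m] y ∈ U := by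
  induction M with
  | zero =>
    intro U hU hne
    obtain ⟨m, hm, y, hy, hy2⟩ := h U hU hne
    exact ⟨m, Nat.zero_le _, hm, y, hy, hy2⟩
  | succ M ih =>
    intro U hU hne
    obtain ⟨m, hm, hm1, y, hy, hy2⟩ := ih U hU hne
    obtain ⟨k, hk, z, hz, hz2⟩ := h (U ∩ T^[m] ⁻¹' U) (hU.inter (hU.preimage (hT.iterate m)))
      ⟨y, hy, hy2⟩
    refine ⟨m + k, by omega, by omega, z, hz.1, ?_⟩
    rw [Function.iterate_add_apply]
    exact hz2.2

/-- The recurrent points are dense. -/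
theorem rec_dense {Y : Type u} [MetricSpace Y] [CompactSpace Y] {T : Y → Y} (hT : Continuous T)
    (h : ∀ U : Set Y, IsOpen U → U.Nonempty → ∃ m : ℕ, 1 ≤ m ∧ ∃ y ∈ U, T^[m] y ∈ U) :
    Dense {y | ∀ ε : ℝ, 0 < ε → ∀ M : ℕ, ∃ n : ℕ, M ≤ n ∧ dist (T^[n] y) y < ε} := by
  let G : ℕ → Set Y := fun k => ⋃ n ∈ {n : ℕ | k ≤ n}, {y | dist (T^[n] y) y < 1 / (k + 1)}
  have hGo : ∀ k, IsOpen (G k) := fun k => isOpen_biUnion fun n _ =>
    isOpen_lt ((hT.iterate n).dist continuous_id) continuous_const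
  have hGd : ∀ k, Dense (G k) := by
    intro k
    rw [dense_iff_inter_open]
    rintro U hU ⟨y, hy⟩
    have hpos : (0 : ℝ) < 1 / (k + 1) / 2 := by positivity
    obtain ⟨m, hm, -, z, hz, hz2⟩ := nw_large hT h k (U ∩ ball y (1 / (k + 1) / 2))
      (hU.inter isOpen_ball) ⟨y, hy, mem_ball_self hpos⟩
    refine ⟨z, hz.1, ?_⟩
    simp only [G, mem_iUnion]
    refine ⟨m, hm, ?_⟩
    show dist (T^[m] z) z < 1 / (k + 1)
    have e1 := mem_ball.1 hz.2
    have e2 := mem_ball.1 hz2.2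
    have e3 := dist_triangle_right (T^[m] z) z y
    linarith
  have hd := dense_iInter_of_isOpen_nat hGo hGd
  refine hd.mono fun y hy ε hε M => ?_
  rw [mem_iInter] at hy
  obtain ⟨k, hk⟩ := exists_nat_one_div_lt hε
  have h1 := hy (max k M)
  simp only [G, mem_iUnion] at h1
  obtain ⟨n, hn, hn2⟩ := h1
  refine ⟨n, (le_max_right _ _).trans hn, lt_of_lt_of_le hn2 (le_trans ?_ hk.le)⟩
  apply one_div_le_one_div_of_le (by positivity)
  have : (k : ℝ) ≤ (max k M : ℕ) := by exact_mod_cast le_max_left k M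
  linarith

end Pool.Agent.KS6_4.CL
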