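import Pool.Agent.KS6_4.CL.Ext
import Pool.Agent.KS6_4.CL.Rec

/-!
# Saturated sets of extensions of subshifts
-/

set_option autoImplicit false

open Filter Set Metric Topology

universe u v

namespace Pool.Agent.KS6_4.CL

theorem sh_sh (a b : ℤ) (σ : Seq) : sh a (sh b σ) = sh (a + b) σ := by
  funext i
  simp only [sh]
  congr 1
  ring

theorem sh_zero (σ : Seq) : sh 0 σ = σ := by
  funext i
  simp [sh]

theorem SF.sh {σ τ : Seq} (h : SF σ τ) (n : ℕ) : SF (sh n σ) (sh n τ) := fun i hi =>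
  h (i + n) (by omega)

theorem SP.sh {σ τ : Seq} (h : SP σ τ) (n : ℕ) : SP (sh (-n) σ) (sh (-n) τ) := fun i hi =>
  h (i + -n) (by omega)

theorem SF.agr {σ τ : Seq} (h : SF σ τ) {n m : ℕ} (hm : m ≤ n) :
    agr m (CL.sh n σ) (CL.sh n τ) := fun i hi => by
  rw [abs_le] at hi
  exact h (i + n) (by omega)

theorem SP.agr {σ τ : Seq} (h : SP σ τ) {n m : ℕ} (hm : m < n) :
    agr m (CL.sh (-n) σ) (CL.sh (-n) τ) := fun i hi => by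
  rw [abs_le] at hi
  exact h (i + -n) (by omega)

/-- A closed shift invariant set with local product structure and dense periodic points. -/
structure Adm (𝒦 : Set Seq) : Prop where
  closed : IsClosed 𝒦
  inv : ∀ σ, σ ∈ 𝒦 ↔ sh 1 σ ∈ 𝒦
  splF : ∃ m : ℕ, ∀ σ ∈ 𝒦, ∀ τ ∈ 𝒦, (∀ i : ℤ, 0 ≤ i → i ≤ m → σ i = τ i) → spl σ τ ∈ 𝒦
  splP : ∃ m : ℕ, ∀ σ ∈ 𝒦, ∀ τ ∈ 𝒦, (∀ i : ℤ, -m ≤ i → i < 0 → σ i = τ i) → spl σ τ ∈ 𝒦
  per : ∀ σ ∈ 𝒦, ∀ m : ℕ, ∃ τ ∈ 𝒦, ∃ n : ℕ, 1 ≤ n ∧ sh n τ = τ ∧ agr m σ τ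

variable {E : Type u} {N : Type v} [MetricSpace E] [MetricSpace N]

namespace Ext

variable (X : Ext E N)

theorem pΦs (x : E) : X.p (X.Φ.symm x) = sh (-1) (X.p x) := by
  have h := X.pΦ (X.Φ.symm x)
  rw [X.Φ.apply_symm_apply] at h
  rw [h, sh_sh]
  norm_num [sh_zero]

theorem pΦn (n : ℕ) (x : E) : X.p (X.Φ^[n] x) = sh n (X.p x) := by
  induction n with
  | zero => simp [sh_zero]
  | succ n ih =>
    rw [Function.iterate_succ_apply', X.pΦ, ih, sh_sh]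
    congr 1
    push_cast
    ring

theorem pΦsn (n : ℕ) (x : E) : X.p (X.Φ.symm^[n] x) = sh (-n) (X.p x) := by
  induction n with
  | zero => simp [sh_zero]
  | succ n ih =>
    rw [Function.iterate_succ_apply', X.pΦs, ih, sh_sh]
    congr 1
    push_cast
    ring

theorem s_eqn (n : ℕ) (x : E) (τ : Seq) (h : SF (X.p x) τ) :
    X.Φ^[n] (X.Hs x τ) = X.Hs (X.Φ^[n] x) (sh n τ) := by
  induction n with
  | zero => simp [sh_zero]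
  | succ n ih =>
    rw [Function.iterate_succ_apply', ih, Function.iterate_succ_apply', X.s_eq _ _ (by
      rw [X.pΦn]; exact h.sh n), sh_sh]
    congr 2
    push_cast
    ring

theorem u_eqn (n : ℕ) (x : E) (τ : Seq) (h : SP (X.p x) τ) :
    X.Φ.symm^[n] (X.Hu x τ) = X.Hu (X.Φ.symm^[n] x) (sh (-n) τ) := by
  induction n with
  | zero => simp [sh_zero]
  | succ n ih =>
    rw [Function.iterate_succ_apply', ih, Function.iterate_succ_apply', X.u_eq _ _ (by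
      rw [X.pΦsn]; exact h.sh n), sh_sh]
    congr 2
    push_cast
    ring

theorem symm_iter (n : ℕ) (x : E) : X.Φ.symm^[n] (X.Φ^[n] x) = x := by
  have : Function.LeftInverse X.Φ.symm X.Φ := X.Φ.symm_apply_apply
  exact this.iterate n x

theorem iter_symm (n : ℕ) (x : E) : X.Φ^[n] (X.Φ.symm^[n] x) = x := by
  have : Function.LeftInverse X.Φ X.Φ.symm := X.Φ.apply_symm_apply
  exact this.iterate n x

/-- The return maps of the fibres over the periodic points are nonwandering. -/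
def NW : Prop :=
  ∀ (τ : Seq) (n : ℕ), 1 ≤ n → sh n τ = τ → ∀ x, X.p x = τ → ∀ W ∈ 𝓝 x,
    ∃ m : ℕ, 1 ≤ m ∧ ∃ y ∈ W, X.p y = τ ∧ X.Φ^[n * m] y ∈ W

variable [CompactSpace E]

theorem unif_s {η : ℝ} (hη : 0 < η) :
    ∃ (m : ℕ) (δ : ℝ), 0 < δ ∧ ∀ x y τ τ', SF (X.p x) τ → SF (X.p y) τ' → dist x y < δ →
      agr m τ τ' → dist (X.Hs x τ) (X.Hs y τ') < η :=
  hol_unif X.hp isClosed_SF X.s hη

theorem unif_u {η : ℝ} (hη : 0 < η) :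
    ∃ (m : ℕ) (δ : ℝ), 0 < δ ∧ ∀ x y τ τ', SP (X.p x) τ → SP (X.p y) τ' → dist x y < δ →
      agr m τ τ' → dist (X.Hu x τ) (X.Hu y τ') < η :=
  hol_unif X.hp isClosed_SP X.u hη

theorem near_s {η : ℝ} (hη : 0 < η) :
    ∃ m : ℕ, ∀ x τ, SF (X.p x) τ → agr m (X.p x) τ → dist (X.Hs x τ) x < η := by
  obtain ⟨m, δ, hδ, h⟩ := X.unif_s hη
  refine ⟨m, fun x τ h1 h2 => ?_⟩
  have h3 := h x x τ (X.p x) h1 (SF.refl _) (by rwa [dist_self]) h2.symm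
  rwa [X.s.id'] at h3

theorem near_u {η : ℝ} (hη : 0 < η) :
    ∃ m : ℕ, ∀ x τ, SP (X.p x) τ → agr m (X.p x) τ → dist (X.Hu x τ) x < η := by
  obtain ⟨m, δ, hδ, h⟩ := X.unif_u hη
  refine ⟨m, fun x τ h1 h2 => ?_⟩
  have h3 := h x x τ (X.p x) h1 (SP.refl _) (by rwa [dist_self]) h2.symm
  rwa [X.u.id'] at h3

/-- contraction along the stable holonomies -/
theorem contr_s {η : ℝ} (hη : 0 < η) :
    ∃ m : ℕ, ∀ n : ℕ, m ≤ n → ∀ x τ, SF (X.p x) τ →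
      dist (X.Φ^[n] (X.Hs x τ)) (X.Φ^[n] x) < η := by
  obtain ⟨m, h⟩ := X.near_s hη
  refine ⟨m, fun n hn x τ hx => ?_⟩
  rw [X.s_eqn n x τ hx]
  refine h _ _ ?_ ?_
  · rw [X.pΦn]; exact hx.sh n
  · rw [X.pΦn]; exact hx.agr hn

/-- contraction along the unstable holonomies -/
theorem contr_u {η : ℝ} (hη : 0 < η) :
    ∃ m : ℕ, ∀ n : ℕ, m ≤ n → ∀ x τ, SP (X.p x) τ →
      dist (X.Φ.symm^[n] (X.Hu x τ)) (X.Φ.symm^[n] x) < η := by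
  obtain ⟨m, h⟩ := X.near_u hη
  refine ⟨m + 1, fun n hn x τ hx => ?_⟩
  rw [X.u_eqn n x τ hx]
  refine h _ _ ?_ ?_
  · rw [X.pΦsn]; exact hx.sh n
  · rw [X.pΦsn]; exact hx.agr (by omega)

/-- points of nearby fibres -/
theorem fib_near {η : ℝ} (hη : 0 < η) :
    ∃ m : ℕ, ∀ x τ, agr m (X.p x) τ → ∃ y, X.p y = τ ∧ dist y x < η := by
  obtain ⟨m1, h1⟩ := X.near_u (half_pos hη)
  obtain ⟨m2, h2⟩ := X.near_s (half_pos hη)
  refine ⟨max m1 m2, fun x τ hx => ?_⟩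
  have e1 : agr (max m1 m2) (X.p x) (spl (X.p x) τ) := by
    intro i hi
    unfold spl
    split_ifs
    · rfl
    · exact hx i hi
  have e2 : agr (max m1 m2) (spl (X.p x) τ) τ := e1.symm.trans hx
  have e3 : SP (X.p x) (spl (X.p x) τ) := SP_spl _ _
  have e4 : SF (spl (X.p x) τ) τ := (SF_spl _ _).symm
  have e5 := X.u.fib x _ e3
  refine ⟨X.Hs (X.Hu x (spl (X.p x) τ)) τ, X.s.fib _ _ (by rw [e5]; exact e4), ?_⟩
  have d1 := h1 x _ e3 (e1.mono (le_max_left _ _))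
  have d2 := h2 (X.Hu x (spl (X.p x) τ)) τ (by rw [e5]; exact e4)
    (by rw [e5]; exact e2.mono (le_max_right _ _))
  have d3 := dist_triangle (X.Hs (X.Hu x (spl (X.p x) τ)) τ) (X.Hu x (spl (X.p x) τ)) x
  linarith

/-- periodic fibres are dense over `𝒦` -/
theorem per_near {𝒦 : Set Seq} (hK : Adm 𝒦) {G : Set E} (hG : IsOpen G) {x : E} (hx : x ∈ G)
    (hxK : X.p x ∈ 𝒦) : ∃ τ ∈ 𝒦, ∃ n : ℕ, 1 ≤ n ∧ sh n τ = τ ∧ ∃ y ∈ G, X.p y = τ := by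
  obtain ⟨η, hη, hη2⟩ := Metric.isOpen_iff.1 hG x hx
  obtain ⟨m, hm⟩ := X.fib_near hη
  obtain ⟨τ, hτ, n, hn, hn2, hn3⟩ := hK.per _ hxK m
  obtain ⟨y, hy, hy2⟩ := hm x τ hn3
  exact ⟨τ, hτ, n, hn, hn2, y, hη2 (mem_ball.2 hy2), hy⟩

/-- the return map of a periodic fibre -/
def ret {τ : Seq} {n : ℕ} (hn : sh n τ = τ) (y : {x // X.p x = τ}) : {x // X.p x = τ} :=
  ⟨X.Φ^[n] y, by rw [X.pΦn, y.2, hn]⟩

theorem sh_neg_per {τ : Seq} {n : ℕ} (hn : sh n τ = τ) : sh (-n) τ = τ := by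
  conv_lhs => rw [← hn]
  rw [sh_sh]
  simp [sh_zero]

/-- the inverse of the return map of a periodic fibre -/
def rets {τ : Seq} {n : ℕ} (hn : sh n τ = τ) (y : {x // X.p x = τ}) : {x // X.p x = τ} :=
  ⟨X.Φ.symm^[n] y, by rw [X.pΦsn, y.2, sh_neg_per hn]⟩

omit [CompactSpace E] in
theorem ret_iter {τ : Seq} {n : ℕ} (hn : sh n τ = τ) (m : ℕ) (y : {x // X.p x = τ}) :
    ((X.ret hn)^[m] y : E) = X.Φ^[n * m] y := by
  induction m with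
  | zero => simp
  | succ m ih =>
    rw [Function.iterate_succ_apply']
    show X.Φ^[n] _ = _
    rw [ih, ← Function.iterate_add_apply]
    congr 1
    ring_nf

omit [CompactSpace E] in
theorem rets_iter {τ : Seq} {n : ℕ} (hn : sh n τ = τ) (m : ℕ) (y : {x // X.p x = τ}) :
    ((X.rets hn)^[m] y : E) = X.Φ.symm^[n * m] y := by
  induction m with
  | zero => simp
  | succ m ih =>
    rw [Function.iterate_succ_apply']
    show X.Φ.symm^[n] _ = _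
    rw [ih, ← Function.iterate_add_apply]
    congr 1
    ring_nf

theorem rec_fibre (hNW : X.NW) {τ : Seq} {n : ℕ} (hn1 : 1 ≤ n) (hn : sh n τ = τ) {G : Set E}
    (hG : IsOpen G) {x : E} (hx : x ∈ G) (hxτ : X.p x = τ) :
    (∃ w ∈ G, X.p w = τ ∧ ∀ ε : ℝ, 0 < ε → ∀ M : ℕ, ∃ k : ℕ, M ≤ k ∧ dist (X.Φ^[k] w) w < ε) ∧
    (∃ w ∈ G, X.p w = τ ∧ ∀ ε : ℝ, 0 < ε → ∀ M : ℕ, ∃ k : ℕ, M ≤ k ∧
      dist (X.Φ.symm^[k] w) w < ε) := by
  have hcl : IsClosed {x | X.p x = τ} := isClosed_eq X.hp continuous_const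
  have : CompactSpace {x // X.p x = τ} := isCompact_iff_compactSpace.1 hcl.isCompact
  have hT : Continuous (X.ret hn) :=
    ((X.Φ.continuous.iterate n).comp continuous_subtype_val).subtype_mk _
  have hT' : Continuous (X.rets hn) :=
    ((X.Φ.symm.continuous.iterate n).comp continuous_subtype_val).subtype_mk _
  have hnw : ∀ U : Set {x // X.p x = τ}, IsOpen U → U.Nonempty →
      ∃ m : ℕ, 1 ≤ m ∧ ∃ y ∈ U, (X.ret hn)^[m] y ∈ U := by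
    intro U hU hne
    obtain ⟨U', hU', rfl⟩ := isOpen_induced_iff.1 hU
    obtain ⟨y, hy⟩ := hne
    obtain ⟨m, hm, z, hz, hz2, hz3⟩ := hNW τ n hn1 hn y y.2 U' (hU'.mem_nhds hy)
    refine ⟨m, hm, ⟨z, hz2⟩, hz, ?_⟩
    show ((X.ret hn)^[m] ⟨z, hz2⟩ : E) ∈ U'
    rw [X.ret_iter]
    exact hz3
  have hnw' : ∀ U : Set {x // X.p x = τ}, IsOpen U → U.Nonempty →
      ∃ m : ℕ, 1 ≤ m ∧ ∃ y ∈ U, (X.rets hn)^[m] y ∈ U := by
    intro U hU hne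
    obtain ⟨m, hm, y, hy, hy2⟩ := hnw U hU hne
    refine ⟨m, hm, _, hy2, ?_⟩
    have : (X.rets hn)^[m] ((X.ret hn)^[m] y) = y := by
      apply Subtype.ext
      rw [X.rets_iter, X.ret_iter, X.symm_iter]
    rw [this]
    exact hy
  have hGo : IsOpen (Subtype.val ⁻¹' G : Set {x // X.p x = τ}) := hG.preimage continuous_subtype_val
  constructor
  · obtain ⟨w, hw, hw2⟩ := (rec_dense hT hnw).inter_open_nonempty _ hGo ⟨⟨x, hxτ⟩, hx⟩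
    refine ⟨w, hw, w.2, fun ε hε M => ?_⟩
    obtain ⟨k, hk, hk2⟩ := hw2 ε hε M
    refine ⟨n * k, hk.trans (Nat.le_mul_of_pos_left k hn1), ?_⟩
    rw [Subtype.dist_eq, X.ret_iter] at hk2
    exact hk2
  · obtain ⟨w, hw, hw2⟩ := (rec_dense hT' hnw').inter_open_nonempty _ hGo ⟨⟨x, hxτ⟩, hx⟩
    refine ⟨w, hw, w.2, fun ε hε M => ?_⟩
    obtain ⟨k, hk, hk2⟩ := hw2 ε hε M
    refine ⟨n * k, hk.trans (Nat.le_mul_of_pos_left k hn1), ?_⟩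
    rw [Subtype.dist_eq, X.rets_iter] at hk2
    exact hk2

/-- recurrent points are dense over `𝒦` -/
theorem rec_pos (hNW : X.NW) {𝒦 : Set Seq} (hK : Adm 𝒦) {G : Set E} (hG : IsOpen G) {x : E}
    (hx : x ∈ G) (hxK : X.p x ∈ 𝒦) : ∃ w ∈ G, X.p w ∈ 𝒦 ∧
      ∀ ε : ℝ, 0 < ε → ∀ M : ℕ, ∃ k : ℕ, M ≤ k ∧ dist (X.Φ^[k] w) w < ε := by
  obtain ⟨τ, hτ, n, hn, hn2, y, hy, hy2⟩ := X.per_near hK hG hx hxK
  obtain ⟨w, hw, hw2, hw3⟩ := (X.rec_fibre hNW hn hn2 hG hy hy2).1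
  exact ⟨w, hw, by rw [hw2]; exact hτ, hw3⟩

theorem rec_neg (hNW : X.NW) {𝒦 : Set Seq} (hK : Adm 𝒦) {G : Set E} (hG : IsOpen G) {x : E}
    (hx : x ∈ G) (hxK : X.p x ∈ 𝒦) : ∃ w ∈ G, X.p w ∈ 𝒦 ∧
      ∀ ε : ℝ, 0 < ε → ∀ M : ℕ, ∃ k : ℕ, M ≤ k ∧ dist (X.Φ.symm^[k] w) w < ε := by
  obtain ⟨τ, hτ, n, hn, hn2, y, hy, hy2⟩ := X.per_near hK hG hx hxK
  obtain ⟨w, hw, hw2, hw3⟩ := (X.rec_fibre hNW hn hn2 hG hy hy2).2
  exact ⟨w, hw, by rw [hw2]; exact hτ, hw3⟩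

end Ext

end Pool.Agent.KS6_4.CL
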