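import Pool.Agent.KS6_4.CL.Sat

/-!
# The closure of the forward orbit of an open set is saturated
-/

set_option autoImplicit false

open Filter Set Metric Topology

universe u v

namespace Pool.Agent.KS6_4.CL

variable {E : Type u} {N : Type v} [MetricSpace E] [MetricSpace N]

namespace Ext

variable (X : Ext E N)

/-- the forward orbit of `U` -/
def Fwd (U : Set E) : Set E := {x | ∃ j : ℕ, X.Φ.symm^[j] x ∈ U}

/-- the closure of the forward orbit of `U` over `𝒦` -/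
def Orb (𝒦 : Set Seq) (U : Set E) : Set E := closure (X.Fwd U ∩ {x | X.p x ∈ 𝒦})

theorem isOpen_Fwd {U : Set E} (hU : IsOpen U) : IsOpen (X.Fwd U) := by
  have : X.Fwd U = ⋃ j : ℕ, X.Φ.symm^[j] ⁻¹' U := by
    ext x; simp [Fwd]
  rw [this]
  exact isOpen_iUnion fun j => hU.preimage (X.Φ.symm.continuous.iterate j)

theorem fwd_Fwd {U : Set E} {x : E} (hx : x ∈ X.Fwd U) : X.Φ x ∈ X.Fwd U := by
  obtain ⟨j, hj⟩ := hx
  refine ⟨j + 1, ?_⟩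
  rw [Function.iterate_succ_apply, X.Φ.symm_apply_apply]
  exact hj

theorem fwdn_Fwd {U : Set E} {x : E} (hx : x ∈ X.Fwd U) (n : ℕ) : X.Φ^[n] x ∈ X.Fwd U := by
  induction n with
  | zero => exact hx
  | succ n ih =>
    rw [Function.iterate_succ_apply']
    exact X.fwd_Fwd ih

variable {X}
variable {𝒦 : Set Seq} (hK : Adm 𝒦)
include hK

theorem closed_fib : IsClosed {x | X.p x ∈ 𝒦} := hK.closed.preimage X.hp

theorem Orb_sub {U : Set E} {x : E} (hx : x ∈ X.Orb 𝒦 U) : X.p x ∈ 𝒦 := by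
  have h : X.Orb 𝒦 U ⊆ {x | X.p x ∈ 𝒦} :=
    closure_minimal inter_subset_right (closed_fib hK)
  exact h hx

theorem inv_symm {σ : Seq} (h : σ ∈ 𝒦) : sh (-1) σ ∈ 𝒦 := by
  rw [hK.inv, sh_sh]
  simpa [sh_zero] using h

theorem inv_n {σ : Seq} (h : σ ∈ 𝒦) (n : ℕ) : sh n σ ∈ 𝒦 := by
  induction n with
  | zero => simpa [sh_zero] using h
  | succ n ih =>
    have := (hK.inv _).1 ih
    rw [sh_sh] at this
    convert this using 2
    push_cast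
    ring

omit hK in
/-- a criterion for membership -/
theorem mem_Orb_of {U : Set E} {y : E}
    (h : ∀ V : Set E, IsOpen V → y ∈ V → ∃ w ∈ V, w ∈ X.Orb 𝒦 U) : y ∈ X.Orb 𝒦 U := by
  rw [Orb, ← closure_closure]
  rw [_root_.mem_closure_iff]
  intro V hV hy
  obtain ⟨w, hw, hw2⟩ := h V hV hy
  exact ⟨w, hw, hw2⟩

theorem Orb_fwd {U : Set E} {x : E} (hx : x ∈ X.Orb 𝒦 U) : X.Φ x ∈ X.Orb 𝒦 U := by
  refine map_mem_closure X.Φ.continuous hx ?_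
  rintro y ⟨h1, h2⟩
  refine ⟨X.fwd_Fwd h1, ?_⟩
  show X.p (X.Φ y) ∈ 𝒦
  rw [X.pΦ]
  exact (hK.inv _).1 h2

theorem Orb_fwdn {U : Set E} {x : E} (hx : x ∈ X.Orb 𝒦 U) (n : ℕ) : X.Φ^[n] x ∈ X.Orb 𝒦 U := by
  induction n with
  | zero => exact hx
  | succ n ih =>
    rw [Function.iterate_succ_apply']
    exact Orb_fwd hK ih

variable [CompactSpace E] (hNW : X.NW)
include hNW

theorem Orb_back {U : Set E} (hU : IsOpen U) {x : E} (hx : x ∈ X.Orb 𝒦 U) :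
    X.Φ.symm x ∈ X.Orb 𝒦 U := by
  rw [Orb, _root_.mem_closure_iff]
  intro V hV hxV
  have hV' : IsOpen (X.Φ.symm ⁻¹' V) := hV.preimage X.Φ.symm.continuous
  obtain ⟨y, hy, hy2, hy3⟩ := _root_.mem_closure_iff.1 hx _ hV' hxV
  have h1 : IsOpen (V ∩ X.Φ ⁻¹' (X.Fwd U)) := hV.inter ((X.isOpen_Fwd hU).preimage X.Φ.continuous)
  have h2 : X.Φ.symm y ∈ V ∩ X.Φ ⁻¹' (X.Fwd U) := ⟨hy, by
    show X.Φ (X.Φ.symm y) ∈ X.Fwd U
    rw [X.Φ.apply_symm_apply]; exact hy2⟩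
  have h3 : X.p (X.Φ.symm y) ∈ 𝒦 := by
    rw [X.pΦs]
    exact inv_symm hK hy3
  obtain ⟨w, hw, hwK, hrec⟩ := X.rec_pos hNW hK h1 h2 h3
  obtain ⟨ε, hε, hεV⟩ := Metric.isOpen_iff.1 hV w hw.1
  obtain ⟨k, hk, hk2⟩ := hrec ε hε 1
  obtain ⟨j, rfl⟩ : ∃ j, k = j + 1 := ⟨k - 1, by omega⟩
  refine ⟨X.Φ^[j + 1] w, hεV (mem_ball.2 hk2), ?_, ?_⟩
  · rw [Function.iterate_succ_apply]
    exact X.fwdn_Fwd hw.2 j
  · show X.p _ ∈ 𝒦
    rw [X.pΦn]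
    exact inv_n hK hwK _

theorem Orb_backn {U : Set E} (hU : IsOpen U) {x : E} (hx : x ∈ X.Orb 𝒦 U) (n : ℕ) :
    X.Φ.symm^[n] x ∈ X.Orb 𝒦 U := by
  induction n with
  | zero => exact hx
  | succ n ih =>
    rw [Function.iterate_succ_apply']
    exact Orb_back hK hNW hU ih

theorem of_fwdn {U : Set E} (hU : IsOpen U) {x : E} {n : ℕ} (hx : X.Φ^[n] x ∈ X.Orb 𝒦 U) :
    x ∈ X.Orb 𝒦 U := by
  have := Orb_backn hK hNW hU hx n
  rwa [X.symm_iter] at this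

/-- saturation by stable holonomies -/
theorem Orb_s {U : Set E} (hU : IsOpen U) {x : E} (hx : x ∈ X.Orb 𝒦 U) {τ : Seq} (hτ : τ ∈ 𝒦)
    (hxτ : SF (X.p x) τ) : X.Hs x τ ∈ X.Orb 𝒦 U := by
  apply mem_Orb_of
  intro V hV hxV
  obtain ⟨ε, hε, hεV⟩ := Metric.isOpen_iff.1 hV _ hxV
  obtain ⟨m, δ, hδ, hc⟩ := X.unif_s hε
  obtain ⟨m', hm'⟩ := hK.splF
  obtain ⟨δ', hδ', hc'⟩ := agr_of_close X.hp (max m m')
  have hxK := Orb_sub hK hx
  have hG : IsOpen (ball x (min δ δ') ∩ X.Fwd U) := isOpen_ball.inter (X.isOpen_Fwd hU)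
  obtain ⟨y, hy, hy2, hy3⟩ := _root_.mem_closure_iff.1 hx _ isOpen_ball
    (mem_ball_self (lt_min hδ hδ'))
  obtain ⟨w, hw, hwK, hrec⟩ := X.rec_pos hNW hK hG ⟨hy, hy2⟩ hy3
  have hd := mem_ball.1 hw.1
  have ha : agr (max m m') (X.p w) (X.p x) := hc' _ _ (hd.trans_le (min_le_right _ _))
  have hτw : spl τ (X.p w) ∈ 𝒦 := by
    refine hm' τ hτ _ hwK fun i hi hi2 => ?_
    rw [ha i (by rw [abs_of_nonneg hi]; exact hi2.trans (by exact_mod_cast le_max_right _ _))]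
    exact (hxτ i hi).symm
  have hSF : SF (X.p w) (spl τ (X.p w)) := SF_spl _ _
  have hagr : agr m (spl τ (X.p w)) τ := by
    intro i hi
    unfold spl
    split_ifs with h0
    · rfl
    · rw [ha i (hi.trans (by exact_mod_cast le_max_left _ _))]
      exact hxτ i (not_lt.1 h0)
  have hV2 : X.Hs w (spl τ (X.p w)) ∈ V := by
    apply hεV
    exact mem_ball.2 (hc w x _ τ hSF hxτ (hd.trans_le (min_le_left _ _)) hagr)
  refine ⟨_, hV2, ?_⟩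
  -- the iterates return to the forward orbit
  obtain ⟨ε', hε', hεA⟩ := Metric.isOpen_iff.1 (X.isOpen_Fwd hU) w hw.2
  obtain ⟨M, hM⟩ := X.contr_s (half_pos hε')
  obtain ⟨k, hk, hk2⟩ := hrec _ (half_pos hε') M
  have h1 := hM k hk w _ hSF
  have h2 : X.Φ^[k] (X.Hs w (spl τ (X.p w))) ∈ X.Fwd U := by
    apply hεA
    rw [mem_ball]
    have := dist_triangle (X.Φ^[k] (X.Hs w (spl τ (X.p w)))) (X.Φ^[k] w) w
    linarith
  refine of_fwdn hK hNW hU (n := k) (subset_closure ⟨h2, ?_⟩)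
  show X.p _ ∈ 𝒦
  rw [X.pΦn, X.s.fib _ _ hSF]
  exact inv_n hK hτw _

/-- saturation by unstable holonomies -/
theorem Orb_u {U : Set E} (hU : IsOpen U) {x : E} (hx : x ∈ X.Orb 𝒦 U) {τ : Seq} (hτ : τ ∈ 𝒦)
    (hxτ : SP (X.p x) τ) : X.Hu x τ ∈ X.Orb 𝒦 U := by
  rw [Orb, _root_.mem_closure_iff]
  intro V hV hxV
  obtain ⟨ε, hε, hεV⟩ := Metric.isOpen_iff.1 hV _ hxV
  obtain ⟨m, δ, hδ, hc⟩ := X.unif_u hε
  obtain ⟨m', hm'⟩ := hK.splP
  obtain ⟨δ', hδ', hc'⟩ := agr_of_close X.hp (max m m')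
  have hxK := Orb_sub hK hx
  have hG : IsOpen (ball x (min δ δ') ∩ X.Fwd U) := isOpen_ball.inter (X.isOpen_Fwd hU)
  obtain ⟨y, hy, hy2, hy3⟩ := _root_.mem_closure_iff.1 hx _ isOpen_ball
    (mem_ball_self (lt_min hδ hδ'))
  obtain ⟨w, hw, hwK, hrec⟩ := X.rec_neg hNW hK hG ⟨hy, hy2⟩ hy3
  have hd := mem_ball.1 hw.1
  have ha : agr (max m m') (X.p w) (X.p x) := hc' _ _ (hd.trans_le (min_le_right _ _))
  have hτw : spl (X.p w) τ ∈ 𝒦 := by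
    refine hm' _ hwK τ hτ fun i hi hi2 => ?_
    rw [ha i (by
      rw [abs_of_neg hi2]
      have : (m' : ℤ) ≤ (max m m' : ℕ) := by exact_mod_cast le_max_right _ _
      omega)]
    exact hxτ i hi2
  have hSP : SP (X.p w) (spl (X.p w) τ) := SP_spl _ _
  have hagr : agr m (spl (X.p w) τ) τ := by
    intro i hi
    unfold spl
    split_ifs with h0
    · rw [ha i (hi.trans (by exact_mod_cast le_max_left _ _))]
      exact hxτ i h0
    · rfl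
  have hV2 : X.Hu w (spl (X.p w) τ) ∈ V := by
    apply hεV
    exact mem_ball.2 (hc w x _ τ hSP hxτ (hd.trans_le (min_le_left _ _)) hagr)
  refine ⟨_, hV2, ?_, ?_⟩
  · obtain ⟨ε', hε', hεA⟩ := Metric.isOpen_iff.1 (X.isOpen_Fwd hU) w hw.2
    obtain ⟨M, hM⟩ := X.contr_u (half_pos hε')
    obtain ⟨k, hk, hk2⟩ := hrec _ (half_pos hε') M
    have h1 := hM k hk w _ hSP
    have h2 : X.Φ.symm^[k] (X.Hu w (spl (X.p w) τ)) ∈ X.Fwd U := by
      apply hεA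
      rw [mem_ball]
      have := dist_triangle (X.Φ.symm^[k] (X.Hu w (spl (X.p w) τ))) (X.Φ.symm^[k] w) w
      linarith
    have h3 := X.fwdn_Fwd h2 k
    rwa [X.iter_symm] at h3
  · show X.p _ ∈ 𝒦
    rw [X.u.fib _ _ hSP]
    exact hτw

/-- points of `Orb` are approached by late iterates of points of `U` -/
theorem Orb_reach {U : Set E} (hU : IsOpen U) {y : E} (hy : y ∈ X.Orb 𝒦 U) {V : Set E}
    (hV : IsOpen V) (hyV : y ∈ V) (M : ℕ) :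
    ∃ x ∈ U, X.p x ∈ 𝒦 ∧ ∃ j : ℕ, M ≤ j ∧ X.Φ^[j] x ∈ V := by
  obtain ⟨z, hz, ⟨j, hj⟩, hz3⟩ := _root_.mem_closure_iff.1 hy V hV hyV
  have h1 : IsOpen (U ∩ X.Φ^[j] ⁻¹' V) := hU.inter (hV.preimage (X.Φ.continuous.iterate j))
  have h2 : X.Φ.symm^[j] z ∈ U ∩ X.Φ^[j] ⁻¹' V := ⟨hj, by
    show X.Φ^[j] _ ∈ V
    rw [X.iter_symm]; exact hz⟩
  have h3 : X.p (X.Φ.symm^[j] z) ∈ 𝒦 := by
    clear h1 h2 hj
    induction j with
    | zero => exact hz3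
    | succ j ih =>
      rw [Function.iterate_succ_apply', X.pΦs]
      exact inv_symm hK ih
  obtain ⟨w, hw, hwK, hrec⟩ := X.rec_pos hNW hK h1 h2 h3
  -- `Φ^j` is continuous at `w`
  have hc : ContinuousAt (X.Φ^[j]) w := (X.Φ.continuous.iterate j).continuousAt
  obtain ⟨ε, hε, hε2⟩ := Metric.mem_nhds_iff.1 (hc (hV.mem_nhds hw.2))
  obtain ⟨k, hk, hk2⟩ := hrec ε hε M
  refine ⟨w, hw.1, hwK, j + k, by omega, ?_⟩
  rw [Function.iterate_add_apply]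
  exact hε2 (mem_ball.2 hk2)

end Ext

end Pool.Agent.KS6_4.CL
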