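import Pool.Agent.KS6_4.CL.Close

/-!
# The tree of holonomies
-/

set_option autoImplicit false

open Filter Set Metric Topology

universe u v

namespace Pool.Agent.KS6_4.CL

/-- the zero word -/
def v0 : ℤ → Fin 3 := fun _ => 0

/-- the word with `n₀` zeros, the code of `i` and the free word `f` of length `t` -/
def vv (n₀ L : ℕ) (i : ℕ) (f : ℕ → Bool) : ℤ → Fin 3 := fun j =>
  if j ≤ n₀ then 0 else if j ≤ n₀ + L then (if j = n₀ + 1 + i then 1 else 0)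
    else if f (j - n₀ - L - 1).toNat then 1 else 0

theorem vv_ne_two {n₀ L i : ℕ} {f : ℕ → Bool} (j : ℤ) : vv n₀ L i f j ≠ 2 := by
  unfold vv
  split_ifs <;> decide

theorem vv_zero {n₀ L i : ℕ} {f : ℕ → Bool} {j : ℤ} (h : j ≤ n₀) : vv n₀ L i f j = 0 := by
  unfold vv
  rw [if_pos h]

theorem vv_code {n₀ L i : ℕ} {f : ℕ → Bool} (hi : i < L) :
    vv n₀ L i f (n₀ + 1 + i) = 1 := by
  unfold vv
  rw [if_neg (by omega), if_pos (by omega), if_pos rfl]

theorem vv_code' {n₀ L i i' : ℕ} {f : ℕ → Bool} (hi : i < L) (h : i ≠ i') :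
    vv n₀ L i' f (n₀ + 1 + i) = 0 := by
  unfold vv
  rw [if_neg (by omega), if_pos (by omega), if_neg (by omega)]

theorem vv_free {n₀ L i : ℕ} {f : ℕ → Bool} (a : ℕ) :
    vv n₀ L i f (n₀ + L + 1 + a) = if f a then 1 else 0 := by
  unfold vv
  rw [if_neg (by omega), if_neg (by omega)]
  have : ((n₀ : ℤ) + L + 1 + a - n₀ - L - 1).toNat = a := by omega
  rw [this]

/-- different words -/
theorem vv_ne {n₀ L t i i' : ℕ} {f f' : ℕ → Bool} (hi : i < L)
    (h : i ≠ i' ∨ ∃ a < t, f a ≠ f' a) :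
    ∃ j : ℤ, 1 ≤ j ∧ j ≤ (n₀ + L + t : ℕ) ∧ vv n₀ L i' f' j ≠ vv n₀ L i f j := by
  by_cases hii : i = i'
  · obtain ⟨a, ha, hfa⟩ := h.resolve_left (by simpa using hii)
    refine ⟨n₀ + L + 1 + a, by omega, by push_cast; omega, ?_⟩
    rw [vv_free, vv_free]
    cases h1 : f a <;> cases h2 : f' a <;> simp_all
  · refine ⟨n₀ + 1 + i, by omega, by push_cast; omega, ?_⟩
    rw [vv_code hi, vv_code' hi hii]
    decide

theorem v0_ne {n₀ L t i : ℕ} {f : ℕ → Bool} (hi : i < L) :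
    ∃ j : ℤ, 1 ≤ j ∧ j ≤ (n₀ + L + t : ℕ) ∧ v0 j ≠ vv n₀ L i f j := by
  refine ⟨n₀ + 1 + i, by omega, by push_cast; omega, ?_⟩
  rw [vv_code hi]
  simp [v0]

theorem v0_ne_two (j : ℤ) : v0 j ≠ 2 := by simp [v0]

theorem bb_v0 (n : ℕ) : bb n v0 = bb 0 v0 := by
  funext i
  unfold bb
  by_cases h : i = 0
  · rw [if_pos h, if_pos h]
  · rw [if_neg h, if_neg h]
    simp [v0]

theorem p3_v0 (n : ℕ) : p3 n v0 = A0 := by
  funext i
  unfold p3 spl
  split_ifs with h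
  · rfl
  · simp only [sh, bb]
    rw [if_neg (by omega)]
    simp [v0, A0]

variable {E : Type u} {N : Type v} [MetricSpace E] [MetricSpace N]

namespace Ext

variable {X : Ext E N} {F : N → N} {P : ℕ} {Λ c₀ : ℝ}

theorem R_v0 (n : ℕ) (w : E) : X.R n v0 w = X.R 0 v0 w := by
  unfold R
  rw [p3_v0, p3_v0, bb_v0 n]

section close
variable [CompactSpace E]

theorem agr_p3 {n n₀ : ℕ} {v : ℤ → Fin 3} (hv : ∀ j : ℤ, 1 ≤ j → j ≤ n₀ + 1 → v j = 0) :
    agr n₀ (p3 n v) A0 := by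
  intro i hi
  unfold p3 spl
  split_ifs with h
  · rfl
  · simp only [sh, bb]
    rw [if_neg (by omega)]
    split_ifs with h2
    · rw [hv _ (by omega) (by have := (abs_le.1 hi).2; omega)]
      rfl
    · rfl

theorem agr_bb {n n₀ : ℕ} {v : ℤ → Fin 3} (hv : ∀ j : ℤ, 1 ≤ j → j ≤ n₀ + 1 → v j = 0) :
    agr n₀ (sh 1 (bb n v)) (sh 1 (bb 0 v0)) := by
  intro i hi
  simp only [sh, bb]
  split_ifs with h1 h2 h3 h4
  · rfl
  · omega
  · rw [hv _ (by omega) (by have := (abs_le.1 hi).2; omega)]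
  · simp [v0]
  · rfl

/-- closeness of the holonomies for words which begin with many zeros -/
theorem R_near (X : Ext E N) {η : ℝ} (hη : 0 < η) : ∃ (n₀ : ℕ) (δ : ℝ), 0 < δ ∧
    ∀ (n : ℕ) (v : ℤ → Fin 3), (∀ j : ℤ, 1 ≤ j → j ≤ n₀ + 1 → v j = 0) →
    ∀ w w', X.p w = A0 → X.p w' = A0 → dist w w' < δ → dist (X.R n v w) (X.R 0 v0 w') < η := by
  obtain ⟨d1, hd1, h1⟩ := Metric.uniformContinuous_iff.1
    (CompactSpace.uniformContinuous_of_continuous X.Φ.symm.continuous) η hη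
  obtain ⟨m2, d2, hd2, h2⟩ := X.unif_s hd1
  obtain ⟨m3, d3, hd3, h3⟩ := X.unif_u hd2
  refine ⟨max m2 m3, d3, hd3, fun n v hv w w' hw hw' hd => ?_⟩
  apply h1
  refine h2 _ _ _ _ (by rw [p_Hu_p3 hw]; exact SF_p3) (by rw [p_Hu_p3 hw']; exact SF_p3)
    (h3 _ _ _ _ (by rw [hw]; exact SP_p3) (by rw [hw']; exact SP_p3) hd ?_) ?_
  · rw [p3_v0]
    exact (agr_p3 hv).mono (le_max_right _ _)
  · exact (agr_bb hv).mono (le_max_left _ _)

theorem T_near (X : Ext E N) {η : ℝ} (hη : 0 < η) : ∃ n₀ : ℕ,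
    ∀ (n : ℕ) (v : ℤ → Fin 3), (∀ j : ℤ, 1 ≤ j → j ≤ n₀ + 1 → v j = 0) →
    ∀ w, X.p w = A0 → dist (X.q (X.T n v w)) (X.q (X.T n v0 w)) < η := by
  obtain ⟨d0, hd0, hq0⟩ := X.unif_q hη
  obtain ⟨m1, d1, hd1, h1⟩ := X.unif_u hd0
  obtain ⟨n₀, d2, hd2, h2⟩ := R_near X hd1
  refine ⟨n₀, fun n v hv w hw => ?_⟩
  apply hq0
  refine h1 _ _ _ _ (by rw [p_R hw]; exact SP_bb) (by rw [p_R hw]; exact SP_bb) ?_ (agr.refl _ _)
  rw [R_v0]
  exact h2 n v hv w w hw hw (by rwa [dist_self])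

end close

/-- the move -/
def θ (X : Ext E N) (n : ℕ) (v : ℤ → Fin 3) (w : E) : E := X.Ti n v0 (X.T n v w)

/-- the inverse move -/
def θi (X : Ext E N) (n : ℕ) (v : ℤ → Fin 3) (w : E) : E := X.Ti n v (X.T n v0 w)

variable {n : ℕ} {v : ℤ → Fin 3}

theorem p_θ {w : E} (hw : X.p w = A0) : X.p (X.θ n v w) = A0 := p_Ti (p_T hw)

theorem p_θi {w : E} (hw : X.p w = A0) : X.p (X.θi n v w) = A0 := p_Ti (p_T hw)

theorem θ_θi {w : E} (hw : X.p w = A0) : X.θ n v (X.θi n v w) = w := by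
  rw [θ, θi, T_Ti (p_T hw), Ti_T hw]

theorem θi_θ {w : E} (hw : X.p w = A0) : X.θi n v (X.θ n v w) = w := by
  rw [θ, θi, T_Ti (p_T hw), Ti_T hw]

theorem lip_θi (hX : Cov X F P Λ c₀) {w w' : E} (hw : X.p w = A0) (hw' : X.p w' = A0) :
    dist (X.q (X.θi n v w)) (X.q (X.θi n v w')) ≤ (Λ * X.C ^ 3) ^ 2 * dist (X.q w) (X.q w') := by
  have h0 : 0 ≤ Λ * X.C ^ 3 := by
    have := hX.Λ1
    have := X.C1
    positivity
  have h1 := lip_T (n := n) (v := v0) hX hw hw'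
  have h2 := lip_Ti (n := n) (v := v) hX (p_T (n := n) (v := v0) hw) (p_T (n := n) (v := v0) hw')
  calc _ ≤ _ := h2
    _ ≤ Λ * X.C ^ 3 * (Λ * X.C ^ 3 * dist (X.q w) (X.q w')) := mul_le_mul_of_nonneg_left h1 h0
    _ = _ := by ring

/-- the points of the tree -/
def W (X : Ext E N) (n n₀ L : ℕ) (w : E) (ω : ℕ → ℕ → Bool) : ℕ → E
  | 0 => w
  | (i + 1) => X.θ n (vv n₀ L i (ω i)) (W X n n₀ L w ω i)

theorem p_W {n₀ L : ℕ} {w : E} (hw : X.p w = A0) (ω : ℕ → ℕ → Bool) (i : ℕ) :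
    X.p (X.W n n₀ L w ω i) = A0 := by
  induction i with
  | zero => exact hw
  | succ i ih => exact p_θ ih

theorem W_congr {n₀ L : ℕ} {w : E} {ω ω' : ℕ → ℕ → Bool} {i : ℕ} (h : ∀ j < i, ω j = ω' j) :
    X.W n n₀ L w ω i = X.W n n₀ L w ω' i := by
  induction i with
  | zero => rfl
  | succ i ih =>
    rw [W, W, ih fun j hj => h j (by omega), h i (by omega)]

/-- the endpoints of the tree are separated -/
theorem sep_W [CompactSpace E] (hX : Cov X F P Λ c₀) (hNW : X.NW) {n₀ L t : ℕ} {w₀ : E}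
    (hw₀ : X.p w₀ = A0) {z₀ : N} {κ : ℝ} {k M : ℕ} (hκ : 0 < κ)
    (hno : ¬ MC F z₀ κ k M) (hn : n = n₀ + L + t)
    (hz : ∀ (ω : ℕ → ℕ → Bool) (i : ℕ) (f : ℕ → Bool), i < L →
      dist (X.q (X.R n (vv n₀ L i f) (X.W n n₀ L w₀ ω i))) z₀ < κ / 2)
    (hρ : c₀ / (2 * Λ ^ n) < κ)
    {δ : ℝ} (hδ : 0 < δ) (hδ1 : 4 * (Λ * X.C) * δ ≤ κ * (c₀ / (2 * Λ ^ n)) ^ k)
    (hδ2 : 4 * (Λ * X.C) * δ ≤ κ) {ω ω' : ℕ → ℕ → Bool}
    (hT : ∀ i a, t ≤ a → ω i a = ω' i a) (hω : ∃ i < L, ω i ≠ ω' i) :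
    δ / (X.C * ((Λ * X.C ^ 3) ^ 2) ^ L) ≤
      dist (X.q (X.W n n₀ L w₀ ω L)) (X.q (X.W n n₀ L w₀ ω' L)) := by
  classical
  by_contra hcon
  rw [not_le] at hcon
  apply hno
  have hC1 := X.C1
  have hΛ1 := hX.Λ1
  have hC : 0 < X.C := by linarith
  have hΛ : 0 < Λ := by linarith
  set K := (Λ * X.C ^ 3) ^ 2 with hK
  have hK1 : 1 ≤ K := by
    have : 1 ≤ Λ * X.C ^ 3 := one_le_mul_of_one_le_of_one_le hΛ1 (one_le_pow₀ hC1)
    exact one_le_pow₀ this
  -- the first difference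
  obtain ⟨i, hiL, hi, hmin⟩ : ∃ i < L, ω i ≠ ω' i ∧ ∀ j < i, ω j = ω' j := by
    have hex : ∃ i, ω i ≠ ω' i := by
      obtain ⟨i, -, h⟩ := hω
      exact ⟨i, h⟩
    obtain ⟨i, hi, hi2⟩ := hω
    refine ⟨Nat.find hex, (Nat.find_min' hex hi2).trans_lt hi, Nat.find_spec hex, fun j hj => ?_⟩
    by_contra h
    exact Nat.find_min hex hj h
  set v := vv n₀ L i (ω i) with hvdef
  set w := X.W n n₀ L w₀ ω i with hw
  have hww : X.W n n₀ L w₀ ω' i = w := (W_congr hmin).symm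
  have hpw : X.p w = A0 := p_W hw₀ ω i
  obtain ⟨m, hm⟩ := closing hX hNW (v := v) hpw (z₀ := z₀) (k := k) hκ (hz ω i (ω i) hiL)
    hρ hδ hδ1 hδ2 M
  set U := X.Ub n v w m δ with hU
  have hUo : IsOpen U := isOpen_Ub w m δ
  have hadm := Kset_adm n v
  set O := X.Orb (Kset n v) U with hO
  apply hm
  -- (a) the points near `w` are in `O`
  have ha : ∀ y, X.p y = A0 → dist (X.q y) (X.q w) < δ / X.C → y ∈ O := by
    intro y hy hd
    have h1 : X.Hu y (p3 n v) ∈ O := by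
      refine subset_closure ⟨⟨0, ?_⟩, ?_⟩
      · refine ⟨?_, ?_⟩
        · show agr m (p3 n v) (X.p (X.Hu y (p3 n v)))
          rw [p_Hu_p3 hy]
          exact agr.refl _ _
        · show dist (X.q (X.Hu y (p3 n v))) (X.q (X.Hu w (p3 n v))) < δ
          have h2 := X.u.lip y w (p3 n v) (by rw [hy, hpw]) (by rw [hy]; exact SP_p3)
          have h3 : X.C * dist (X.q y) (X.q w) < δ := by
            rw [lt_div_iff₀ hC] at hd
            linarith
          linarith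
      · show X.p (X.Hu y (p3 n v)) ∈ Kset n v
        rw [p_Hu_p3 hy]
        exact p3_mem vv_ne_two
    have h2 := Orb_u hadm hNW hUo h1 A0_mem (by rw [p_Hu_p3 hy]; exact SP_p3.symm)
    have h3 := X.u.symm' y (p3 n v) (by rw [hy]; exact SP_p3)
    rw [hy] at h3
    rwa [h3] at h2
  -- the allowed moves
  have hmv : ∀ j f, (j ≠ i ∨ ∃ a < t, ω i a ≠ f a) → ∀ y, X.p y = A0 →
      (y ∈ O → X.θ n (vv n₀ L j f) y ∈ O) ∧ (X.θ n (vv n₀ L j f) y ∈ O → y ∈ O) := by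
    intro j f hjf y hy
    have hne : ∃ b : ℤ, 1 ≤ b ∧ b ≤ n ∧ vv n₀ L j f b ≠ v b := by
      rw [hn]
      refine vv_ne hiL ?_
      rcases hjf with h | h
      · exact Or.inl (Ne.symm h)
      · exact Or.inr h
    have hne0 : ∃ b : ℤ, 1 ≤ b ∧ b ≤ n ∧ v0 b ≠ v b := by
      rw [hn]
      exact v0_ne hiL
    constructor
    · intro h
      exact Orb_Ti hNW hUo v0_ne_two hne0 (p_T hy) (Orb_T hNW hUo vv_ne_two hne hy h)
    · intro h
      have h1 := Orb_T hNW hUo v0_ne_two hne0 (p_θ hy) h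
      have h2 := Orb_Ti hNW hUo vv_ne_two hne (p_T (p_θ hy)) h1
      have h3 := θi_θ (X := X) (n := n) (v := vv n₀ L j f) hy
      rw [θi] at h3
      rwa [h3] at h2
  -- (b) the points near the `ω'` path are in `O`
  have hb : ∀ d, i + d ≤ L → ∀ y, X.p y = A0 →
      dist (X.q y) (X.q (X.W n n₀ L w₀ ω' (i + d))) < δ / (X.C * K ^ d) → y ∈ O := by
    intro d
    induction d with
    | zero =>
      intro _ y hy hd
      rw [add_zero, hww, pow_zero, mul_one] at hd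
      exact ha y hy hd
    | succ d ih =>
      intro hdL y hy hd
      have hj : (i + d) ≠ i ∨ ∃ a < t, ω i a ≠ ω' (i + d) a := by
        rcases Nat.eq_zero_or_pos d with h | h
        · subst h
          right
          by_contra hcon2
          push Not at hcon2
          apply hi
          funext a
          rcases lt_or_ge a t with h | h
          · exact hcon2 a h
          · exact hT i a h
        · left
          omega
      have h1 := (hmv (i + d) (ω' (i + d)) hj (X.θi n (vv n₀ L (i + d) (ω' (i + d))) y)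
        (p_θi hy)).1
      rw [θ_θi hy] at h1
      apply h1
      refine ih (by omega) _ (p_θi hy) ?_
      have h2 := lip_θi (n := n) (v := vv n₀ L (i + d) (ω' (i + d))) hX hy
        (p_W (n := n) (n₀ := n₀) (L := L) hw₀ ω' (i + (d + 1)))
      have h3 : X.W n n₀ L w₀ ω' (i + (d + 1)) =
        X.θ n (vv n₀ L (i + d) (ω' (i + d))) (X.W n n₀ L w₀ ω' (i + d)) := rfl
      rw [h3, θi_θ (p_W hw₀ ω' (i + d)), ← h3] at h2
      refine h2.trans_lt ?_
      have hKpos : 0 < K := by linarith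
      calc _ < K * (δ / (X.C * K ^ (d + 1))) := mul_lt_mul_of_pos_left hd hKpos
        _ = _ := by
          rw [pow_succ']
          field_simp
  -- (c) back along the `ω` path
  have hc : ∀ d, i + 1 + d ≤ L → X.W n n₀ L w₀ ω (i + 1 + d) ∈ O →
      X.W n n₀ L w₀ ω (i + 1) ∈ O := by
    intro d
    induction d with
    | zero => exact fun _ h => h
    | succ d ih =>
      intro hdL h
      apply ih (by omega)
      exact (hmv (i + 1 + d) (ω (i + 1 + d)) (Or.inl (by omega)) _ (p_W hw₀ ω _)).2 h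
  obtain ⟨d, hd⟩ : ∃ d, L = i + 1 + d := ⟨L - (i + 1), by omega⟩
  have h1 : X.W n n₀ L w₀ ω L ∈ O := by
    refine hb (L - i) (by omega) _ (p_W hw₀ ω L) ?_
    rw [show i + (L - i) = L by omega]
    refine hcon.trans_le ?_
    apply div_le_div_of_nonneg_left hδ.le (by positivity)
    exact mul_le_mul_of_nonneg_left (pow_le_pow_right₀ hK1 (by omega)) hC.le
  have h2 : X.W n n₀ L w₀ ω (i + 1) ∈ O := hc d (by omega) (by rw [← hd]; exact h1)
  have h3 : X.θ n v w ∈ O := h2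
  have h4 := Orb_T (v' := v0) hNW hUo v0_ne_two (by rw [hn]; exact v0_ne hiL) (p_θ hpw) h3
  rw [θ, T_Ti (p_T hpw)] at h4
  exact h4

end Ext

end Pool.Agent.KS6_4.CL
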